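import Mathlib
import Pool.Graph.R_seed8.H382R3.KD.Fin2

set_option autoImplicit false

open MeasureTheory Filter Topology Set
open scoped ComplexConjugate Real

namespace Pool.Agent.KS6_58.KD

open Pool.Agent.H382R3.KD

/-- `γ` is badly approximable. -/
def BadlyApprox (γ : ℝ) : Prop := ∃ c : ℝ, 0 < c ∧ ∀ q p : ℤ, q ≠ 0 → c / |(q : ℝ)| ≤ |q * γ - p|

/-- translation number -/
noncomputable def trn (u : Circ → ℂ) (y : Circ) : ℝ := ∫ x : Circ, ‖u (x + y) - u x‖

lemma trn_tendsto {u : Circ → ℂ} (hu : Measurable u) (hb : ∀ x, ‖u x‖ ≤ 1) :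
    Tendsto (trn u) (𝓝 0) (𝓝 0) := by
  have hi : Integrable u := integrable_of_bddC hu hb
  have hmem : MemLp u 1 (volume : Measure Circ) := memLp_one_iff_integrable.2 hi
  let G : C(Circ, C(Circ, Circ)) := ContinuousMap.curry ⟨fun p : Circ × Circ => p.2 + p.1, by fun_prop⟩
  have hG : ∀ y x, G y x = x + y := fun y x => rfl
  have hmp : ∀ y : Circ, MeasurePreserving (G y) (volume : Measure Circ) volume := fun y => by
    have : (G y : Circ → Circ) = fun x => x + y := by funext x; exact hG y x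
    rw [this]
    exact measurePreserving_add_right _ y
  have hlim : Tendsto (fun y : Circ => Lp.compMeasurePreserving (G y) (hmp y) (hmem.toLp u)) (𝓝 0)
      (𝓝 (Lp.compMeasurePreserving (G 0) (hmp 0) (hmem.toLp u))) :=
    Filter.Tendsto.compMeasurePreservingLp tendsto_const_nhds (G.continuous.tendsto 0) hmp (hmp 0)
      (by simp)
  rw [tendsto_iff_norm_sub_tendsto_zero] at hlim
  refine hlim.congr (fun y => ?_)
  rw [L1.norm_eq_integral_norm]
  unfold trn
  apply integral_congr_ae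
  have h1 := Lp.coeFn_sub (Lp.compMeasurePreserving (G y) (hmp y) (hmem.toLp u))
    (Lp.compMeasurePreserving (G 0) (hmp 0) (hmem.toLp u))
  have h2 := Lp.coeFn_compMeasurePreserving (hmem.toLp u) (hmp y)
  have h3 := Lp.coeFn_compMeasurePreserving (hmem.toLp u) (hmp 0)
  have h4 := hmem.coeFn_toLp
  have h5 := (hmp y).quasiMeasurePreserving.ae_eq_comp h4
  have h6 := (hmp 0).quasiMeasurePreserving.ae_eq_comp h4
  filter_upwards [h1, h2, h3, h5, h6] with x e1 e2 e3 e5 e6
  rw [e1, Pi.sub_apply, e2, e3, e5, e6]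
  simp only [Function.comp, hG, add_zero]

/-- badly approximable numbers: distances on the circle -/
lemma ba_fr {γ c h : ℝ} (hc : ∀ q p : ℤ, q ≠ 0 → c / |(q : ℝ)| ≤ |q * γ - p|) {Q : ℝ}
    (hQ : 0 < Q) (hc0 : 0 < c) (hh : h ≤ c / Q) {y z : Circ} (hy : fr y < h) (hz : fr z < h) {k : ℤ}
    (hk : |(k : ℝ)| ≤ Q) (hyz : y - z = k • (γ : Circ)) : k = 0 := by
  by_contra hk0
  have e1 : ((fr y - fr z - k * γ : ℝ) : Circ) = 0 := by
    rw [AddCircle.coe_sub, AddCircle.coe_sub, coe_fr, coe_fr, hyz, ← zsmul_eq_mul]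
    simp
  rw [AddCircle.coe_eq_zero_iff] at e1
  obtain ⟨n, hn⟩ := e1
  simp only [zsmul_eq_mul, mul_one] at hn
  have h1 := hc k (-n) hk0
  have h2 : |(k : ℝ) * γ - ((-n : ℤ) : ℝ)| = |fr y - fr z| := by
    congr 1; push_cast; linarith
  rw [h2] at h1
  have h3 : |fr y - fr z| < h := by
    rw [abs_lt]
    have a1 := fr_nonneg y; have a2 := fr_nonneg z
    constructor <;> linarith
  have hkpos : 0 < |(k : ℝ)| := abs_pos.2 (by exact_mod_cast hk0)
  have h4 : c / Q ≤ c / |(k : ℝ)| := div_le_div_of_nonneg_left hc0.le hkpos hk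
  linarith

end Pool.Agent.KS6_58.KD
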