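import Mathlib
import Pool.Agent.KS6_58.KD.V1

set_option autoImplicit false

open MeasureTheory Filter Topology Set
open scoped ComplexConjugate Real

namespace Pool.Agent.KS6_58.KD

open Pool.Agent.H382R3.KD

/-- indicator of a short arc -/
noncomputable def ind (h : ℝ) (x : Circ) : ℝ := if fr x < h then 1 else 0

lemma measurable_ind (h : ℝ) : Measurable (ind h) :=
  Measurable.ite (measurableSet_lt measurable_fr measurable_const) measurable_const measurable_const

lemma ind_nonneg (h : ℝ) (x : Circ) : 0 ≤ ind h x := by unfold ind; split_ifs <;> simp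

lemma ind_le (h : ℝ) (x : Circ) : ind h x ≤ 1 := by unfold ind; split_ifs <;> simp

lemma integrable_ind (h : ℝ) : Integrable (ind h) :=
  integrable_of_bdd (measurable_ind h) (B := 1) (fun x => by
    rw [abs_of_nonneg (ind_nonneg h x)]; exact ind_le h x)

lemma integral_ind {h : ℝ} (h0 : 0 < h) (h1 : h < 1) (b : Circ) : ∫ x : Circ, ind h (x + b) = h := by
  rw [integral_add_right_eq_self (ind h) b]
  exact integral_ite_fr h0 h1

/-- birkhoff sums over the natural numbers -/
noncomputable def Sn (φ : Circ → ℝ) (a : Circ) (q : ℕ) (x : Circ) : ℝ := ∑ i ∈ Finset.range q, φ (x + i • a)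

lemma Sn_succ (φ : Circ → ℝ) (a : Circ) (q : ℕ) (x : Circ) :
    Sn φ a (q + 1) x = Sn φ a q x + φ (x + q • a) := by
  unfold Sn; rw [Finset.sum_range_succ]

lemma measurable_Sn {φ : Circ → ℝ} (hφ : Measurable φ) (a : Circ) (q : ℕ) : Measurable (Sn φ a q) := by
  unfold Sn
  exact Finset.measurable_fun_sum _ (fun i _ => hφ.comp (measurable_add_const _))

lemma NN_shift {D h : ℝ} (h0 : 0 < h) (h1 : h < 1) (y : Circ) :
    NN D (y + (h : Circ)) - NN D y = ind h (y + (h : Circ)) - ind h (y + (h : Circ) - (D : Circ)) := by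
  have e1 := fr_sub (y + (h : Circ)) h0 h1
  have e2 := fr_sub (y + (h : Circ) - (D : Circ)) h0 h1
  rw [add_sub_cancel_right] at e1
  rw [show y + (h : Circ) - (D : Circ) - (h : Circ) = y - (D : Circ) by abel] at e2
  unfold NN ind
  linarith

lemma cob_iter {D τ : ℝ} {a : Circ} {u : Circ → ℂ} (hu1 : ∀ x, ‖u x‖ = 1) {lam : ℂ} {x : Circ}
    (hx : ∀ n : ℕ, lam * ex (τ * NN D (x + n • a)) = u (x + n • a + a) * conj (u (x + n • a))) (n : ℕ) :
    lam ^ n * ex (τ * Sn (NN D) a n x) = u (x + n • a) * conj (u x) := by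
  have huu : ∀ y, u y * conj (u y) = 1 := fun y => by
    rw [Complex.mul_conj, Complex.normSq_eq_norm_sq, hu1]; simp
  induction n with
  | zero => simp [Sn, ex_zero, huu]
  | succ n ih =>
    have e2 : x + (n + 1) • a = x + n • a + a := by rw [succ_nsmul, ← add_assoc]
    rw [Sn_succ, mul_add, ex_add, pow_succ, e2]
    have h3 := huu (x + n • a)
    calc lam ^ n * lam * (ex (τ * Sn (NN D) a n x) * ex (τ * NN D (x + n • a)))
        = (lam ^ n * ex (τ * Sn (NN D) a n x)) * (lam * ex (τ * NN D (x + n • a))) := by ring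
      _ = (u (x + n • a) * conj (u (x + n • a))) * (u (x + n • a + a) * conj (u x)) := by
          rw [ih, hx n]; ring
      _ = _ := by rw [h3, one_mul]

lemma ae_cob_iter {D τ : ℝ} {a : Circ} {u : Circ → ℂ} (hu1 : ∀ x, ‖u x‖ = 1) {lam : ℂ}
    (hco : ∀ᵐ x : Circ, lam * ex (τ * NN D x) = u (x + a) * conj (u x)) (n : ℕ) :
    ∀ᵐ x : Circ, lam ^ n * ex (τ * Sn (NN D) a n x) = u (x + n • a) * conj (u x) := by
  have hco' : ∀ᵐ x : Circ, ∀ n : ℕ, lam * ex (τ * NN D (x + n • a)) =
      u (x + n • a + a) * conj (u (x + n • a)) := by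
    rw [ae_all_iff]
    intro n
    exact ae_shift (P := fun y => lam * ex (τ * NN D y) = u (y + a) * conj (u y)) hco (n • a)
  filter_upwards [hco'] with x hx
  exact cob_iter hu1 hx n

lemma measurable_exmul {φ : Circ → ℝ} (hφ : Measurable φ) (τ : ℝ) : Measurable (fun x => ex (τ * φ x)) :=
  continuous_ex.measurable.comp (hφ.const_mul τ)

lemma V1 {D τ : ℝ} {a : Circ} {u : Circ → ℂ} (hu : Measurable u) (hu1 : ∀ x, ‖u x‖ = 1) {lam : ℂ}
    (hlam : ‖lam‖ = 1)
    (hco : ∀ᵐ x : Circ, lam * ex (τ * NN D x) = u (x + a) * conj (u x)) {q : ℕ} {h : ℝ}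
    (hh0 : 0 < h) (hh1 : h < 1)
    (hA : ∀ (x : Circ) (i i' : ℕ), i < q → i' < q → fr (x + i • a) < h → fr (x + i' • a) < h → i = i')
    (hB : ∀ (x : Circ) (i i' : ℕ), i < q → i' < q →
      ¬ (fr (x + i • a) < h ∧ fr (x + i' • a - (D : Circ)) < h)) :
    ‖ex τ - 1‖ * (q * h) ≤ 2 * trn u (q • a) := by
  classical
  set S : Circ → ℝ := Sn (NN D) a q with hS
  have hSm : Measurable S := measurable_Sn (measurable_NN D) a q
  have hiter := ae_cob_iter hu1 hco q
  have e1 : ∫ x : Circ, ‖lam ^ q * ex (τ * S x) - 1‖ = trn u (q • a) := by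
    unfold trn
    apply integral_congr_ae
    filter_upwards [hiter] with x hx
    rw [hS, hx]
    have huu : u x * conj (u x) = 1 := by
      rw [Complex.mul_conj, Complex.normSq_eq_norm_sq, hu1]; simp
    have : u (x + q • a) * conj (u x) - 1 = (u (x + q • a) - u x) * conj (u x) := by
      rw [sub_mul, huu]
    rw [this, norm_mul, Complex.norm_conj, hu1, mul_one]
  have hm1 : Measurable (fun x : Circ => ‖lam ^ q * ex (τ * S x) - 1‖) :=
    (((measurable_exmul hSm τ).const_mul _).sub_const 1).norm
  have hi1 : Integrable (fun x : Circ => ‖lam ^ q * ex (τ * S x) - 1‖) :=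
    integrable_of_bdd hm1 (B := 2) (fun x => by
      rw [abs_of_nonneg (norm_nonneg _)]
      refine (norm_sub_le _ _).trans ?_
      rw [norm_mul, norm_pow, hlam, norm_ex]; norm_num)
  have e2 : ∫ x : Circ, ‖lam ^ q * ex (τ * S (x + (h : Circ))) - 1‖ = trn u (q • a) := by
    rw [← e1]
    exact integral_add_right_eq_self (fun x : Circ => ‖lam ^ q * ex (τ * S x) - 1‖) (h : Circ)
  have hi2 : Integrable (fun x : Circ => ‖lam ^ q * ex (τ * S (x + (h : Circ))) - 1‖) :=
    hi1.comp_add_right (h : Circ)
  -- pointwise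
  have hdiff : ∀ x : Circ, S (x + (h : Circ)) - S x = Sn (ind h) a q (x + (h : Circ)) -
      Sn (ind h) a q (x + (h : Circ) - (D : Circ)) := by
    intro x
    rw [hS]
    unfold Sn
    rw [← Finset.sum_sub_distrib, ← Finset.sum_sub_distrib]
    refine Finset.sum_congr rfl (fun i _ => ?_)
    have := NN_shift (D := D) hh0 hh1 (x + i • a)
    rw [show x + (h : Circ) + i • a = x + i • a + (h : Circ) by abel, this]
    rw [show x + (h : Circ) - (D : Circ) + i • a = x + i • a + (h : Circ) - (D : Circ) by abel]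
  have hpt : ∀ x : Circ, ‖ex τ - 1‖ * Sn (ind h) a q (x + (h : Circ)) ≤
      ‖lam ^ q * ex (τ * S (x + (h : Circ))) - 1‖ + ‖lam ^ q * ex (τ * S x) - 1‖ := by
    intro x
    set y := x + (h : Circ) with hy
    by_cases hex : ∃ i < q, fr (y + i • a) < h
    · obtain ⟨i, hi, hi2⟩ := hex
      have hone : Sn (ind h) a q y = 1 := by
        unfold Sn
        rw [Finset.sum_eq_single i]
        · unfold ind; rw [if_pos hi2]
        · intro b hb hbi
          unfold ind
          rw [if_neg]
          intro hlt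
          exact hbi (hA y b i (Finset.mem_range.1 hb) hi hlt hi2)
        · intro hni
          exact absurd (Finset.mem_range.2 hi) hni
      have hzero : Sn (ind h) a q (y - (D : Circ)) = 0 := by
        unfold Sn
        apply Finset.sum_eq_zero
        intro b hb
        unfold ind
        rw [if_neg]
        intro hlt
        apply hB y i b hi (Finset.mem_range.1 hb)
        refine ⟨hi2, ?_⟩
        rwa [show y + b • a - (D : Circ) = y - (D : Circ) + b • a by abel]
      have hd := hdiff x
      rw [← hy, hone, hzero] at hd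
      have : lam ^ q * ex (τ * S y) - lam ^ q * ex (τ * S x) = (lam ^ q * ex (τ * S x)) * (ex τ - 1) := by
        have : τ * S y = τ * S x + τ := by
          have : S y = S x + 1 := by linarith
          rw [this]; ring
        rw [this, ex_add]; ring
      rw [hone, mul_one]
      calc ‖ex τ - 1‖ = ‖lam ^ q * ex (τ * S y) - lam ^ q * ex (τ * S x)‖ := by
            rw [this, norm_mul, norm_mul, norm_pow, hlam, norm_ex]; simp
        _ = ‖(lam ^ q * ex (τ * S y) - 1) - (lam ^ q * ex (τ * S x) - 1)‖ := by congr 1; ring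
        _ ≤ _ := norm_sub_le _ _
    · push Not at hex
      have hz : Sn (ind h) a q y = 0 := by
        unfold Sn
        apply Finset.sum_eq_zero
        intro b hb
        unfold ind
        rw [if_neg (not_lt.2 (hex b (Finset.mem_range.1 hb)))]
      rw [hz, mul_zero]
      positivity
  have hint : ∫ x : Circ, Sn (ind h) a q (x + (h : Circ)) = q * h := by
    unfold Sn
    have : ∀ i ∈ Finset.range q, Integrable (fun x : Circ => ind h (x + (h : Circ) + i • a)) := fun i _ =>
      ((integrable_ind h).comp_add_right (i • a)).comp_add_right (h : Circ)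
    rw [integral_finsetSum _ this]
    have h2 : ∀ i ∈ Finset.range q, ∫ x : Circ, ind h (x + (h : Circ) + i • a) = h := by
      intro i _
      simp_rw [add_assoc]
      exact integral_ind hh0 hh1 _
    rw [Finset.sum_congr rfl h2]
    simp
  calc ‖ex τ - 1‖ * (q * h) = ∫ x : Circ, ‖ex τ - 1‖ * Sn (ind h) a q (x + (h : Circ)) := by
        rw [integral_const_mul, hint]
    _ ≤ ∫ x : Circ, (‖lam ^ q * ex (τ * S (x + (h : Circ))) - 1‖ + ‖lam ^ q * ex (τ * S x) - 1‖) := by
        apply integral_mono_of_nonneg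
        · refine Eventually.of_forall (fun x => ?_)
          apply mul_nonneg (norm_nonneg _)
          exact Finset.sum_nonneg (fun i _ => ind_nonneg _ _)
        · exact hi2.add hi1
        · exact Eventually.of_forall hpt
    _ = 2 * trn u (q • a) := by rw [integral_add hi2 hi1, e1, e2]; ring

end Pool.Agent.KS6_58.KD
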