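import Mathlib
import Pool.Agent.KS6_58.KD.V2

set_option autoImplicit false

open MeasureTheory Filter Topology Set
open scoped ComplexConjugate Real

namespace Pool.Agent.KS6_58.KD

open Pool.Agent.H382R3.KD

/-- a step function cocycle with a badly approximable rotation number is a coboundary only in the
Kesten case (or when its values are trivial) -/
theorem lemmaV {D γ τ : ℝ} (hbad : BadlyApprox γ) {u : Circ → ℂ} (hu : Measurable u)
    (hu1 : ∀ x, ‖u x‖ = 1) {lam : ℂ} (hlam : ‖lam‖ = 1)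
    (hco : ∀ᵐ x : Circ, lam * ex (τ * NN D x) = u (x + (γ : Circ)) * conj (u x)) (hτ : ex τ ≠ 1) :
    Kesten D γ := by
  obtain ⟨c, hc0, hc⟩ := hbad
  have hc1 : c ≤ 1 / 2 := by
    have h1 := hc 1 (round γ) one_ne_zero
    have h2 := abs_sub_round γ
    simp only [Int.cast_one, abs_one, div_one, one_mul] at h1
    linarith
  have hδ : 0 < ‖ex τ - 1‖ := norm_pos_iff.2 (sub_ne_zero.2 hτ)
  have ht := trn_tendsto hu (fun x => (hu1 x).le)
  have hev : ∀ᶠ y : Circ in 𝓝 0, 2 * trn u y < ‖ex τ - 1‖ * (c ^ 2 / 8) := by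
    have h2 := ht.const_mul 2
    rw [mul_zero] at h2
    exact h2.eventually_lt_const (by positivity)
  obtain ⟨ρ, hρ, hball⟩ := Metric.eventually_nhds_iff.1 hev
  obtain ⟨Q0, hQ0⟩ := exists_nat_gt (1 / ρ)
  -- the main step
  have key : ∀ Q : ℕ, Q0 + 1 ≤ Q → ∃ k n : ℤ, |(k : ℝ)| ≤ Q ∧ |D - k * γ - n| < c / (8 * Q) := by
    intro Q hQ
    have hQ1 : 0 < Q := by omega
    have hQR : (0 : ℝ) < Q := by exact_mod_cast hQ1
    have hQρ : 1 / (Q : ℝ) < ρ := by
      rw [div_lt_iff₀ hρ] at hQ0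
      rw [div_lt_iff₀ hQR]
      have : (Q0 : ℝ) ≤ Q := by exact_mod_cast (by omega : Q0 ≤ Q)
      nlinarith
    obtain ⟨j, q', hq0, hqQ, hj⟩ := Real.exists_int_int_abs_mul_sub_le γ (n := Q) hQ1
    obtain ⟨q, rfl⟩ := Int.eq_ofNat_of_zero_le hq0.le
    simp only [Int.cast_natCast] at hj hq0 hqQ
    have hqR : (0 : ℝ) < q := by exact_mod_cast hq0
    have hj' : |(q : ℝ) * γ - j| ≤ 1 / Q := by
      refine hj.trans ?_
      apply one_div_le_one_div_of_le hQR
      linarith
    have hcq := hc q j (by omega)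
    simp only [Int.cast_natCast] at hcq
    rw [abs_of_pos hqR] at hcq
    have hqc : c * Q ≤ q := by
      have h2 : c / (q : ℝ) ≤ 1 / Q := hcq.trans hj'
      rw [div_le_div_iff₀ hqR hQR] at h2
      linarith
    set h : ℝ := c / (8 * Q) with hh
    have hh0 : 0 < h := by positivity
    have hh1 : h < 1 := by
      rw [hh, div_lt_one (by positivity)]
      have : (1 : ℝ) ≤ Q := by exact_mod_cast hQ1
      linarith
    have hhQ : h ≤ c / Q := by
      rw [hh]
      apply div_le_div_of_nonneg_left hc0.le hQR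
      linarith
    have hdist : dist (q • (γ : Circ)) 0 < ρ := by
      rw [dist_zero_right]
      have e1 : q • (γ : Circ) = (((q : ℝ) * γ - j : ℝ) : Circ) := by
        rw [AddCircle.coe_sub]
        have : ((j : ℝ) : Circ) = 0 := by
          rw [AddCircle.coe_eq_zero_iff]; exact ⟨j, by simp⟩
        rw [this, sub_zero, ← nsmul_eq_mul]
        simp
      rw [e1]
      have e2 : ‖(((q : ℝ) * γ - j : ℝ) : Circ)‖ ≤ |(q : ℝ) * γ - j| := by
        exact QuotientAddGroup.norm_mk_le_norm (S := AddSubgroup.zmultiples (1 : ℝ)) (m := (q : ℝ) * γ - j)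
      linarith
    have htr := hball hdist
    by_contra hno
    push Not at hno
    have hA : ∀ (x : Circ) (i i' : ℕ), i < q → i' < q → fr (x + i • (γ : Circ)) < h →
        fr (x + i' • (γ : Circ)) < h → i = i' := by
      intro x i i' hi hi' h1 h2
      have := ba_fr (k := (i : ℤ) - i') hc hQR hc0 hhQ h1 h2 (by
        rw [abs_le]
        have a1 : (i : ℝ) ≤ q := by exact_mod_cast hi.le
        have a2 : (i' : ℝ) ≤ q := by exact_mod_cast hi'.le
        have a3 : (q : ℝ) ≤ Q := by exact_mod_cast hqQ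
        have a4 : (0 : ℝ) ≤ i := Nat.cast_nonneg _
        have a5 : (0 : ℝ) ≤ i' := Nat.cast_nonneg _
        push_cast
        constructor <;> linarith) (by
        rw [sub_smul, natCast_zsmul, natCast_zsmul]; abel)
      omega
    have hB : ∀ (x : Circ) (i i' : ℕ), i < q → i' < q →
        ¬ (fr (x + i • (γ : Circ)) < h ∧ fr (x + i' • (γ : Circ) - (D : Circ)) < h) := by
      rintro x i i' hi hi' ⟨h1, h2⟩
      set y := x + i • (γ : Circ) with hy
      set z := x + i' • (γ : Circ) - (D : Circ) with hz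
      have e1 : ((fr y - fr z - (((i : ℝ) - i') * γ + D) : ℝ) : Circ) = 0 := by
        have e2 : ((((i : ℝ) - i') * γ : ℝ) : Circ) = ((i : ℤ) - i') • (γ : Circ) := by
          have : ((i : ℝ) - i') * γ = ((i : ℤ) - i') • γ := by
            rw [zsmul_eq_mul]; push_cast; ring
          rw [this, AddCircle.coe_zsmul]
        rw [AddCircle.coe_sub, AddCircle.coe_sub, coe_fr, coe_fr, AddCircle.coe_add, e2, hy, hz,
          sub_smul, natCast_zsmul, natCast_zsmul]
        abel
      rw [AddCircle.coe_eq_zero_iff] at e1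
      obtain ⟨n, hn⟩ := e1
      simp only [zsmul_eq_mul, mul_one] at hn
      have h3 : |fr y - fr z| < h := by
        rw [abs_lt]
        have a1 := fr_nonneg y; have a2 := fr_nonneg z
        constructor <;> linarith
      have h4 := hno ((i' : ℤ) - i) (-n) (by
        rw [abs_le]
        have a1 : (i : ℝ) ≤ q := by exact_mod_cast hi.le
        have a2 : (i' : ℝ) ≤ q := by exact_mod_cast hi'.le
        have a3 : (q : ℝ) ≤ Q := by exact_mod_cast hqQ
        have a4 : (0 : ℝ) ≤ i := Nat.cast_nonneg _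
        have a5 : (0 : ℝ) ≤ i' := Nat.cast_nonneg _
        push_cast
        constructor <;> linarith)
      have h5 : D - (((i' : ℤ) - i : ℤ) : ℝ) * γ - ((-n : ℤ) : ℝ) = fr y - fr z := by
        push_cast; linarith
      rw [h5] at h4
      linarith
    have hV := V1 hu hu1 hlam hco hh0 hh1 hA hB
    have hqh : c ^ 2 / 8 ≤ q * h := by
      rw [hh, mul_div_assoc', div_le_div_iff₀ (by norm_num) (by positivity)]
      nlinarith [mul_le_mul_of_nonneg_left hqc hc0.le]
    have := mul_le_mul_of_nonneg_left hqh hδ.le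
    linarith
  choose! kk nn hkk using key
  have hstep : ∀ Q : ℕ, Q0 + 1 ≤ Q → kk (Q + 1) = kk Q ∧ nn (Q + 1) = nn Q := by
    intro Q hQ
    have hQ1 : 0 < Q := by omega
    have hQR : (1 : ℝ) ≤ Q := by exact_mod_cast hQ1
    obtain ⟨a1, a2⟩ := hkk Q hQ
    obtain ⟨b1, b2⟩ := hkk (Q + 1) (by omega)
    push_cast at b1 b2
    have h8 : c / (8 * ((Q : ℝ) + 1)) ≤ c / (8 * Q) := by
      apply div_le_div_of_nonneg_left hc0.le (by positivity)
      linarith
    have hsum : |((kk (Q + 1) - kk Q : ℤ) : ℝ) * γ - ((nn Q - nn (Q + 1) : ℤ) : ℝ)| < c / (4 * Q) := by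
      have e : ((kk (Q + 1) - kk Q : ℤ) : ℝ) * γ - ((nn Q - nn (Q + 1) : ℤ) : ℝ) =
          (D - kk Q * γ - nn Q) - (D - kk (Q + 1) * γ - nn (Q + 1)) := by push_cast; ring
      rw [e]
      refine lt_of_le_of_lt (abs_sub _ _) ?_
      have : c / (4 * (Q : ℝ)) = c / (8 * Q) + c / (8 * Q) := by field_simp; ring
      rw [this]
      linarith
    have hk : kk (Q + 1) - kk Q = 0 := by
      by_contra hne
      have h1 := hc _ (nn Q - nn (Q + 1)) hne
      have h2 : |((kk (Q + 1) - kk Q : ℤ) : ℝ)| ≤ 3 * Q := by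
        push_cast
        refine (abs_sub _ _).trans ?_
        linarith
      have h3 : (0 : ℝ) < |((kk (Q + 1) - kk Q : ℤ) : ℝ)| := abs_pos.2 (by exact_mod_cast hne)
      have h4 : c / (3 * (Q : ℝ)) ≤ c / |((kk (Q + 1) - kk Q : ℤ) : ℝ)| :=
        div_le_div_of_nonneg_left hc0.le h3 h2
      have h5 : c / (4 * (Q : ℝ)) ≤ c / (3 * Q) := by
        apply div_le_div_of_nonneg_left hc0.le (by positivity)
        linarith
      linarith
    refine ⟨by omega, ?_⟩
    rw [hk] at hsum
    simp only [Int.cast_zero, zero_mul, zero_sub, abs_neg] at hsum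
    have h6 : c / (4 * (Q : ℝ)) < 1 := by
      rw [div_lt_one (by positivity)]; linarith
    have h7 : |(nn Q - nn (Q + 1) : ℤ)| < 1 := by
      have : |((nn Q - nn (Q + 1) : ℤ) : ℝ)| < 1 := by linarith
      exact_mod_cast this
    rw [Int.abs_lt_one_iff] at h7
    omega
  have hconst : ∀ Q : ℕ, Q0 + 1 ≤ Q → kk Q = kk (Q0 + 1) ∧ nn Q = nn (Q0 + 1) := by
    intro Q hQ
    induction Q, hQ using Nat.le_induction with
    | base => exact ⟨rfl, rfl⟩
    | succ Q hQ ih =>
      obtain ⟨h1, h2⟩ := hstep Q hQ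
      exact ⟨h1.trans ih.1, h2.trans ih.2⟩
  refine ⟨kk (Q0 + 1), nn (Q0 + 1), ?_⟩
  have hz : |D - kk (Q0 + 1) * γ - nn (Q0 + 1)| ≤ 0 := by
    have hlim : Tendsto (fun Q : ℕ => c / (8 * (Q : ℝ))) atTop (𝓝 0) :=
      tendsto_const_nhds.div_atTop (tendsto_natCast_atTop_atTop.const_mul_atTop (by norm_num))
    refine ge_of_tendsto hlim ?_
    filter_upwards [eventually_ge_atTop (Q0 + 1)] with Q hQ
    obtain ⟨h1, h2⟩ := hconst Q hQ
    have h3 := (hkk Q hQ).2
    rw [h1, h2] at h3
    exact h3.le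
  have := abs_nonpos_iff.1 hz
  linarith

end Pool.Agent.KS6_58.KD
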