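import Mathlib
import Pool.Agent.KS6_58.KD.V3

set_option autoImplicit false

open MeasureTheory Filter Topology Set
open scoped ComplexConjugate Real

namespace Pool.Agent.KS6_58.KD

open Pool.Agent.H382R3.KD

lemma ex_eq_one {t : ℝ} (h : ex t = 1) : ∃ n : ℤ, t = n := by
  unfold ex at h
  rw [Complex.exp_eq_one_iff] at h
  obtain ⟨n, hn⟩ := h
  refine ⟨-n, ?_⟩
  have hI : ((-2 * π * t : ℝ) : ℂ) = ((n * (2 * π) : ℝ) : ℂ) := by
    apply mul_right_cancel₀ Complex.I_ne_zero
    rw [hn]; push_cast; ring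
  have h2 : -2 * π * t = n * (2 * π) := by exact_mod_cast hI
  have hpi := Real.pi_pos
  push_cast
  have : (2 * π) * t = (2 * π) * (-n) := by linarith
  exact mul_left_cancel₀ (by positivity) this

lemma ex_ne_zero (t : ℝ) : ex t ≠ 0 := by
  intro h
  have := norm_ex t
  rw [h] at this; simp at this

lemma mul_conj_one {z : ℂ} (h : ‖z‖ = 1) : z * conj z = 1 := by
  rw [Complex.mul_conj, Complex.normSq_eq_norm_sq, h]; simp

lemma rr_NN {D : ℝ} (h0 : 0 < D) (h1 : D < 1) (s : ℝ) (x : Circ) :
    s * rr D x = s * (1 - D) / kap D + (s * (2 * D - 1) / kap D) * NN D x := by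
  rw [rr_eq, NN_eq_ite x h0 h1]; ring

/-- the step function cocycle is a coboundary only if its values are trivial -/
def NC (D γ : ℝ) : Prop := ∀ (τ : ℝ) (lam : ℂ) (u : Circ → ℂ), ‖lam‖ = 1 → Measurable u →
  (∀ x, ‖u x‖ = 1) → (∀ᵐ x : Circ, lam * ex (τ * NN D x) = u (x + (γ : Circ)) * conj (u x)) → ex τ = 1

lemma NC_of_bad {D γ : ℝ} (hbad : BadlyApprox γ) (hK : ¬ Kesten D γ) : NC D γ := by
  intro τ lam u hlam hu hu1 hco
  by_contra hne
  exact hK (lemmaV hbad hu hu1 hlam hco hne)

/-- every eigenfunction of the weighted rotation is orthogonal to the constants -/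
theorem fixed_integral {D γ s : ℝ} (h0 : 0 < D) (h1 : D < 1) (hγ : Irrational γ) (hNC : NC D γ)
    (hD : Irrational D) (hs : s ≠ 0) {f : Circ → ℂ} (hf : Measurable f)
    (hfix : ∀ᵐ x : Circ, ex (s * rr D x) * f (x + (γ : Circ)) = f x) : ∫ x : Circ, f x = 0 := by
  classical
  have hk := kap_pos h0
  have hnorm : (fun x : Circ => ‖f x‖) ∘ (fun x : Circ => x + (γ : Circ)) =ᵐ[volume] fun x : Circ => ‖f x‖ := by
    filter_upwards [hfix] with x hx
    simp only [Function.comp]
    rw [← hx, norm_mul, norm_ex, one_mul]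
  have herg : Ergodic (fun x : Circ => x + (γ : Circ)) (volume : Measure Circ) :=
    AddCircle.ergodic_add_right.2 (addOrderOf_irr hγ)
  obtain ⟨c, hc⟩ := herg.ae_eq_const_of_ae_eq_comp_ae (hf.norm.aestronglyMeasurable) hnorm
  by_cases hc0 : c = 0
  · have : ∀ᵐ x : Circ, f x = 0 := by
      filter_upwards [hc] with x hx
      rw [hc0] at hx
      simpa using hx
    rw [integral_congr_ae this]; simp
  set u : Circ → ℂ := fun x => if ‖f x‖ = c then conj (f x) / (c : ℂ) else 1 with hu
  have hcpos : 0 < c := by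
    have hne : ∃ x : Circ, ‖f x‖ = c := by
      have : (ae (volume : Measure Circ)).NeBot := inferInstance
      exact hc.exists
    obtain ⟨x, hx⟩ := hne
    exact lt_of_le_of_ne (hx ▸ norm_nonneg _) (Ne.symm hc0)
  have hum : Measurable u := by
    apply Measurable.ite
    · exact hf.norm (measurableSet_singleton c)
    · exact (Complex.continuous_conj.measurable.comp hf).div_const _
    · exact measurable_const
  have hu1 : ∀ x, ‖u x‖ = 1 := by
    intro x
    rw [hu]
    simp only
    split_ifs with h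
    · rw [norm_div, Complex.norm_conj, h, Complex.norm_real, Real.norm_of_nonneg hcpos.le, div_self hc0]
    · simp
  have hueq : ∀ᵐ x : Circ, u x = conj (f x) / (c : ℂ) := by
    filter_upwards [hc] with x hx
    rw [hu]
    simp only
    rw [if_pos (by simpa using hx)]
  have hshift := ae_shift hueq (γ : Circ)
  have hcc := ae_shift hc (γ : Circ)
  have hcne : (c : ℂ) ≠ 0 := by exact_mod_cast hc0
  have hco : ∀ᵐ x : Circ, ex (s * rr D x) = u (x + (γ : Circ)) * conj (u x) := by
    filter_upwards [hfix, hueq, hshift, hcc] with x e1 e2 e3 e4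
    rw [e2, e3, map_div₀, Complex.conj_conj, Complex.conj_ofReal, ← e1]
    have e5 : conj (f (x + (γ : Circ))) * f (x + (γ : Circ)) = (c : ℂ) ^ 2 := by
      rw [mul_comm, Complex.mul_conj, Complex.normSq_eq_norm_sq]
      have : ‖f (x + (γ : Circ))‖ = c := by simpa using e4
      rw [this]; push_cast; rfl
    rw [div_mul_div_comm]
    rw [eq_div_iff (by positivity)]
    linear_combination (-ex (s * rr D x)) * e5
  set ω : ℝ := s * (1 - D) / kap D with hω
  set τ : ℝ := s * (2 * D - 1) / kap D with hτ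
  have hsplit : ∀ x : Circ, ex (s * rr D x) = ex ω * ex (τ * NN D x) := fun x => by
    rw [rr_NN h0 h1, ex_add]
  have hτ1 : ex τ = 1 := by
    refine hNC τ (ex ω) u (norm_ex ω) hum hu1 ?_
    filter_upwards [hco] with x hx
    rw [← hsplit, hx]
  have hco2 : ∀ᵐ x : Circ, u (x + (γ : Circ)) = ex ω * u x := by
    filter_upwards [hco] with x hx
    have hN : ex (τ * NN D x) = 1 := by
      rw [NN_eq_ite x h0 h1]
      split_ifs
      · rw [mul_one, hτ1]
      · rw [mul_zero, ex_zero]
    rw [hsplit, hN, mul_one] at hx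
    rw [hx, mul_assoc]
    have := mul_conj_one (hu1 x)
    rw [mul_comm (u x)] at this
    rw [this, mul_one]
  have hint : ∫ x : Circ, u x = ex ω * ∫ x : Circ, u x := by
    conv_lhs => rw [← integral_add_right_eq_self u (γ : Circ)]
    rw [integral_congr_ae hco2, integral_const_mul]
  have hu0 : ∫ x : Circ, u x = 0 := by
    by_contra hne
    have hω1 : ex ω = 1 := by
      have : (1 - ex ω) * ∫ x : Circ, u x = 0 := by linear_combination hint
      rcases mul_eq_zero.1 this with h | h
      · exact (sub_eq_zero.1 h).symm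
      · exact absurd h hne
    obtain ⟨m, hm⟩ := ex_eq_one hω1
    obtain ⟨n, hn⟩ := ex_eq_one hτ1
    have h2 : s / kap D = n + 2 * m := by
      rw [← hm, ← hn, hω, hτ]; field_simp; ring
    have h3 : (n : ℝ) + 2 * m ≠ 0 := by
      rw [← h2]; exact div_ne_zero hs hk.ne'
    apply hD
    refine ⟨(n + m : ℚ) / (n + 2 * m), ?_⟩
    push_cast
    rw [div_eq_iff h3, ← h2, ← hm, ← hn, hω, hτ]
    field_simp
    ring
  have hfu : ∀ᵐ x : Circ, f x = (c : ℂ) * conj (u x) := by
    filter_upwards [hueq] with x hx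
    rw [hx, map_div₀, Complex.conj_conj, Complex.conj_ofReal]
    field_simp
  rw [integral_congr_ae hfu, integral_const_mul, integral_conj, hu0]
  simp

end Pool.Agent.KS6_58.KD
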