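import Mathlib
import Pool.Agent.KS6_58.KD.E1

set_option autoImplicit false

open MeasureTheory Filter Topology Set
open scoped ComplexConjugate Real InnerProductSpace

namespace Pool.Agent.KS6_58.KD

open Pool.Agent.H382R3.KD

/-- the Hilbert space -/
abbrev L2C : Type := Lp ℂ 2 (volume : Measure Circ)

lemma measurable_cf (s D : ℝ) : Measurable (fun x : Circ => ex (s * rr D x)) :=
  continuous_ex.measurable.comp ((measurable_rr D).const_mul s)

lemma memU (s D : ℝ) (a : Circ) (f : L2C) :
    MemLp (fun x : Circ => ex (s * rr D x) * f (x + a)) 2 (volume : Measure Circ) := by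
  have h1 : MemLp (fun x : Circ => f (x + a)) 2 (volume : Measure Circ) :=
    (Lp.memLp f).comp_measurePreserving (measurePreserving_add_right _ a)
  refine h1.congr_norm ((measurable_cf s D).aestronglyMeasurable.mul h1.aestronglyMeasurable) ?_
  refine Eventually.of_forall (fun x => ?_)
  rw [norm_mul, norm_ex, one_mul]

lemma shift_ae_eq {f g : Circ → ℂ} (h : f =ᵐ[volume] g) (a : Circ) :
    ∀ᵐ x : Circ, f (x + a) = g (x + a) := ae_shift (P := fun x => f x = g x) h a

/-- the weighted rotation as a linear map -/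
noncomputable def opUl (s D : ℝ) (a : Circ) : L2C →ₗ[ℂ] L2C where
  toFun f := (memU s D a f).toLp _
  map_add' f g := by
    apply Lp.ext
    have e1 := (memU s D a (f + g)).coeFn_toLp
    have e2 := (memU s D a f).coeFn_toLp
    have e3 := (memU s D a g).coeFn_toLp
    have e4 := Lp.coeFn_add ((memU s D a f).toLp _) ((memU s D a g).toLp _)
    have e5 := shift_ae_eq (Lp.coeFn_add f g) a
    filter_upwards [e1, e2, e3, e4, e5] with x h1 h2 h3 h4 h5
    rw [h1, h4, Pi.add_apply, h2, h3, h5, Pi.add_apply]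
    ring
  map_smul' c f := by
    apply Lp.ext
    have e1 := (memU s D a (c • f)).coeFn_toLp
    have e2 := (memU s D a f).coeFn_toLp
    have e4 := Lp.coeFn_smul c ((memU s D a f).toLp _)
    have e5 := shift_ae_eq (Lp.coeFn_smul c f) a
    filter_upwards [e1, e2, e4, e5] with x h1 h2 h4 h5
    simp only [RingHom.id_apply]
    rw [h1, h4, Pi.smul_apply, h2, h5, Pi.smul_apply]
    simp only [smul_eq_mul]
    ring

lemma norm_opUl (s D : ℝ) (a : Circ) (f : L2C) : ‖opUl s D a f‖ = ‖f‖ := by
  show ‖(memU s D a f).toLp _‖ = ‖f‖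
  rw [Lp.norm_toLp, Lp.norm_def]
  congr 1
  rw [eLpNorm_congr_norm_ae (g := fun x : Circ => f (x + a)) (Eventually.of_forall (fun x => by
    rw [norm_mul, norm_ex, one_mul]))]
  exact eLpNorm_comp_measurePreserving (Lp.aestronglyMeasurable f) (measurePreserving_add_right _ a)

/-- the weighted rotation -/
noncomputable def opU (s D : ℝ) (a : Circ) : L2C →L[ℂ] L2C :=
  (opUl s D a).mkContinuous 1 (fun f => by rw [norm_opUl, one_mul])

lemma opU_norm (s D : ℝ) (a : Circ) : ‖opU s D a‖ ≤ 1 :=
  LinearMap.mkContinuous_norm_le _ zero_le_one _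

lemma opU_coe (s D : ℝ) (a : Circ) (f : L2C) :
    (opU s D a f : Circ → ℂ) =ᵐ[volume] fun x => ex (s * rr D x) * f (x + a) :=
  (memU s D a f).coeFn_toLp

/-- the constant function -/
noncomputable def one2 : L2C := Lp.const 2 (volume : Measure Circ) (1 : ℂ)

lemma one2_coe : (one2 : Circ → ℂ) =ᵐ[volume] fun _ => 1 := by
  unfold one2
  exact Lp.coeFn_const 2 volume (1 : ℂ)

lemma iter_coe (s D : ℝ) (a : Circ) (n : ℕ) :
    (((opU s D a)^[n] one2 : L2C) : Circ → ℂ) =ᵐ[volume] fun x => ex (s * FF D a n x) := by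
  induction n with
  | zero =>
    refine one2_coe.trans (Eventually.of_forall (fun x => ?_))
    simp [FF_zero, ex_zero]
  | succ n ih =>
    rw [Function.iterate_succ_apply']
    refine (opU_coe s D a _).trans ?_
    filter_upwards [shift_ae_eq ih a] with x hx
    rw [hx, ← ex_add, ← mul_add]
    congr 2
    have h1 := FF_add D a 1 n x
    rw [one_smul] at h1
    rw [FF_one] at h1
    push_cast
    rw [add_comm (n : ℤ) 1]
    linarith

lemma sum_coe {ι : Type*} (t : Finset ι) (f : ι → L2C) :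
    ((∑ i ∈ t, f i : L2C) : Circ → ℂ) =ᵐ[volume] fun x => ∑ i ∈ t, (f i : Circ → ℂ) x := by
  classical
  induction t using Finset.induction_on with
  | empty =>
    simp only [Finset.sum_empty]
    exact Lp.coeFn_zero ℂ 2 volume
  | insert i t hi ih =>
    rw [Finset.sum_insert hi]
    filter_upwards [Lp.coeFn_add (f i) (∑ i ∈ t, f i), ih] with x h1 h2
    rw [h1, Pi.add_apply, h2, Finset.sum_insert hi]

/-- averages -/
noncomputable def AvN (s D : ℝ) (a : Circ) (N : ℕ) (x : Circ) : ℂ :=
  (N : ℂ)⁻¹ * ∑ k ∈ Finset.range N, ex (s * FF D a k x)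

lemma measurable_AvN (s D : ℝ) (a : Circ) (N : ℕ) : Measurable (AvN s D a N) := by
  unfold AvN
  apply Measurable.const_mul
  exact Finset.measurable_fun_sum _ (fun k _ => continuous_ex.measurable.comp ((measurable_FF D a k).const_mul s))

lemma norm_AvN_le (s D : ℝ) (a : Circ) (N : ℕ) (x : Circ) : ‖AvN s D a N x‖ ≤ 1 := by
  unfold AvN
  rw [norm_mul, norm_inv, Complex.norm_natCast]
  have h1 : ‖∑ k ∈ Finset.range N, ex (s * FF D a k x)‖ ≤ N := by
    refine (norm_sum_le _ _).trans ?_
    simp [norm_ex]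
  rcases Nat.eq_zero_or_pos N with h | h
  · subst h; simp
  · have hN : (0 : ℝ) < N := by exact_mod_cast h
    rw [inv_mul_le_iff₀ hN, mul_one]
    exact h1

lemma birk_coe (s D : ℝ) (a : Circ) (N : ℕ) :
    ((birkhoffAverage ℂ (opU s D a) _root_.id N one2 : L2C) : Circ → ℂ) =ᵐ[volume] AvN s D a N := by
  unfold birkhoffAverage birkhoffSum
  have h1 := Lp.coeFn_smul (N : ℂ)⁻¹ (∑ k ∈ Finset.range N, _root_.id ((opU s D a)^[k] one2))
  have h2 := sum_coe (Finset.range N) (fun k => _root_.id ((opU s D a)^[k] one2))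
  have h3 : ∀ᵐ x : Circ, ∀ k : ℕ, (((opU s D a)^[k] one2 : L2C) : Circ → ℂ) x = ex (s * FF D a k x) := by
    rw [ae_all_iff]
    exact fun k => iter_coe s D a k
  filter_upwards [h1, h2, h3] with x e1 e2 e3
  rw [e1, Pi.smul_apply, e2, smul_eq_mul]
  unfold AvN
  congr 1
  refine Finset.sum_congr rfl (fun k _ => ?_)
  exact e3 k

lemma integral_norm_le {f : Circ → ℂ} (hf : MemLp f 2 (volume : Measure Circ)) :
    ∫ x : Circ, ‖f x‖ ≤ ‖hf.toLp f‖ := by
  rw [Lp.norm_toLp]
  have h1 : eLpNorm f 1 (volume : Measure Circ) ≤ eLpNorm f 2 (volume : Measure Circ) := by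
    have : IsProbabilityMeasure (volume : Measure Circ) := ⟨vol_univ⟩
    exact eLpNorm_le_eLpNorm_of_exponent_le (by norm_num) hf.aestronglyMeasurable
  have h2 : ∫ x : Circ, ‖f x‖ = (eLpNorm f 1 (volume : Measure Circ)).toReal := by
    rw [eLpNorm_one_eq_lintegral_enorm]
    exact integral_norm_eq_lintegral_enorm hf.aestronglyMeasurable
  rw [h2]
  exact ENNReal.toReal_mono hf.eLpNorm_ne_top h1

theorem cesaro {D γ s : ℝ} (h0 : 0 < D) (h1 : D < 1) (hγ : Irrational γ) (hNC : NC D γ)
    (hD : Irrational D) (hs : s ≠ 0) :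
    Tendsto (fun N : ℕ => ∫ x : Circ, ‖AvN s D (γ : Circ) N x‖) atTop (𝓝 0) := by
  have hme := (opU s D (γ : Circ)).tendsto_birkhoffAverage_orthogonalProjection
    (opU_norm s D (γ : Circ)) one2
  have hproj : (((opU s D (γ : Circ)).eqLocus (1 : L2C →L[ℂ] L2C)).orthogonalProjectionOnto one2) = 0 := by
    rw [Submodule.orthogonalProjectionOnto_eq_zero_iff, Submodule.mem_orthogonal]
    intro f hf
    have hfe : opU s D (γ : Circ) f = f := hf
    rw [L2.inner_def]
    -- measurable representative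
    have hfm := (Lp.aestronglyMeasurable f)
    set g : Circ → ℂ := hfm.mk f with hg
    have hgm : Measurable g := hfm.stronglyMeasurable_mk.measurable
    have hfg : (f : Circ → ℂ) =ᵐ[volume] g := hfm.ae_eq_mk
    have hfix : ∀ᵐ x : Circ, ex (s * rr D x) * g (x + (γ : Circ)) = g x := by
      have e1 := opU_coe s D (γ : Circ) f
      rw [hfe] at e1
      filter_upwards [e1, hfg, shift_ae_eq hfg (γ : Circ)] with x h1 h2 h3
      rw [← h3, ← h2, h1]
    have hz := fixed_integral h0 h1 hγ hNC hD hs hgm hfix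
    have : ∀ᵐ x : Circ, ⟪(f : Circ → ℂ) x, (one2 : Circ → ℂ) x⟫_ℂ = conj (g x) := by
      filter_upwards [hfg, one2_coe] with x h1 h2
      rw [h1, h2]
      simp
    rw [integral_congr_ae this, integral_conj, hz, map_zero]
  rw [hproj] at hme
  have hme2 : Tendsto (fun N : ℕ => ‖birkhoffAverage ℂ (opU s D (γ : Circ)) _root_.id N one2‖) atTop (𝓝 0) := by
    have := hme.norm
    simpa using this
  refine squeeze_zero (fun N => integral_nonneg (fun _ => norm_nonneg _)) (fun N => ?_) hme2
  have hb := birk_coe s D (γ : Circ) N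
  set F : L2C := birkhoffAverage ℂ (opU s D (γ : Circ)) _root_.id N one2 with hF
  have hmem := Lp.memLp F
  have h2 := integral_norm_le hmem
  rw [Lp.toLp_coeFn] at h2
  refine le_trans (le_of_eq ?_) h2
  apply integral_congr_ae
  filter_upwards [hb] with x hx
  rw [hx]

end Pool.Agent.KS6_58.KD
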