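import Mathlib
import Pool.Agent.KS6_58.KD.E2

set_option autoImplicit false

open MeasureTheory Filter Topology Set
open scoped ComplexConjugate Real InnerProductSpace

namespace Pool.Agent.KS6_58.KD

open Pool.Agent.H382R3.KD

lemma approx_iter {s D : ℝ} {a : Circ} {v : Circ → ℂ} {ε : ℝ}
    (hv : ∀ x, ‖ex (s * rr D x) * v (x + a) - v x‖ ≤ ε) (k : ℕ) (x : Circ) :
    ‖ex (s * FF D a k x) * v (x + k • a) - v x‖ ≤ k * ε := by
  induction k with
  | zero => simp [FF_zero, ex_zero]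
  | succ k ih =>
    have e1 : FF D a ((k + 1 : ℕ) : ℤ) x = FF D a k x + rr D (x + k • a) := by
      have := FF_succ D a k x
      rw [natCast_zsmul] at this
      push_cast
      exact this
    have e2 : x + (k + 1) • a = x + k • a + a := by rw [succ_nsmul, ← add_assoc]
    rw [e1, e2, mul_add, ex_add]
    have e3 : ex (s * FF D a k x) * ex (s * rr D (x + k • a)) * v (x + k • a + a) - v x =
        ex (s * FF D a k x) * (ex (s * rr D (x + k • a)) * v (x + k • a + a) - v (x + k • a)) +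
        (ex (s * FF D a k x) * v (x + k • a) - v x) := by ring
    rw [e3]
    refine (norm_add_le _ _).trans ?_
    rw [norm_mul, norm_ex, one_mul]
    push_cast
    have := hv (x + k • a)
    linarith

/-- an approximate eigenfunction has small mean -/
lemma approx_fixed {s D : ℝ} {a : Circ} {v : Circ → ℂ} (hvm : Measurable v) {C ε : ℝ}
    (hC : ∀ x, ‖v x‖ ≤ C) (hv : ∀ x, ‖ex (s * rr D x) * v (x + a) - v x‖ ≤ ε) {N : ℕ} (hN : 0 < N) :
    ‖∫ x : Circ, v x‖ ≤ C * (∫ x : Circ, ‖AvN s D a N x‖) + N * ε := by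
  have hε : 0 ≤ ε := (norm_nonneg _).trans (hv 0)
  have hC0 : 0 ≤ C := (norm_nonneg _).trans (hC 0)
  have hNR : (0 : ℝ) < N := by exact_mod_cast hN
  have hvi : Integrable v := integrable_of_bddC hvm hC
  have hexm : ∀ k : ℕ, Measurable (fun x : Circ => ex (-(s * FF D a k x))) := fun k =>
    continuous_ex.measurable.comp ((measurable_FF D a k).const_mul s).neg
  have hi2 : ∀ k : ℕ, Integrable (fun x : Circ => ex (-(s * FF D a k x)) * v x) := fun k =>
    integrable_of_bddC ((hexm k).mul hvm) (B := C) (fun x => by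
      rw [norm_mul, norm_ex, one_mul]; exact hC x)
  have hk : ∀ k ∈ Finset.range N, ‖(∫ x : Circ, v x) - ∫ x : Circ, ex (-(s * FF D a k x)) * v x‖ ≤ N * ε := by
    intro k hk
    have hkN : (k : ℝ) ≤ N := by exact_mod_cast (Finset.mem_range.1 hk).le
    have e1 : ∫ x : Circ, v x = ∫ x : Circ, v (x + k • a) := (integral_add_right_eq_self v (k • a)).symm
    have hi3 : Integrable (fun x : Circ => v (x + k • a)) := hvi.comp_add_right (k • a)
    rw [e1, ← integral_sub hi3 (hi2 k)]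
    have hb : ∀ x : Circ, ‖v (x + k • a) - ex (-(s * FF D a k x)) * v x‖ ≤ N * ε := by
      intro x
      have h1 := approx_iter hv k x
      have e2 : v (x + k • a) - ex (-(s * FF D a k x)) * v x =
          ex (-(s * FF D a k x)) * (ex (s * FF D a k x) * v (x + k • a) - v x) := by
        rw [mul_sub, ← mul_assoc, ← ex_add]
        simp [ex_zero]
      rw [e2, norm_mul, norm_ex, one_mul]
      refine h1.trans ?_
      exact mul_le_mul_of_nonneg_right hkN hε
    have := norm_integral_le_of_norm_le_const (μ := (volume : Measure Circ)) (Eventually.of_forall hb)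
    simpa [Measure.real] using this
  have havg : (∫ x : Circ, v x) - ∫ x : Circ, conj (AvN s D a N x) * v x =
      (N : ℂ)⁻¹ * ∑ k ∈ Finset.range N, ((∫ x : Circ, v x) - ∫ x : Circ, ex (-(s * FF D a k x)) * v x) := by
    have e1 : ∀ x : Circ, conj (AvN s D a N x) * v x =
        (N : ℂ)⁻¹ * ∑ k ∈ Finset.range N, ex (-(s * FF D a k x)) * v x := by
      intro x
      unfold AvN
      rw [map_mul, map_inv₀, Complex.conj_natCast, map_sum]
      simp_rw [conj_ex]
      rw [mul_assoc, Finset.sum_mul]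
    simp_rw [e1]
    rw [integral_const_mul, integral_finsetSum _ (fun k _ => hi2 k), Finset.sum_sub_distrib]
    rw [Finset.sum_const, Finset.card_range, nsmul_eq_mul, mul_sub, ← mul_assoc]
    have : (N : ℂ) ≠ 0 := by exact_mod_cast hN.ne'
    rw [inv_mul_cancel₀ this, one_mul]
  have h1 : ‖(∫ x : Circ, v x) - ∫ x : Circ, conj (AvN s D a N x) * v x‖ ≤ N * ε := by
    rw [havg, norm_mul, norm_inv, Complex.norm_natCast, inv_mul_le_iff₀ hNR]
    refine (norm_sum_le _ _).trans ((Finset.sum_le_sum hk).trans ?_)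
    rw [Finset.sum_const, Finset.card_range, nsmul_eq_mul]
  have h2 : ‖∫ x : Circ, conj (AvN s D a N x) * v x‖ ≤ C * (∫ x : Circ, ‖AvN s D a N x‖) := by
    rw [← integral_const_mul]
    apply norm_integral_le_of_norm_le
    · apply Integrable.const_mul
      exact (integrable_of_bddC (measurable_AvN s D a N) (norm_AvN_le s D a N)).norm
    · refine Eventually.of_forall (fun x => ?_)
      rw [norm_mul, Complex.norm_conj, mul_comm]
      exact mul_le_mul_of_nonneg_right (hC x) (norm_nonneg _)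
  calc ‖∫ x : Circ, v x‖ = ‖((∫ x : Circ, v x) - ∫ x : Circ, conj (AvN s D a N x) * v x) +
        ∫ x : Circ, conj (AvN s D a N x) * v x‖ := by congr 1; ring
    _ ≤ _ := norm_add_le _ _
    _ ≤ _ := by linarith

/-! ### sums of the weights -/

lemma sum_half {δ n : ℝ} (hδ : 0 < δ) (hn : 0 < n) (M : ℕ) :
    ∑ m ∈ Finset.range (M + 1), n ^ 2 / (n + δ * m) ^ 2 ≤ 1 + n / δ - n ^ 2 / (δ * (n + δ * M)) := by
  induction M with
  | zero =>
    simp
    have : n ^ 2 / (δ * n) = n / δ := by field_simp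
    rw [this, div_self (by positivity)]; linarith
  | succ M ih =>
    rw [Finset.sum_range_succ]
    have e1 : n ^ 2 / (n + δ * ((M + 1 : ℕ) : ℝ)) ^ 2 ≤
        n ^ 2 / (δ * (n + δ * M)) - n ^ 2 / (δ * (n + δ * ((M + 1 : ℕ) : ℝ))) := by
      push_cast
      have h1 : 0 < n + δ * M := by positivity
      have h2 : 0 < n + δ * ((M : ℝ) + 1) := by positivity
      have e2 : n ^ 2 / (δ * (n + δ * M)) - n ^ 2 / (δ * (n + δ * ((M : ℝ) + 1))) =
          n ^ 2 / ((n + δ * M) * (n + δ * ((M : ℝ) + 1))) := by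
        field_simp; ring
      rw [e2]
      apply div_le_div_of_nonneg_left (by positivity) (by positivity)
      rw [pow_two]
      apply mul_le_mul_of_nonneg_right _ h2.le
      nlinarith
    linarith

/-- Cauchy weights -/
noncomputable def cw (t : ℝ) : ℝ := 1 / (1 + t ^ 2)

lemma cw_pos (t : ℝ) : 0 < cw t := by unfold cw; positivity

lemma cw_neg (t : ℝ) : cw (-t) = cw t := by unfold cw; rw [neg_sq]

lemma cw_anti {s t : ℝ} (h : |s| ≤ |t|) : cw t ≤ cw s := by
  unfold cw
  apply one_div_le_one_div_of_le (by positivity)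
  have : s ^ 2 ≤ t ^ 2 := sq_le_sq.2 h
  linarith

lemma cw_le {δ n : ℝ} (hδ : 0 < δ) (hn : 0 < n) (m : ℕ) :
    cw (δ * m / n) ≤ 2 * (n ^ 2 / (n + δ * m) ^ 2) := by
  unfold cw
  rw [mul_div_assoc', div_le_div_iff₀ (by positivity) (by positivity)]
  have : (1 + (δ * m / n) ^ 2) * n ^ 2 = n ^ 2 + (δ * m) ^ 2 := by
    field_simp
  nlinarith [sq_nonneg (n - δ * m), this]

lemma sum_cw_half {δ n : ℝ} (hδ : 0 < δ) (hn : 0 < n) (M : ℕ) :
    ∑ m ∈ Finset.range (M + 1), cw (δ * m / n) ≤ 2 * (1 + n / δ) := by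
  refine (Finset.sum_le_sum (fun m _ => cw_le hδ hn m)).trans ?_
  rw [← Finset.mul_sum]
  have h1 := sum_half hδ hn M
  have h2 : 0 ≤ n ^ 2 / (δ * (n + δ * M)) := by positivity
  linarith

lemma sum_cw_finset {δ n : ℝ} (hδ : 0 < δ) (hn : 0 < n) (s : Finset ℤ) :
    ∑ k ∈ s, cw (δ * k / n) ≤ 4 * (1 + n / δ) := by
  obtain ⟨M, hM⟩ : ∃ M : ℕ, s ⊆ Finset.Icc (-(M : ℤ)) M := by
    obtain ⟨M, hM⟩ := (s.image Int.natAbs).bddAbove
    refine ⟨M, fun k hk => ?_⟩
    have : k.natAbs ≤ M := hM (by simpa using ⟨k, hk, rfl⟩)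
    rw [Finset.mem_Icc]; omega
  have h1 : ∑ k ∈ s, cw (δ * k / n) ≤ ∑ k ∈ Finset.Icc (-(M : ℤ)) M, cw (δ * k / n) :=
    Finset.sum_le_sum_of_subset_of_nonneg hM (fun k _ _ => (cw_pos _).le)
  refine h1.trans ?_
  rw [sum_Icc_split (fun k : ℤ => cw (δ * k / n)) M M]
  have h2 := sum_cw_half hδ hn M
  have h3 : ∑ m ∈ Finset.range M, cw (δ * ((-1 - (m : ℤ) : ℤ) : ℝ) / n) ≤
      ∑ m ∈ Finset.range (M + 1), cw (δ * m / n) := by
    rw [Finset.sum_range_succ']
    have : ∀ m ∈ Finset.range M, cw (δ * ((-1 - (m : ℤ) : ℤ) : ℝ) / n) = cw (δ * ((m + 1 : ℕ) : ℝ) / n) := by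
      intro m _
      rw [← cw_neg]
      congr 1
      push_cast; ring
    rw [Finset.sum_congr rfl this]
    have := (cw_pos (δ * ((0 : ℕ) : ℝ) / n)).le
    linarith
  simp only [Int.cast_natCast] at h2 h3 ⊢
  linarith

lemma summable_cw {δ n : ℝ} (hδ : 0 < δ) (hn : 0 < n) : Summable (fun k : ℤ => cw (δ * k / n)) :=
  summable_of_sum_le (fun _ => (cw_pos _).le) (sum_cw_finset hδ hn)

lemma tsum_cw {δ n : ℝ} (hδ : 0 < δ) (hn : 1 ≤ n) :
    ∑' k : ℤ, cw (δ * k / n) ≤ 4 * (1 + 1 / δ) * n := by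
  have hn0 : 0 < n := by linarith
  refine (Summable.tsum_le_of_sum_le (summable_cw hδ hn0) (sum_cw_finset hδ hn0)).trans ?_
  have : 4 * (1 + 1 / δ) * n = 4 * (n + n / δ) := by ring
  rw [this]; linarith

end Pool.Agent.KS6_58.KD
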