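import Mathlib
import Pool.Agent.KS6_58.KD.E3

set_option autoImplicit false

open MeasureTheory Filter Topology Set
open scoped ComplexConjugate Real InnerProductSpace FourierTransform SchwartzMap

namespace Pool.Agent.KS6_58.KD

open Pool.Agent.H382R3.KD

lemma schwartz_cw (f : 𝓢(ℝ, ℂ)) : ∃ C : ℝ, 0 ≤ C ∧ ∀ t, ‖f t‖ ≤ C * cw t := by
  obtain ⟨C, hC, h⟩ := schwartz_wt f
  exact ⟨C, hC, fun t => (h t).trans (mul_le_mul_of_nonneg_left (wt_le t) hC)⟩

lemma cw_peetre {R u ξ : ℝ} (h : |ξ - u| ≤ R) : cw ξ ≤ 2 * (1 + R ^ 2) * cw u := by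
  unfold cw
  rw [mul_one_div, div_le_div_iff₀ (by positivity) (by positivity)]
  have h1 : (ξ - u) ^ 2 ≤ R ^ 2 := by
    rw [← sq_abs (ξ - u)]
    exact pow_le_pow_left₀ (abs_nonneg _) h 2
  have h2 : u ^ 2 ≤ 2 * ξ ^ 2 + 2 * (ξ - u) ^ 2 := by nlinarith [sq_nonneg (ξ + (ξ - u))]
  nlinarith [sq_nonneg ξ, sq_nonneg R, mul_nonneg (sq_nonneg ξ) (sq_nonneg R)]

lemma schwartz_lip (g : 𝓢(ℝ, ℂ)) {R : ℝ} (hR : 0 ≤ R) :
    ∃ K : ℝ, 0 ≤ K ∧ ∀ u r : ℝ, 0 ≤ r → r ≤ R → ‖g (u - r) - g u‖ ≤ K * r * cw u := by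
  obtain ⟨C, hC, h⟩ := schwartz_cw (SchwartzMap.derivCLM ℝ ℂ g)
  refine ⟨C * (2 * (1 + R ^ 2)), by positivity, fun u r hr hrR => ?_⟩
  have hb : ∀ ξ ∈ Metric.closedBall u r, ‖deriv (g : ℝ → ℂ) ξ‖ ≤ C * (2 * (1 + R ^ 2)) * cw u := by
    intro ξ hξ
    rw [Metric.mem_closedBall, Real.dist_eq] at hξ
    have h1 := h ξ
    rw [SchwartzMap.derivCLM_apply] at h1
    refine h1.trans ?_
    rw [mul_assoc]
    exact mul_le_mul_of_nonneg_left (cw_peetre (hξ.trans hrR)) hC
  have := Convex.norm_image_sub_le_of_norm_deriv_le (f := (g : ℝ → ℂ)) (x := u) (y := u - r)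
    (fun ξ _ => g.differentiableAt) hb (convex_closedBall u r) (Metric.mem_closedBall_self hr)
    (by rw [Metric.mem_closedBall, Real.dist_eq]; simp [abs_of_nonneg hr])
  refine this.trans (le_of_eq ?_)
  have e : ‖u - r - u‖ = r := by
    rw [sub_sub_cancel_left, norm_neg, Real.norm_of_nonneg hr]
  rw [e]; ring

/-- smoothed exponential sums -/
noncomputable def vT (g : ℝ → ℂ) (s D : ℝ) (a : Circ) (n : ℕ) (x : Circ) : ℂ :=
  (n : ℂ)⁻¹ * ∑' k : ℤ, g (FF D a k x / n) * ex (s * FF D a k x)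

section

variable {s D : ℝ} (h0 : 0 < D) (h1 : D < 1) (a : Circ) {n : ℕ} (hn : 0 < n)

include h0 h1 in
lemma cw_FF (k : ℤ) (x : Circ) (n : ℕ) : cw (FF D a k x / n) ≤ cw (del D * k / n) := by
  apply cw_anti
  rw [abs_div, abs_div, abs_mul, abs_of_pos (del_pos h0 h1)]
  gcongr
  exact FF_ge h0 h1 a k x

include h0 h1 hn

lemma summable_term {g : ℝ → ℂ} {C : ℝ} (hg : ∀ t, ‖g t‖ ≤ C * cw t) (hC : 0 ≤ C) (x : Circ) :
    Summable (fun k : ℤ => g (FF D a k x / n) * ex (s * FF D a k x)) := by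
  have hnR : (0 : ℝ) < n := by exact_mod_cast hn
  refine Summable.of_norm_bounded ((summable_cw (del_pos h0 h1) hnR).mul_left C) (fun k => ?_)
  rw [norm_mul, norm_ex, mul_one]
  exact (hg _).trans (mul_le_mul_of_nonneg_left (cw_FF h0 h1 a k x n) hC)

lemma norm_vT {g : ℝ → ℂ} {C : ℝ} (hg : ∀ t, ‖g t‖ ≤ C * cw t) (hC : 0 ≤ C) (x : Circ) :
    ‖vT g s D a n x‖ ≤ C * (4 * (1 + 1 / del D)) := by
  have hnR : (0 : ℝ) < n := by exact_mod_cast hn
  have hn1 : (1 : ℝ) ≤ n := by exact_mod_cast hn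
  unfold vT
  rw [norm_mul, norm_inv, Complex.norm_natCast, inv_mul_le_iff₀ hnR]
  have h2 : ‖∑' k : ℤ, g (FF D a k x / n) * ex (s * FF D a k x)‖ ≤ ∑' k : ℤ, C * cw (del D * k / n) := by
    apply tsum_of_norm_bounded ((summable_cw (del_pos h0 h1) hnR).mul_left C).hasSum
    intro k
    rw [norm_mul, norm_ex, mul_one]
    exact (hg _).trans (mul_le_mul_of_nonneg_left (cw_FF h0 h1 a k x n) hC)
  refine h2.trans ?_
  rw [tsum_mul_left]
  have h3 := tsum_cw (del_pos h0 h1) hn1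
  calc C * ∑' k : ℤ, cw (del D * k / n) ≤ C * (4 * (1 + 1 / del D) * n) :=
        mul_le_mul_of_nonneg_left h3 hC
    _ = _ := by ring

lemma vT_approx {g : ℝ → ℂ} {C : ℝ} (hg : ∀ t, ‖g t‖ ≤ C * cw t) (hC : 0 ≤ C) {K : ℝ} (hK : 0 ≤ K)
    (hlip : ∀ u r : ℝ, 0 ≤ r → r ≤ 1 / kap D → ‖g (u - r) - g u‖ ≤ K * r * cw u) (x : Circ) :
    ‖ex (s * rr D x) * vT g s D a n (x + a) - vT g s D a n x‖ ≤
      K * (1 / kap D) * (4 * (1 + 1 / del D)) / n := by
  have hk := kap_pos h0
  have hnR : (0 : ℝ) < n := by exact_mod_cast hn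
  have hn1 : (1 : ℝ) ≤ n := by exact_mod_cast hn
  set G : ℤ → ℂ := fun k => g ((FF D a k x - rr D x) / n) * ex (s * FF D a k x) with hG
  have hrr := rr_pos h0 h1 x
  have hrr2 := rr_le h0 h1 x
  have e1 : ex (s * rr D x) * vT g s D a n (x + a) = (n : ℂ)⁻¹ * ∑' k : ℤ, G k := by
    unfold vT
    rw [mul_left_comm, ← tsum_mul_left, ← (Equiv.addRight (1 : ℤ)).tsum_eq G]
    congr 2
    funext k
    have h2 := FF_add D a 1 k x
    rw [one_smul, FF_one] at h2
    simp only [hG, Equiv.coe_addRight]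
    rw [add_comm k 1]
    have h3 : FF D a (1 + k) x = FF D a k (x + a) + rr D x := by linarith
    rw [h3, add_sub_cancel_right, mul_add, ex_add]
    ring
  have hsum1 : Summable G := by
    have h2 := summable_term (s := s) h0 h1 a hn hg hC (x + a)
    have h3 : Summable (fun k : ℤ => ex (s * rr D x) * (g (FF D a k (x + a) / n) * ex (s * FF D a k (x + a)))) :=
      h2.mul_left _
    have h4 : (fun k : ℤ => ex (s * rr D x) * (g (FF D a k (x + a) / n) * ex (s * FF D a k (x + a)))) =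
        G ∘ (Equiv.addRight (1 : ℤ)) := by
      funext k
      have h2 := FF_add D a 1 k x
      rw [one_smul, FF_one] at h2
      simp only [hG, Function.comp, Equiv.coe_addRight]
      rw [add_comm k 1]
      have h3 : FF D a (1 + k) x = FF D a k (x + a) + rr D x := by linarith
      rw [h3, add_sub_cancel_right, mul_add, ex_add]
      ring
    rw [h4] at h3
    exact (Equiv.summable_iff _).1 h3
  have hsum2 := summable_term (s := s) h0 h1 a hn hg hC x
  rw [e1]
  unfold vT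
  rw [← mul_sub, ← hsum1.tsum_sub hsum2, norm_mul, norm_inv, Complex.norm_natCast, inv_mul_le_iff₀ hnR]
  have h2 : ‖∑' k : ℤ, (G k - g (FF D a k x / n) * ex (s * FF D a k x))‖ ≤
      ∑' k : ℤ, (K * (1 / kap D / n)) * cw (del D * k / n) := by
    apply tsum_of_norm_bounded ((summable_cw (del_pos h0 h1) hnR).mul_left _).hasSum
    intro k
    rw [hG]
    simp only
    rw [← sub_mul, norm_mul, norm_ex, mul_one, sub_div]
    refine (hlip (FF D a k x / n) (rr D x / n) (by positivity) ?_).trans ?_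
    · refine le_trans ?_ hrr2
      exact div_le_self hrr.le hn1
    · apply mul_le_mul _ (cw_FF h0 h1 a k x n) (cw_pos _).le (by positivity)
      apply mul_le_mul_of_nonneg_left _ hK
      gcongr
  refine h2.trans ?_
  rw [tsum_mul_left]
  have h3 := tsum_cw (del_pos h0 h1) hn1
  calc (K * (1 / kap D / n)) * ∑' k : ℤ, cw (del D * k / n)
      ≤ (K * (1 / kap D / n)) * (4 * (1 + 1 / del D) * n) :=
        mul_le_mul_of_nonneg_left h3 (by positivity)
    _ = _ := by field_simp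

omit h0 h1 hn in
lemma measurable_vT {g : ℝ → ℂ} (hgm : Measurable g) (a : Circ) (n : ℕ) : Measurable (vT g s D a n) := by
  unfold vT
  apply Measurable.const_mul
  apply Measurable.tsum
  intro k
  exact (hgm.comp ((measurable_FF D a k).div_const _)).mul
    (continuous_ex.measurable.comp ((measurable_FF D a k).const_mul s))

lemma integral_vT {g : ℝ → ℂ} (hgm : Measurable g) {C : ℝ} (hg : ∀ t, ‖g t‖ ≤ C * cw t) (hC : 0 ≤ C) :
    ∫ x : Circ, vT g s D a n x = (n : ℂ)⁻¹ * ∑' k : ℤ, ∫ x : Circ, g (FF D a k x / n) * ex (s * FF D a k x) := by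
  have hnR : (0 : ℝ) < n := by exact_mod_cast hn
  unfold vT
  rw [integral_const_mul]
  congr 1
  symm
  have hmeas : ∀ k : ℤ, Measurable (fun x : Circ => g (FF D a k x / n) * ex (s * FF D a k x)) := fun k =>
    (hgm.comp ((measurable_FF D a k).div_const _)).mul
      (continuous_ex.measurable.comp ((measurable_FF D a k).const_mul s))
  have hb : ∀ (k : ℤ) (x : Circ), ‖g (FF D a k x / n) * ex (s * FF D a k x)‖ ≤ C * cw (del D * k / n) := by
    intro k x
    rw [norm_mul, norm_ex, mul_one]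
    exact (hg _).trans (mul_le_mul_of_nonneg_left (cw_FF h0 h1 a k x n) hC)
  apply integral_tsum_of_summable_integral_norm
  · intro k
    exact integrable_of_bddC (hmeas k) (hb k)
  · refine Summable.of_nonneg_of_le (fun k => integral_nonneg (fun _ => norm_nonneg _)) (fun k => ?_)
      ((summable_cw (del_pos h0 h1) hnR).mul_left C)
    calc ∫ x : Circ, ‖g (FF D a k x / n) * ex (s * FF D a k x)‖
        ≤ ∫ _x : Circ, C * cw (del D * k / n) := by
          apply integral_mono_of_nonneg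
          · exact Eventually.of_forall (fun _ => norm_nonneg _)
          · exact integrable_const _
          · exact Eventually.of_forall (hb k)
      _ = _ := by simp [Measure.real]

end

end Pool.Agent.KS6_58.KD
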