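import Mathlib
import Pool.Agent.KS6_58.KD.E4

set_option autoImplicit false

open MeasureTheory Filter Topology Set
open scoped ComplexConjugate Real InnerProductSpace FourierTransform SchwartzMap ContDiff

namespace Pool.Agent.KS6_58.KD

open Pool.Agent.H382R3.KD

/-- the bump as a Schwartz function -/
noncomputable def bS : 𝓢(ℝ, ℂ) := bmp_hc.toSchwartzMap bmp_cd

lemma bS_apply (x : ℝ) : bS x = ((bmp x : ℝ) : ℂ) := rfl

lemma bmp_zero' {x : ℝ} (hx : 2 ≤ |x|) : bmp x = 0 := by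
  apply bmp.zero_of_le_dist
  rw [Real.dist_eq, sub_zero]
  exact hx

lemma norm_bS_le (x : ℝ) : ‖bS x‖ ≤ 1 := by
  rw [bS_apply, Complex.norm_real, Real.norm_of_nonneg bmp.nonneg]
  exact bmp.le_one

/-- rescaled bumps -/
lemma exists_fn (s : ℝ) {n : ℕ} (hn : 0 < n) : ∃ f : 𝓢(ℝ, ℂ), (∀ ξ, f ξ = ((bmp ((n : ℝ) * (ξ - s)) : ℝ) : ℂ)) := by
  have hnR : (n : ℝ) ≠ 0 := by exact_mod_cast hn.ne'
  have hc : HasCompactSupport (fun ξ : ℝ => ((bmp ((n : ℝ) * (ξ - s)) : ℝ) : ℂ)) :=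
    bmp_hc.comp_homeomorph ((Homeomorph.subRight s).trans (Homeomorph.mulLeft₀ (n : ℝ) hnR))
  have hd : ContDiff ℝ ∞ (fun ξ : ℝ => ((bmp ((n : ℝ) * (ξ - s)) : ℝ) : ℂ)) := by
    have h2 : ContDiff ℝ ∞ (fun ξ : ℝ => (n : ℝ) * (ξ - s)) := by fun_prop
    exact bmp_cd.comp h2
  exact ⟨hc.toSchwartzMap hd, fun ξ => rfl⟩

lemma fourier_fn {s : ℝ} {n : ℕ} (hn : 0 < n) {f : 𝓢(ℝ, ℂ)}
    (hf : ∀ ξ, f ξ = ((bmp ((n : ℝ) * (ξ - s)) : ℝ) : ℂ)) (t : ℝ) :
    (𝓕 f : 𝓢(ℝ, ℂ)) t = (n : ℂ)⁻¹ * ((𝓕 bS : 𝓢(ℝ, ℂ)) (t / n) * ex (s * t)) := by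
  have hnR : (n : ℝ) ≠ 0 := by exact_mod_cast hn.ne'
  have hnp : (0 : ℝ) < n := by exact_mod_cast hn
  rw [← four_eq, ← four_eq]
  set F : ℝ → ℂ := fun y => bS y * ex ((s + y / n) * t) with hF
  have e1 : (fun ξ : ℝ => f ξ * ex (ξ * t)) = fun ξ : ℝ => (fun z : ℝ => F ((n : ℝ) * z)) (ξ - s) := by
    funext ξ
    simp only [hF]
    rw [hf, bS_apply]
    congr 2
    field_simp
    ring
  rw [e1, integral_sub_right_eq_self (fun z : ℝ => F ((n : ℝ) * z)) s, Measure.integral_comp_mul_left,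
    abs_of_pos (by positivity)]
  have e2 : ∫ y : ℝ, F y = (∫ y : ℝ, bS y * ex (y * (t / n))) * ex (s * t) := by
    rw [← integral_mul_const]
    congr 1
    funext y
    simp only [hF]
    have : (s + y / n) * t = y * (t / n) + s * t := by field_simp; ring
    rw [this, ex_add]; ring
  rw [e2, Complex.real_smul]
  push_cast
  rfl

lemma integral_fn {D : ℝ} (h0 : 0 < D) (h1 : D < 1) (a : Circ) {s : ℝ} {n : ℕ} (hn : 0 < n) {f : 𝓢(ℝ, ℂ)}
    (hf : ∀ ξ, f ξ = ((bmp ((n : ℝ) * (ξ - s)) : ℝ) : ℂ)) :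
    ∫ x, (𝓕 f : 𝓢(ℝ, ℂ)) x ∂(eta D a) =
      (1 / kap D : ℂ) * ∫ x : Circ, vT (𝓕 bS : 𝓢(ℝ, ℂ)) s D a n x := by
  obtain ⟨C, hC, hb⟩ := schwartz_cw (𝓕 bS : 𝓢(ℝ, ℂ))
  have hi := integrable_schwartz (integrable_wt_eta h0 h1 a) (𝓕 f : 𝓢(ℝ, ℂ))
  rw [integral_eta h0 a (𝓕 f : 𝓢(ℝ, ℂ)).continuous.stronglyMeasurable hi,
    integral_vT h0 h1 a hn (𝓕 bS : 𝓢(ℝ, ℂ)).continuous.measurable hb hC, ← tsum_mul_left, ← tsum_mul_left]
  congr 1
  funext k
  simp_rw [fourier_fn hn hf]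
  rw [integral_const_mul, Complex.real_smul]
  push_cast
  rfl

lemma atom_limit {μ : Measure ℝ} (hμ : IsLocallyFiniteMeasure μ) (s : ℝ) {f : ℕ → 𝓢(ℝ, ℂ)}
    (hf : ∀ n ξ, f n ξ = ((bmp (((n + 1 : ℕ) : ℝ) * (ξ - s)) : ℝ) : ℂ)) :
    Tendsto (fun n : ℕ => ∫ ξ, f n ξ ∂μ) atTop (𝓝 (μ.real {s} : ℂ)) := by
  have hlim : ∫ ξ, ({s} : Set ℝ).indicator (fun _ => (1 : ℂ)) ξ ∂μ = (μ.real {s} : ℂ) := by
    rw [integral_indicator (measurableSet_singleton s)]
    simp [Measure.real]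
  rw [← hlim]
  apply tendsto_integral_of_dominated_convergence
    ((Metric.closedBall s 2).indicator (fun _ => (1 : ℝ)))
  · intro n
    exact (f n).continuous.aestronglyMeasurable
  · rw [integrable_indicator_iff Metric.isClosed_closedBall.measurableSet]
    exact integrableOn_const (isCompact_closedBall s 2).measure_lt_top.ne
  · intro n
    refine Eventually.of_forall (fun ξ => ?_)
    by_cases hξ : ξ ∈ Metric.closedBall s 2
    · rw [indicator_of_mem hξ, hf]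
      exact norm_bS_le _
    · rw [indicator_of_notMem hξ, hf, bmp_zero']
      · simp
      · rw [Metric.mem_closedBall, Real.dist_eq] at hξ
        push Not at hξ
        rw [abs_mul, Nat.abs_cast]
        have : (1 : ℝ) ≤ ((n + 1 : ℕ) : ℝ) := by push_cast; linarith [Nat.cast_nonneg (α := ℝ) n]
        nlinarith [abs_nonneg (ξ - s)]
  · refine Eventually.of_forall (fun ξ => ?_)
    by_cases hξ : ξ = s
    · subst hξ
      rw [indicator_of_mem (mem_singleton _)]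
      refine tendsto_const_nhds.congr (fun n => ?_)
      rw [hf, sub_self, mul_zero, bmp_one (by simp)]
      simp
    · rw [indicator_of_notMem (by simpa using hξ)]
      apply tendsto_const_nhds.congr'
      have hpos : 0 < |ξ - s| := abs_pos.2 (sub_ne_zero.2 hξ)
      obtain ⟨N, hN⟩ := exists_nat_gt (2 / |ξ - s|)
      filter_upwards [eventually_ge_atTop N] with n hn
      rw [hf, bmp_zero']
      · simp
      · rw [abs_mul, Nat.abs_cast]
        rw [div_lt_iff₀ hpos] at hN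
        have : (N : ℝ) ≤ ((n + 1 : ℕ) : ℝ) := by exact_mod_cast (by omega : N ≤ n + 1)
        nlinarith

/-- no Bragg peaks apart from the trivial one -/
theorem no_atom {D γ s : ℝ} (h0 : 0 < D) (h1 : D < 1) (hγ : Irrational γ) (hNC : NC D γ)
    (hD : Irrational D) (hs : s ≠ 0) {μ : Measure ℝ}
    (hft : IsFourierTransformOf (eta D (γ : Circ)) μ) : μ {s} = 0 := by
  have hk := kap_pos h0
  choose f hf using fun n : ℕ => exists_fn s (n := n + 1) (Nat.succ_pos n)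
  have hlim := atom_limit hft.1 s hf
  have hzero : Tendsto (fun n : ℕ => ∫ ξ, f n ξ ∂μ) atTop (𝓝 0) := by
    have e1 : ∀ n : ℕ, ∫ ξ, f n ξ ∂μ =
        (1 / kap D : ℂ) * ∫ x : Circ, vT (𝓕 bS : 𝓢(ℝ, ℂ)) s D (γ : Circ) (n + 1) x := by
      intro n
      rw [← (hft.2 (f n)).2.2]
      exact integral_fn h0 h1 (γ : Circ) (Nat.succ_pos n) (hf n)
    simp_rw [e1]
    have hmain : Tendsto (fun n : ℕ => ∫ x : Circ, vT (𝓕 bS : 𝓢(ℝ, ℂ)) s D (γ : Circ) (n + 1) x) atTop (𝓝 0) := by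
      obtain ⟨C, hC, hb⟩ := schwartz_cw (𝓕 bS : 𝓢(ℝ, ℂ))
      obtain ⟨K, hKK, hlip⟩ := schwartz_lip (𝓕 bS : 𝓢(ℝ, ℂ)) (R := 1 / kap D) (by positivity)
      have hces := cesaro h0 h1 hγ hNC hD hs
      set C1 : ℝ := C * (4 * (1 + 1 / del D)) with hC1
      set C2 : ℝ := K * (1 / kap D) * (4 * (1 + 1 / del D)) with hC2
      have hdel := del_pos h0 h1
      have hC10 : 0 ≤ C1 := by positivity
      have hC20 : 0 ≤ C2 := by positivity
      rw [Metric.tendsto_atTop]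
      intro ε hε
      have h2 := hces.const_mul C1
      rw [mul_zero] at h2
      obtain ⟨N, hN, hN1⟩ := ((h2.eventually_lt_const (half_pos hε)).and (eventually_ge_atTop 1)).exists
      obtain ⟨M, hM⟩ := exists_nat_gt (N * C2 / (ε / 2))
      refine ⟨M, fun n hn => ?_⟩
      rw [dist_zero_right]
      have h3 := approx_fixed (s := s) (D := D) (a := (γ : Circ))
        (measurable_vT (s := s) (D := D) (𝓕 bS : 𝓢(ℝ, ℂ)).continuous.measurable (γ : Circ) (n + 1))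
        (norm_vT h0 h1 (γ : Circ) (Nat.succ_pos n) hb hC)
        (vT_approx h0 h1 (γ : Circ) (Nat.succ_pos n) hb hC hKK hlip) (N := N) hN1
      refine lt_of_le_of_lt h3 ?_
      have h4 : (N : ℝ) * (C2 / ((n + 1 : ℕ) : ℝ)) < ε / 2 := by
        rw [div_lt_iff₀ (by positivity)] at hM
        rw [mul_div_assoc', div_lt_iff₀ (by positivity)]
        have : (M : ℝ) ≤ ((n + 1 : ℕ) : ℝ) := by exact_mod_cast (by omega : M ≤ n + 1)
        nlinarith
      linarith
    have := hmain.const_mul (1 / kap D : ℂ)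
    rwa [mul_zero] at this
  have heq := tendsto_nhds_unique hlim hzero
  have h5 : μ.real {s} = 0 := by exact_mod_cast heq
  rw [Measure.real, ENNReal.toReal_eq_zero_iff] at h5
  rcases h5 with h5 | h5
  · exact h5
  · exfalso
    have hl := hft.1
    exact (isCompact_singleton (x := s)).measure_lt_top.ne h5

/-- uniqueness of the autocorrelation -/
theorem autocorr_unique {Λ : Set ℝ} {η η' : Measure ℝ} (h : IsAutocorrelation Λ η)
    (h' : IsAutocorrelation Λ η') : η = η' := by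
  have hl := h.1
  have hl' := h'.1
  apply MeasureTheory.Measure.ext_of_integral_eq_on_compactlySupported
  intro φ
  exact tendsto_nhds_unique (h.2.2 φ φ.continuous φ.hasCompactSupport)
    (h'.2.2 φ φ.continuous φ.hasCompactSupport)

/-- no atoms outside the origin, for the point sets -/
theorem no_atom' {D γ x₀ : ℝ} (h0 : 0 < D) (h1 : D < 1) (hγ : Irrational γ) (hNC : NC D γ)
    (hD : Irrational D) {p : ℤ → ℤ × ℤ} (hp : IsStaircase D γ x₀ p) {η μ : Measure ℝ}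
    (hau : IsAutocorrelation (proj D '' range p) η) (hft : IsFourierTransformOf η μ) {s : ℝ} (hs : s ≠ 0) :
    μ {s} = 0 := by
  rw [image_eq hp] at hau
  have hau2 := isAutocorr h0 h1 (addOrderOf_irr hγ) (x₀ : Circ)
  rw [autocorr_unique hau hau2] at hft
  exact no_atom h0 h1 hγ hNC hD hs hft

/-- failure of the diffraction condition -/
theorem not_diffraction {D γ x₀ : ℝ} (h0 : 0 < D) (h1 : D < 1) (hγ : Irrational γ) (hNC : NC D γ)
    (hD : Irrational D) {p : ℤ → ℤ × ℤ} (hp : IsStaircase D γ x₀ p) :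
    ¬ DiffractionCondition (proj D '' range p) := by
  rintro ⟨η, μ, hau, hft, hinf, -⟩
  apply hinf
  apply (Set.finite_singleton (0 : ℝ)).subset
  intro s hs
  by_contra hs0
  exact hs (no_atom' h0 h1 hγ hNC hD hp hau hft hs0)

end Pool.Agent.KS6_58.KD
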