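import Mathlib
import Pool.Agent.KS6_58.KD.E5

set_option autoImplicit false

open MeasureTheory Filter Topology Set
open scoped ComplexConjugate Real

namespace Pool.Agent.KS6_58.KD

open Pool.Agent.H382R3.KD

/-- the coupling of the jump with the arc length and the drift -/
noncomputable def TT (D θ : ℝ) : ℝ := (1 + θ) * (2 * D - 1) / kap D ^ 2

/-- the frequency -/
noncomputable def sS (D θ : ℝ) : ℝ := (1 + θ) / kap D

/-- transfer functions in the Kesten case -/
noncomputable def Fz (γ τ : ℝ) (j M : ℤ) (x : Circ) : ℂ :=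
  ex (τ * birk fr (γ : Circ) (-j) x + M * fr x)

lemma norm_Fz (γ τ : ℝ) (j M : ℤ) (x : Circ) : ‖Fz γ τ j M x‖ = 1 := norm_ex _

lemma measurable_Fz (γ τ : ℝ) (j M : ℤ) : Measurable (Fz γ τ j M) := by
  unfold Fz
  apply continuous_ex.measurable.comp
  exact ((measurable_birk measurable_fr _ _).const_mul τ).add (measurable_fr.const_mul _)

lemma coe_lin {D γ : ℝ} {j l : ℤ} (h : D = j * γ + l) : (D : Circ) = j • (γ : Circ) := by
  have h2 : ((l : ℝ) : Circ) = 0 := by
    rw [AddCircle.coe_eq_zero_iff]; exact ⟨l, by simp⟩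
  rw [h, AddCircle.coe_add, h2, add_zero, ← zsmul_eq_mul]
  simp

lemma fr_shift (γ : ℝ) (x : Circ) : ∃ n : ℤ, fr (x + (γ : Circ)) - fr x = γ + n := by
  have h : ((fr (x + (γ : Circ)) - fr x - γ : ℝ) : Circ) = 0 := by
    rw [AddCircle.coe_sub, AddCircle.coe_sub, coe_fr, coe_fr]
    abel
  rw [AddCircle.coe_eq_zero_iff] at h
  obtain ⟨n, hn⟩ := h
  simp only [zsmul_eq_mul, mul_one] at hn
  exact ⟨n, by linarith⟩

lemma ex_congr {s t : ℝ} (h : ∃ n : ℤ, s - t = n) : ex s = ex t := by
  obtain ⟨n, hn⟩ := h
  have : s = t + n := by linarith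
  rw [this, ex_add, ex_int, mul_one]

/-- the cohomological equation -/
lemma cob_Fz {D γ θ : ℝ} (h0 : 0 < D) (h1 : D < 1) {j l M L : ℤ} (hD : D = j * γ + l)
    (hθ : θ = M * γ + L) (x : Circ) :
    ex (sS D θ * rr D x) = Fz γ (TT D θ) j M (x + (γ : Circ)) * conj (Fz γ (TT D θ) j M x) := by
  have hk := kap_pos h0
  have hk2 := kap_sq D
  unfold Fz
  rw [conj_ex, ← ex_add]
  apply ex_congr
  have h2 := birk_shift fr (γ : Circ) (-j) x
  have h3 : x + (-j) • (γ : Circ) = x - (D : Circ) := by
    rw [coe_lin hD, neg_smul, sub_eq_add_neg]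
  rw [h3] at h2
  obtain ⟨n, hn⟩ := fr_shift γ x
  refine ⟨1 + L - M * n, ?_⟩
  rw [rr_NN h0 h1]
  have h4 : NN D x = D + (birk fr (γ : Circ) (-j) (x + (γ : Circ)) - birk fr (γ : Circ) (-j) x) := by
    unfold NN; rw [h2]; ring
  have h5 : sS D θ * (1 - D) / kap D + (sS D θ * (2 * D - 1) / kap D) * D = 1 + θ := by
    unfold sS
    have : (1 + θ) / kap D * (1 - D) / kap D + ((1 + θ) / kap D * (2 * D - 1) / kap D) * D =
        (1 + θ) * ((1 - D) + (2 * D - 1) * D) / kap D ^ 2 := by field_simp
    rw [this, hk2]
    have hq : (1 - D) ^ 2 + D ^ 2 ≠ 0 := by positivity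
    field_simp
    ring
  have h6 : sS D θ * (2 * D - 1) / kap D = TT D θ := by
    unfold sS TT; field_simp
  rw [h6] at h5 ⊢
  rw [h4]
  push_cast
  have h8 : fr (x + (γ : Circ)) = fr x + γ + n := by linarith
  rw [h8]
  have h9 : sS D θ * (1 - D) / kap D = 1 + θ - TT D θ * D := by linarith
  rw [h9, hθ]
  ring

lemma birk_add (φ : Circ → ℝ) (a : Circ) (m n : ℤ) (x : Circ) :
    birk φ a (m + n) x = birk φ a m x + birk φ a n (x + m • a) := by
  have := int_ext (u := fun n => birk φ a (m + n) x - birk φ a m x)
    (v := fun n => birk φ a n (x + m • a)) (by simp [birk_zero]) (by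
      intro k
      have e1 := birk_succ φ a (m + k) x
      have e2 := birk_succ φ a k (x + m • a)
      rw [← add_assoc, e1, e2, add_smul, add_assoc]
      ring)
  have h : birk φ a (m + n) x - birk φ a m x = birk φ a n (x + m • a) := congrFun this n
  linarith

/-! ### translation numbers of real functions -/

/-- translation number -/
noncomputable def trR (f : Circ → ℝ) (y : Circ) : ℝ := ∫ x : Circ, |f (x + y) - f x|

lemma trR_nonneg (f : Circ → ℝ) (y : Circ) : 0 ≤ trR f y := integral_nonneg (fun _ => abs_nonneg _)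

section

variable {f : Circ → ℝ} (hf : Measurable f) {B : ℝ} (hB : ∀ x, |f x| ≤ B)

include hf hB

lemma integrable_trR (y z : Circ) : Integrable (fun x : Circ => |f (x + y) - f (x + z)|) :=
  integrable_of_bdd (((hf.comp (measurable_add_const y)).sub (hf.comp (measurable_add_const z))).abs)
    (B := 2 * B) (fun x => by
      rw [abs_abs]
      refine (abs_sub _ _).trans ?_
      linarith [hB (x + y), hB (x + z)])

lemma trR_add (y z : Circ) : trR f (y + z) ≤ trR f y + trR f z := by
  unfold trR
  have e1 : ∫ x : Circ, |f (x + z) - f x| = ∫ x : Circ, |f (x + (y + z)) - f (x + y)| := by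
    rw [← integral_add_right_eq_self (fun x : Circ => |f (x + z) - f x|) y]
    simp_rw [add_assoc]
  have hi1 := integrable_trR hf hB y 0
  have hi2 := integrable_trR hf hB (y + z) y
  simp only [add_zero] at hi1
  rw [e1, ← integral_add hi1 hi2]
  apply integral_mono_of_nonneg
  · exact Eventually.of_forall (fun _ => abs_nonneg _)
  · exact hi1.add hi2
  · refine Eventually.of_forall (fun x => ?_)
    simp only
    have := abs_add_le (f (x + y) - f x) (f (x + (y + z)) - f (x + y))
    have e : f (x + y) - f x + (f (x + (y + z)) - f (x + y)) = f (x + (y + z)) - f x := by ring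
    rw [e] at this
    exact this

lemma trR_nsmul (y : Circ) (n : ℕ) : trR f (n • y) ≤ n * trR f y := by
  induction n with
  | zero => simp [trR]
  | succ n ih =>
    rw [succ_nsmul]
    refine (trR_add hf hB _ _).trans ?_
    push_cast
    linarith

omit hf hB in
lemma trR_neg (y : Circ) : trR f (-y) = trR f y := by
  unfold trR
  rw [← integral_add_right_eq_self (fun x : Circ => |f (x + -y) - f x|) y]
  congr 1
  funext x
  rw [add_neg_cancel_right, abs_sub_comm]

/-- a function which is close to all its translates is close to a constant -/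
lemma exists_const {S : ℝ} (hS : ∀ y, trR f y ≤ S) : ∃ C : ℝ, ∫ x : Circ, |f x - C| ≤ S := by
  have hint : Integrable (fun p : Circ × Circ => |f (p.1 + p.2) - f p.2|)
      ((volume : Measure Circ).prod volume) := by
    refine Integrable.of_bound ?_ (2 * B) ?_
    · have h1 : Measurable (fun p : Circ × Circ => f (p.1 + p.2)) := hf.comp (measurable_fst.add measurable_snd)
      exact ((h1.sub (hf.comp measurable_snd)).abs).aestronglyMeasurable
    · refine Eventually.of_forall (fun p => ?_)
      rw [Real.norm_eq_abs, abs_abs]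
      refine (abs_sub _ _).trans ?_
      linarith [hB (p.1 + p.2), hB p.2]
  have h1 : ∫ y : Circ, ∫ x : Circ, |f (y + x) - f x| ≤ S := by
    calc ∫ y : Circ, ∫ x : Circ, |f (y + x) - f x| ≤ ∫ _y : Circ, S := by
          apply integral_mono_of_nonneg
          · exact Eventually.of_forall (fun _ => integral_nonneg (fun _ => abs_nonneg _))
          · exact integrable_const _
          · refine Eventually.of_forall (fun y => ?_)
            have := hS y
            unfold trR at this
            simp_rw [add_comm _ y] at this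
            exact this
      _ = S := by simp [Measure.real]
  rw [integral_integral_swap hint] at h1
  have h2 : ∀ x : Circ, ∫ y : Circ, |f (y + x) - f x| = ∫ y : Circ, |f y - f x| := fun x =>
    integral_add_right_eq_self (fun y : Circ => |f y - f x|) x
  simp_rw [h2] at h1
  have hint3 : Integrable (fun x : Circ => ∫ y : Circ, |f y - f x|) := by
    have := hint.integral_prod_right
    simp_rw [h2] at this
    exact this
  have hpr : IsProbabilityMeasure (volume : Measure Circ) := ⟨vol_univ⟩
  obtain ⟨x, hx⟩ := exists_le_integral hint3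
  exact ⟨f x, hx.trans h1⟩

end

end Pool.Agent.KS6_58.KD
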