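import Mathlib
import Pool.Agent.KS6_58.KD.B1

set_option autoImplicit false

open MeasureTheory Filter Topology Set
open scoped ComplexConjugate Real

namespace Pool.Agent.KS6_58.KD

open Pool.Agent.H382R3.KD

lemma trR_zero (f : Circ → ℝ) : trR f 0 = 0 := by unfold trR; simp

lemma trR_fr_le {h : ℝ} (hh : |h| < 1) : trR fr (h : Circ) ≤ 2 * |h| := by
  rcases lt_trichotomy h 0 with hneg | rfl | hpos
  · rw [abs_of_neg hneg] at hh ⊢
    rw [← trR_neg, ← AddCircle.coe_neg]
    exact integral_abs_fr (by linarith) hh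
  · simp [trR_zero]
  · rw [abs_of_pos hpos] at hh ⊢
    exact integral_abs_fr hpos hh

lemma trR_birk_le (a : Circ) (k : ℤ) {h : ℝ} (hh : |h| < 1) :
    trR (birk fr a k) (h : Circ) ≤ cnt k * 2 * |h| := by
  rcases lt_trichotomy h 0 with hneg | rfl | hpos
  · rw [abs_of_neg hneg] at hh ⊢
    rw [← trR_neg, ← AddCircle.coe_neg]
    exact birk_var a k (by linarith) hh
  · simp [trR_zero]
  · rw [abs_of_pos hpos] at hh ⊢
    exact birk_var a k hpos hh

lemma trR_birk_a (a : Circ) (k : ℤ) : trR (birk fr a k) a = trR fr (k • a) := by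
  unfold trR
  congr 1
  funext x
  rw [birk_shift]

lemma cnt_neg_nat (J : ℕ) : (cnt (-(J : ℤ)) : ℝ) = J := by
  unfold cnt
  rw [Finset.Ico_eq_empty_of_le (by omega), Finset.card_empty, zero_add, Int.card_Ico]
  simp

/-- the sum of the fractional parts over an almost periodic orbit is bounded, up to a constant -/
lemma near_const {γ d : ℝ} {J : ℕ} (hJ : 2 ≤ J) {P : ℤ} (hcop : IsCoprime (J : ℤ) P)
    (hd : d = J * γ + P) (hd1 : J * |d| ≤ 1 / 4) :
    ∃ C : ℝ, ∫ x : Circ, |birk fr (γ : Circ) (-(J : ℤ)) x - C| ≤ 3 := by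
  have hJR : (2 : ℝ) ≤ J := by exact_mod_cast hJ
  have hJ0 : (0 : ℝ) < J := by linarith
  have hfm : Measurable (birk fr (γ : Circ) (-(J : ℤ))) := measurable_birk measurable_fr _ _
  have hfb := birk_bound abs_fr_le (γ : Circ) (-(J : ℤ))
  apply exists_const hfm hfb
  intro y
  set t : ℝ := fr y with ht
  have ht0 := fr_nonneg y
  have ht1 := fr_lt_one y
  set k : ℤ := ⌊(J : ℝ) * t⌋ with hk
  have hk1 : (k : ℝ) ≤ J * t := Int.floor_le _
  have hk2 : (J : ℝ) * t < k + 1 := Int.lt_floor_add_one _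
  obtain ⟨a, b, hab⟩ := hcop
  have hJz : (0 : ℤ) < J := by omega
  set i : ℕ := ((-k * b) % (J : ℤ)).toNat with hi
  have hi0 : 0 ≤ (-k * b) % (J : ℤ) := Int.emod_nonneg _ (by omega)
  have hi1 : (-k * b) % (J : ℤ) < J := Int.emod_lt_of_pos _ hJz
  have hiz : (i : ℤ) = (-k * b) % (J : ℤ) := Int.toNat_of_nonneg hi0
  have hiJ : i < J := by omega
  obtain ⟨m, hm⟩ : ∃ m : ℤ, (i : ℤ) * P = -k + J * m := by
    have e1 := Int.emod_add_mul_ediv (-k * b) (J : ℤ)
    refine ⟨k * a - ((-k * b) / (J : ℤ)) * P, ?_⟩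
    have e2 : (i : ℤ) = -k * b - J * ((-k * b) / (J : ℤ)) := by rw [hiz]; linarith
    rw [e2]
    linear_combination (-k) * hab
  have hmR : (i : ℝ) * P = -k + J * m := by exact_mod_cast hm
  set h' : ℝ := t - (i * d + k) / J with hh'
  have hiR : (i : ℝ) ≤ J := by exact_mod_cast hiJ.le
  have hdJ : |d| ≤ 1 / 8 := by
    have : 2 * |d| ≤ J * |d| := mul_le_mul_of_nonneg_right hJR (abs_nonneg _)
    linarith
  have hh'b : |h'| < 1 / J + |d| := by
    have e1 : h' = (J * t - k) / J - i * d / J := by rw [hh']; field_simp; ring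
    rw [e1]
    have e2 : |(J * t - k) / (J : ℝ)| < 1 / J := by
      rw [abs_div, abs_of_pos hJ0]
      apply div_lt_div_of_pos_right _ hJ0
      rw [abs_of_nonneg (by linarith)]
      linarith
    have e3 : |(i : ℝ) * d / J| ≤ |d| := by
      rw [abs_div, abs_mul, abs_of_pos hJ0, abs_of_nonneg (Nat.cast_nonneg i), div_le_iff₀ hJ0]
      have := mul_le_mul_of_nonneg_right hiR (abs_nonneg d)
      linarith
    refine lt_of_le_of_lt (abs_sub _ _) ?_
    linarith
  have hJinv : 1 / (J : ℝ) ≤ 1 / 2 := by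
    apply one_div_le_one_div_of_le (by norm_num) hJR
  have hh'1 : |h'| < 1 := by linarith
  have hy : y = i • (γ : Circ) + (h' : Circ) := by
    have e1 : ((t - i * γ - h' : ℝ) : Circ) = 0 := by
      rw [AddCircle.coe_eq_zero_iff]
      refine ⟨m, ?_⟩
      simp only [zsmul_eq_mul, mul_one]
      rw [hh', hd]
      field_simp
      nlinarith [hmR]
    rw [AddCircle.coe_sub, AddCircle.coe_sub, ht, coe_fr] at e1
    have e2 : ((i * γ : ℝ) : Circ) = i • (γ : Circ) := by rw [← nsmul_eq_mul, AddCircle.coe_nsmul]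
    rw [e2] at e1
    have := sub_eq_zero.1 e1
    rw [← this]; abel
  have hda : ((-(J : ℤ)) • (γ : Circ)) = -(d : Circ) := by
    have := coe_lin (D := d) (γ := γ) (j := (J : ℤ)) (l := P) (by rw [hd]; push_cast; rfl)
    rw [this, neg_smul]
  have e1 : trR (birk fr (γ : Circ) (-(J : ℤ))) (i • (γ : Circ)) ≤ J * (2 * |d|) := by
    refine (trR_nsmul hfm hfb (γ : Circ) i).trans ?_
    rw [trR_birk_a, hda, trR_neg]
    have h1 := trR_fr_le (h := d) (by linarith)
    exact mul_le_mul hiR h1 (trR_nonneg _ _) hJ0.le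
  have e2 : trR (birk fr (γ : Circ) (-(J : ℤ))) (h' : Circ) ≤ 2 + 2 * (J * |d|) := by
    refine (trR_birk_le (γ : Circ) (-(J : ℤ)) hh'1).trans ?_
    rw [cnt_neg_nat]
    calc (J : ℝ) * 2 * |h'| ≤ J * 2 * (1 / J + |d|) := by gcongr
      _ = _ := by field_simp
  rw [hy]
  refine (trR_add hfm hfb _ _).trans ?_
  linarith

end Pool.Agent.KS6_58.KD
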