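import Mathlib
import Pool.Agent.KS6_58.KD.B2

set_option autoImplicit false

open MeasureTheory Filter Topology Set
open scoped ComplexConjugate Real

namespace Pool.Agent.KS6_58.KD

open Pool.Agent.H382R3.KD

lemma birk_coe_circ (a : Circ) (k : ℤ) (y : Circ) :
    ((birk fr a k y : ℝ) : Circ) = k • y + ((birk fr a k 0 : ℝ) : Circ) := by
  have := int_ext (u := fun k : ℤ => ((birk fr a k y : ℝ) : Circ) - ((birk fr a k 0 : ℝ) : Circ))
    (v := fun k : ℤ => k • y) (by simp [birk_zero]) (by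
      intro k
      rw [birk_succ, birk_succ, AddCircle.coe_add, AddCircle.coe_add, coe_fr, coe_fr, add_smul, one_smul]
      abel)
  have h : ((birk fr a k y : ℝ) : Circ) - ((birk fr a k 0 : ℝ) : Circ) = k • y := congrFun this k
  rw [← h]; abel

lemma const_mod_one (a : Circ) (k : ℤ) (c : Circ) :
    ∃ r : ℝ, ∀ x : Circ, ∃ n : ℤ, birk fr a k (x - c) - k * fr x = r + n := by
  obtain ⟨r, hr⟩ : ∃ r : ℝ, (r : Circ) = -(k • c) + ((birk fr a k 0 : ℝ) : Circ) := ⟨fr _, coe_fr _⟩
  refine ⟨r, fun x => ?_⟩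
  have h : ((birk fr a k (x - c) - k * fr x - r : ℝ) : Circ) = 0 := by
    have e : ((k * fr x : ℝ) : Circ) = k • x := by
      rw [← zsmul_eq_mul, AddCircle.coe_zsmul, coe_fr]
    rw [AddCircle.coe_sub, AddCircle.coe_sub, birk_coe_circ, hr, e, smul_sub]
    abel
  rw [AddCircle.coe_eq_zero_iff] at h
  obtain ⟨n, hn⟩ := h
  simp only [zsmul_eq_mul, mul_one] at hn
  exact ⟨n, by linarith⟩

lemma blocks {γ d : ℝ} {J : ℕ} {P : ℤ} (hd : d = J * γ + P) (hd1 : |d| < 1) (b : ℕ) :
    ∫ y : Circ, |birk fr (γ : Circ) (-((b : ℤ) * J)) y - b * birk fr (γ : Circ) (-(J : ℤ)) y| ≤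
      b ^ 2 * (J * (2 * |d|)) := by
  set f := birk fr (γ : Circ) (-(J : ℤ)) with hf
  have hfm : Measurable f := measurable_birk measurable_fr _ _
  have hfb : ∀ x, |f x| ≤ cnt (-(J : ℤ)) * 1 := birk_bound abs_fr_le (γ : Circ) (-(J : ℤ))
  have hda : ((-(J : ℤ)) • (γ : Circ)) = -(d : Circ) := by
    have := coe_lin (D := d) (γ := γ) (j := (J : ℤ)) (l := P) (by rw [hd]; push_cast; rfl)
    rw [this, neg_smul]
  have hi0 : ∀ b : ℕ, Integrable (fun y : Circ => |birk fr (γ : Circ) (-((b : ℤ) * J)) y - b * f y|) := by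
    intro b
    refine integrable_of_bdd (((measurable_birk measurable_fr _ _).sub (hfm.const_mul _)).abs)
      (B := cnt (-((b : ℤ) * J)) * 1 + b * (cnt (-(J : ℤ)) * 1)) (fun x => ?_)
    rw [abs_abs]
    refine (abs_sub _ _).trans ?_
    apply add_le_add (birk_bound abs_fr_le _ _ _)
    rw [abs_mul, Nat.abs_cast]
    exact mul_le_mul_of_nonneg_left (hfb x) (Nat.cast_nonneg _)
  induction b with
  | zero => simp [birk_zero]
  | succ b ih =>
    have e1 : ∀ y : Circ, birk fr (γ : Circ) (-(((b + 1 : ℕ) : ℤ) * J)) y - ((b + 1 : ℕ) : ℝ) * f y =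
        (birk fr (γ : Circ) (-((b : ℤ) * J)) y - b * f y) + (f (y + b • (-(d : Circ))) - f y) := by
      intro y
      have e2 : (-(((b + 1 : ℕ) : ℤ) * J)) = (-((b : ℤ) * J)) + (-(J : ℤ)) := by push_cast; ring
      rw [e2, birk_add]
      have e3 : (-((b : ℤ) * J)) • (γ : Circ) = b • (-(d : Circ)) := by
        rw [← hda, ← natCast_zsmul, ← mul_smul]
        congr 1; ring
      rw [e3, hf]
      push_cast
      ring
    have hi2 : Integrable (fun y : Circ => |f (y + b • (-(d : Circ))) - f y|) := by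
      have := integrable_trR hfm hfb (b • (-(d : Circ))) 0
      simpa using this
    have e4 : ∫ y : Circ, |f (y + b • (-(d : Circ))) - f y| ≤ b * (J * (2 * |d|)) := by
      refine (trR_nsmul hfm hfb (-(d : Circ)) b).trans ?_
      apply mul_le_mul_of_nonneg_left _ (Nat.cast_nonneg _)
      rw [trR_neg]
      have := trR_birk_le (γ : Circ) (-(J : ℤ)) hd1
      rw [cnt_neg_nat] at this
      linarith
    calc ∫ y : Circ, |birk fr (γ : Circ) (-(((b + 1 : ℕ) : ℤ) * J)) y - ((b + 1 : ℕ) : ℝ) * f y|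
        ≤ ∫ y : Circ, (|birk fr (γ : Circ) (-((b : ℤ) * J)) y - b * f y| + |f (y + b • (-(d : Circ))) - f y|) := by
          apply integral_mono_of_nonneg
          · exact Eventually.of_forall (fun _ => abs_nonneg _)
          · exact (hi0 b).add hi2
          · refine Eventually.of_forall (fun y => ?_)
            simp only
            rw [e1]
            exact abs_add_le _ _
      _ = _ := integral_add (hi0 b) hi2
      _ ≤ b ^ 2 * (J * (2 * |d|)) + b * (J * (2 * |d|)) := add_le_add ih e4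
      _ ≤ _ := by
        push_cast
        have : 0 ≤ (J : ℝ) * (2 * |d|) := by positivity
        have hb : (0 : ℝ) ≤ b := Nat.cast_nonneg _
        nlinarith [mul_nonneg hb this]

/-- the basic estimate -/
theorem step_est {γ d : ℝ} {J : ℕ} (hJ : 2 ≤ J) {P : ℤ} (hcop : IsCoprime (J : ℤ) P)
    (hd : d = J * γ + P) (hd1 : J * |d| ≤ 1 / 4) (b : ℕ) (j M m : ℤ) (τ τ' : ℝ) :
    ∃ c : ℂ, ‖c‖ = 1 ∧ ∫ x : Circ, ‖Fz γ τ' (j + b * J) (M + m * J) x - c * Fz γ τ j M x‖ ≤
      2 * π * (|τ' - τ| * (|(j : ℝ)| + b * J) + |τ| * (b ^ 2 * (J * (2 * |d|))) + |τ * b - m| * 3) := by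
  have hJR : (2 : ℝ) ≤ J := by exact_mod_cast hJ
  have hd2 : |d| < 1 := by
    have : 2 * |d| ≤ J * |d| := mul_le_mul_of_nonneg_right hJR (abs_nonneg _)
    linarith
  obtain ⟨C, hC⟩ := near_const hJ hcop hd hd1
  set f := birk fr (γ : Circ) (-(J : ℤ)) with hf
  have hfm : Measurable f := measurable_birk measurable_fr _ _
  obtain ⟨r, hr⟩ := const_mod_one (γ : Circ) (-(J : ℤ)) (j • (γ : Circ))
  set c : ℂ := ex ((τ * b - m) * C + m * r) with hc
  refine ⟨c, norm_ex _, ?_⟩
  set err1 : Circ → ℝ := fun y => birk fr (γ : Circ) (-((b : ℤ) * J)) y - b * f y with herr1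
  have herr1m : Measurable err1 := (measurable_birk measurable_fr _ _).sub (hfm.const_mul _)
  have herr1i : Integrable (fun y => |err1 y|) := by
    refine integrable_of_bdd herr1m.abs
      (B := cnt (-((b : ℤ) * J)) * 1 + b * (cnt (-(J : ℤ)) * 1)) (fun x => ?_)
    rw [abs_abs]
    refine (abs_sub _ _).trans ?_
    apply add_le_add (birk_bound abs_fr_le _ _ _)
    rw [abs_mul, Nat.abs_cast]
    exact mul_le_mul_of_nonneg_left (birk_bound abs_fr_le _ _ _) (Nat.cast_nonneg _)
  have hfi : Integrable (fun y => |f y - C|) := by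
    refine integrable_of_bdd (hfm.sub_const C).abs (B := cnt (-(J : ℤ)) * 1 + |C|) (fun x => ?_)
    rw [abs_abs]
    exact (abs_sub _ _).trans (add_le_add (birk_bound abs_fr_le _ _ _) le_rfl)
  have hcnt : (cnt (-(j + (b : ℤ) * J)) : ℝ) ≤ |(j : ℝ)| + b * J := by
    rw [cnt_eq]
    push_cast
    rw [abs_neg]
    refine (abs_add_le _ _).trans ?_
    rw [abs_of_nonneg (by positivity : (0 : ℝ) ≤ (b : ℝ) * J)]
  have hpt : ∀ x : Circ, ‖Fz γ τ' (j + b * J) (M + m * J) x - c * Fz γ τ j M x‖ ≤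
      2 * π * (|τ' - τ| * (|(j : ℝ)| + b * J) + |τ| * |err1 (x - j • (γ : Circ))| +
        |τ * b - m| * |f (x - j • (γ : Circ)) - C|) := by
    intro x
    obtain ⟨n, hn⟩ := hr x
    set y := x - j • (γ : Circ) with hy
    have e1 : birk fr (γ : Circ) (-(j + (b : ℤ) * J)) x =
        birk fr (γ : Circ) (-j) x + birk fr (γ : Circ) (-((b : ℤ) * J)) y := by
      have : -(j + (b : ℤ) * J) = -j + -((b : ℤ) * J) := by ring
      rw [this, birk_add, hy, neg_smul, ← sub_eq_add_neg]
    set err : ℝ := (τ' - τ) * birk fr (γ : Circ) (-(j + (b : ℤ) * J)) x + τ * err1 y +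
      (τ * b - m) * (f y - C) with herr
    have e2 : Fz γ τ' (j + b * J) (M + m * J) x = c * Fz γ τ j M x * ex err := by
      unfold Fz
      rw [hc, ← ex_add, ← ex_add]
      apply ex_congr
      refine ⟨m * n, ?_⟩
      rw [← hf] at hn
      push_cast at hn ⊢
      have h3 : birk fr (γ : Circ) (-((b : ℤ) * J)) y = err1 y + b * f y := by rw [herr1]; ring
      rw [herr, e1, h3]
      linear_combination (m : ℝ) * hn
    rw [e2]
    have e3 : c * Fz γ τ j M x * ex err - c * Fz γ τ j M x = c * Fz γ τ j M x * (ex err - ex 0) := by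
      rw [ex_zero]; ring
    rw [e3, norm_mul, norm_mul, norm_Fz, hc, norm_ex, one_mul, one_mul]
    refine (norm_ex_sub _ _).trans ?_
    rw [sub_zero]
    apply mul_le_mul_of_nonneg_left _ (by have := Real.pi_pos; positivity)
    rw [herr]
    refine (abs_add_le _ _).trans (add_le_add ((abs_add_le _ _).trans (add_le_add ?_ ?_)) ?_)
    · rw [abs_mul]
      apply mul_le_mul_of_nonneg_left _ (abs_nonneg _)
      have := birk_bound abs_fr_le (γ : Circ) (-(j + (b : ℤ) * J)) x
      linarith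
    · rw [abs_mul]
    · rw [abs_mul]
  have hi1 : Integrable (fun x : Circ => |err1 (x - j • (γ : Circ))|) := herr1i.comp_sub_right _
  have hi2 : Integrable (fun x : Circ => |f (x - j • (γ : Circ)) - C|) := hfi.comp_sub_right _
  have hI1 : ∫ x : Circ, |err1 (x - j • (γ : Circ))| ≤ b ^ 2 * (J * (2 * |d|)) := by
    rw [integral_sub_right_eq_self (fun x : Circ => |err1 x|) (j • (γ : Circ))]
    exact blocks hd hd2 b
  have hI2 : ∫ x : Circ, |f (x - j • (γ : Circ)) - C| ≤ 3 := by
    rw [integral_sub_right_eq_self (fun x : Circ => |f x - C|) (j • (γ : Circ))]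
    exact hC
  have hA : Integrable (fun x : Circ => |τ' - τ| * (|(j : ℝ)| + b * J) + |τ| * |err1 (x - j • (γ : Circ))|) :=
    (integrable_const _).add (hi1.const_mul _)
  calc ∫ x : Circ, ‖Fz γ τ' (j + b * J) (M + m * J) x - c * Fz γ τ j M x‖
      ≤ ∫ x : Circ, 2 * π * (|τ' - τ| * (|(j : ℝ)| + b * J) + |τ| * |err1 (x - j • (γ : Circ))| +
        |τ * b - m| * |f (x - j • (γ : Circ)) - C|) := by
        apply integral_mono_of_nonneg
        · exact Eventually.of_forall (fun _ => norm_nonneg _)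
        · exact (hA.add (hi2.const_mul _)).const_mul _
        · exact Eventually.of_forall hpt
    _ = 2 * π * (|τ' - τ| * (|(j : ℝ)| + b * J) + |τ| * (∫ x : Circ, |err1 (x - j • (γ : Circ))|) +
        |τ * b - m| * ∫ x : Circ, |f (x - j • (γ : Circ)) - C|) := by
        rw [integral_const_mul, integral_add hA (hi2.const_mul _),
          integral_add (integrable_const _) (hi1.const_mul _), integral_const_mul, integral_const_mul]
        rw [integral_const_mul]
        simp only [integral_const, Measure.real, vol_univ, ENNReal.toReal_one, one_smul]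
    _ ≤ _ := by
        apply mul_le_mul_of_nonneg_left _ (by have := Real.pi_pos; positivity)
        apply add_le_add (add_le_add le_rfl ?_) ?_
        · exact mul_le_mul_of_nonneg_left hI1 (abs_nonneg _)
        · exact mul_le_mul_of_nonneg_left hI2 (abs_nonneg _)

end Pool.Agent.KS6_58.KD
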