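import Mathlib
import Pool.Agent.KS6_58.KD.B3

set_option autoImplicit false

open MeasureTheory Filter Topology Set Polynomial
open scoped ComplexConjugate Real

namespace Pool.Agent.KS6_58.KD

open Pool.Agent.H382R3.KD

lemma exists_good {γ : ℝ} (hγ : Irrational γ) (hbad : ¬ BadlyApprox γ) {η : ℝ} (hη : 0 < η) (K : ℕ) :
    ∃ J : ℕ, K ≤ J ∧ ∃ P : ℤ, IsCoprime (J : ℤ) P ∧ (J : ℝ) * |J * γ + P| < η ∧ (J : ℝ) * γ + P ≠ 0 := by
  -- distances for small denominators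
  obtain ⟨δ, hδ, hδ2⟩ : ∃ δ : ℝ, 0 < δ ∧ ∀ k ∈ Finset.Icc 1 K, δ ≤ |(k : ℝ) * γ - round ((k : ℝ) * γ)| := by
    have hev : ∀ᶠ n : ℕ in atTop, ∀ k ∈ Finset.Icc 1 K,
        1 / ((n : ℝ) + 1) < |(k : ℝ) * γ - round ((k : ℝ) * γ)| := by
      rw [Filter.eventually_all_finset]
      intro k hk
      rw [Finset.mem_Icc] at hk
      have hpos : 0 < |(k : ℝ) * γ - round ((k : ℝ) * γ)| := by
        rw [abs_pos]
        intro h0
        apply hγ
        have hk0 : (k : ℝ) ≠ 0 := by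
          have : 0 < k := hk.1
          positivity
        refine ⟨(round ((k : ℝ) * γ) : ℚ) / k, ?_⟩
        push_cast
        rw [div_eq_iff hk0]
        linarith
      exact (tendsto_one_div_add_atTop_nhds_zero_nat).eventually_lt_const hpos
    obtain ⟨n, hn⟩ := hev.exists
    exact ⟨1 / ((n : ℝ) + 1), by positivity, fun k hk => (hn k hk).le⟩
  unfold BadlyApprox at hbad
  push Not at hbad
  obtain ⟨q, p, hq, hlt⟩ := hbad (min η δ) (lt_min hη hδ)
  have hqpos : 0 < |(q : ℝ)| := abs_pos.2 (by exact_mod_cast hq)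
  rw [lt_div_iff₀ hqpos] at hlt
  set g : ℕ := Int.gcd q p with hg
  have hgpos : 0 < g := Int.gcd_pos_of_ne_zero_left p hq
  obtain ⟨q', hq'⟩ : (g : ℤ) ∣ q := Int.gcd_dvd_left q p
  obtain ⟨p', hp'⟩ : (g : ℤ) ∣ p := Int.gcd_dvd_right q p
  have hcop : IsCoprime q' p' := by
    rw [Int.isCoprime_iff_gcd_eq_one]
    have h1 : Int.gcd q p = g * Int.gcd q' p' := by
      conv_lhs => rw [hq', hp']
      rw [Int.gcd_mul_left]
      simp
    rw [← hg] at h1
    have h2 : g * Int.gcd q' p' = g * 1 := by rw [mul_one]; exact h1.symm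
    exact Nat.eq_of_mul_eq_mul_left hgpos h2
  have hq'0 : q' ≠ 0 := by
    rintro rfl
    apply hq; rw [hq', mul_zero]
  have hgR : (1 : ℝ) ≤ g := by exact_mod_cast hgpos
  have hsmall : |(q' : ℝ)| * |(q' : ℝ) * γ - p'| < min η δ := by
    refine lt_of_le_of_lt ?_ hlt
    have e1 : (q : ℝ) = g * q' := by exact_mod_cast hq'
    have e2 : (p : ℝ) = g * p' := by exact_mod_cast hp'
    rw [e1, e2]
    have e3 : (g : ℝ) * q' * γ - g * p' = g * (q' * γ - p') := by ring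
    rw [e3, abs_mul, abs_mul, abs_of_pos (by linarith : (0:ℝ) < g)]
    have h1 : 0 ≤ |(q' : ℝ)| * |(q' : ℝ) * γ - p'| := by positivity
    have h2 : (1 : ℝ) ≤ g * g := by nlinarith
    calc |(q' : ℝ)| * |(q' : ℝ) * γ - p'| ≤ (g * g) * (|(q' : ℝ)| * |(q' : ℝ) * γ - p'|) := by
          nlinarith
      _ = _ := by ring
  -- make the denominator positive
  obtain ⟨J, P, hJ0, hcop2, hJsmall⟩ : ∃ J : ℕ, ∃ P : ℤ, 0 < J ∧ IsCoprime (J : ℤ) P ∧
      (J : ℝ) * |J * γ + P| < min η δ := by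
    rcases lt_or_gt_of_ne hq'0 with hneg | hpos
    · refine ⟨q'.natAbs, p', by omega, ?_, ?_⟩
      · have : ((q'.natAbs : ℕ) : ℤ) = -q' := by omega
        rw [this]; exact hcop.neg_left
      · have e1 : ((q'.natAbs : ℕ) : ℝ) = -q' := by
          rw [Nat.cast_natAbs, Int.cast_abs]; exact abs_of_neg (by exact_mod_cast hneg)
        rw [e1]
        have hqR : (q' : ℝ) < 0 := by exact_mod_cast hneg
        rw [abs_of_neg hqR] at hsmall
        have e2 : -(q' : ℝ) * γ + p' = -(q' * γ - p') := by ring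
        rw [e2, abs_neg]
        exact hsmall
    · refine ⟨q'.natAbs, -p', by omega, ?_, ?_⟩
      · have : ((q'.natAbs : ℕ) : ℤ) = q' := by omega
        rw [this]; exact hcop.neg_right
      · have e1 : ((q'.natAbs : ℕ) : ℝ) = q' := by
          rw [Nat.cast_natAbs, Int.cast_abs]; exact abs_of_pos (by exact_mod_cast hpos)
        rw [e1]
        have hqR : (0 : ℝ) < q' := by exact_mod_cast hpos
        rw [abs_of_pos hqR] at hsmall
        push_cast
        rw [← sub_eq_add_neg]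
        exact hsmall
  have hne : (J : ℝ) * γ + P ≠ 0 := by
    intro h
    apply hγ
    have hJR : (J : ℝ) ≠ 0 := by positivity
    refine ⟨(-P : ℚ) / J, ?_⟩
    push_cast
    rw [div_eq_iff hJR]
    linarith
  refine ⟨J, ?_, P, hcop2, lt_of_lt_of_le hJsmall (min_le_left _ _), hne⟩
  by_contra hlt2
  push Not at hlt2
  have h1 := hδ2 J (Finset.mem_Icc.2 ⟨hJ0, hlt2.le⟩)
  have h2 := round_le ((J : ℝ) * γ) (-P)
  have h3 : |(J : ℝ) * γ - ((-P : ℤ) : ℝ)| = |J * γ + P| := by congr 1; push_cast; ring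
  rw [h3] at h2
  have hJR : (1 : ℝ) ≤ J := by exact_mod_cast hJ0
  have h4 : |(J : ℝ) * γ + P| ≤ J * |J * γ + P| := by
    have := abs_nonneg ((J : ℝ) * γ + P)
    nlinarith
  have h5 := lt_of_lt_of_le hJsmall (min_le_right _ _)
  linarith

/-- quadratic irrationals are badly approximable -/
lemma quad_bad {γ : ℝ} (hγ : Irrational γ) {A B C : ℤ} (hne : ¬ (A = 0 ∧ B = 0 ∧ C = 0))
    (h : (A : ℝ) * γ ^ 2 + B * γ + C = 0) : BadlyApprox γ := by
  set f : ℤ[X] := Polynomial.C A * X ^ 2 + Polynomial.C B * X + Polynomial.C C with hf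
  have hf0 : f ≠ 0 := by
    intro h0
    apply hne
    refine ⟨?_, ?_, ?_⟩
    · have := congrArg (fun g => g.coeff 2) h0
      simpa [hf, coeff_X, coeff_C, -eq_intCast] using this
    · have := congrArg (fun g => g.coeff 1) h0
      simpa [hf, coeff_X, coeff_C, -eq_intCast] using this
    · have := congrArg (fun g => g.coeff 0) h0
      simpa [hf, coeff_X, coeff_C, -eq_intCast] using this
  have hdeg : f.natDegree ≤ 2 := by
    rw [hf]; exact natDegree_quadratic_le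
  obtain ⟨a, ha, hL⟩ := Liouville.exists_pos_real_of_irrational_root hγ hf0 (by
    rw [hf]
    simp
    linarith)
  -- positive denominators
  have key : ∀ (q : ℕ) (p : ℤ), 0 < q → (1 / a) / q ≤ |(q : ℝ) * γ - p| := by
    intro q p hq
    obtain ⟨b, rfl⟩ : ∃ b, q = b + 1 := ⟨q - 1, by omega⟩
    have h1 := hL p b
    have hb : (1 : ℝ) ≤ (b : ℝ) + 1 := by linarith [Nat.cast_nonneg (α := ℝ) b]
    have hb0 : (0 : ℝ) < (b : ℝ) + 1 := by linarith
    have h2 : ((b : ℝ) + 1) ^ f.natDegree ≤ ((b : ℝ) + 1) ^ 2 := pow_le_pow_right₀ hb hdeg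
    have h3 : (1 : ℝ) ≤ ((b : ℝ) + 1) ^ 2 * (|γ - p / (b + 1)| * a) := by
      refine h1.trans ?_
      apply mul_le_mul_of_nonneg_right h2
      positivity
    have h4 : |(((b + 1 : ℕ) : ℝ)) * γ - p| = ((b : ℝ) + 1) * |γ - p / (b + 1)| := by
      rw [← abs_of_pos hb0, ← abs_mul, abs_of_pos hb0]
      congr 1
      push_cast
      field_simp
    rw [h4]
    push_cast
    rw [div_div, div_le_iff₀ (by positivity)]
    calc (1 : ℝ) ≤ ((b : ℝ) + 1) ^ 2 * (|γ - p / (b + 1)| * a) := h3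
      _ = _ := by ring
  refine ⟨1 / a, by positivity, fun q p hq => ?_⟩
  have h1 := key q.natAbs (q.sign * p) (by omega)
  rcases lt_or_gt_of_ne hq with hneg | hpos
  · have e1 : ((q.natAbs : ℕ) : ℝ) = -q := by
      rw [Nat.cast_natAbs, Int.cast_abs]; exact abs_of_neg (by exact_mod_cast hneg)
    have hqR : (q : ℝ) < 0 := by exact_mod_cast hneg
    rw [e1, Int.sign_eq_neg_one_of_neg hneg] at h1
    rw [abs_of_neg hqR]
    have e2 : -(q : ℝ) * γ - ((-1 * p : ℤ) : ℝ) = -(q * γ - p) := by push_cast; ring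
    rw [e2, abs_neg] at h1
    exact h1
  · have e1 : ((q.natAbs : ℕ) : ℝ) = q := by
      rw [Nat.cast_natAbs, Int.cast_abs]; exact abs_of_pos (by exact_mod_cast hpos)
    have hqR : (0 : ℝ) < q := by exact_mod_cast hpos
    rw [e1, Int.sign_eq_one_of_pos hpos, one_mul] at h1
    rw [abs_of_pos hqR]
    exact h1

/-- the jumps are irrational -/
lemma TT_irr {γ D θ : ℝ} (hγ : Irrational γ) (hbad : ¬ BadlyApprox γ) (h0 : 0 < D) {j l M L : ℤ}
    (hj : j ≠ 0) (hD : D = j * γ + l) (hθ : θ = M * γ + L) (hθ1 : 1 + θ ≠ 0) : Irrational (TT D θ) := by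
  rintro ⟨r, hr⟩
  have hk := kap_pos h0
  have hk2 := kap_sq D
  set p : ℤ := r.num with hp
  set q : ℤ := (r.den : ℤ) with hq
  have hq0 : q ≠ 0 := by rw [hq]; exact_mod_cast r.den_ne_zero
  have hqR : (q : ℝ) ≠ 0 := by exact_mod_cast hq0
  have hrr : (r : ℝ) = p / q := by
    rw [hp, hq]; push_cast; exact (Rat.cast_def r)
  have hQ : (1 - D) ^ 2 + D ^ 2 ≠ 0 := by positivity
  have e1 : (q : ℝ) * ((1 + θ) * (2 * D - 1)) = p * ((1 - D) ^ 2 + D ^ 2) := by
    rw [hrr] at hr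
    unfold TT at hr
    rw [hk2, div_eq_div_iff hqR hQ] at hr
    linarith
  have e2 : ((2 * j * M * q - 2 * p * j ^ 2 : ℤ) : ℝ) * γ ^ 2 +
      ((q * ((1 + L) * (2 * j) + (2 * l - 1) * M) - p * (4 * j * l - 2 * j) : ℤ) : ℝ) * γ +
      ((q * (1 + L) * (2 * l - 1) - p * (2 * l ^ 2 - 2 * l + 1) : ℤ) : ℝ) = 0 := by
    rw [hD, hθ] at e1
    push_cast
    linear_combination e1
  by_cases hz : (2 * j * M * q - 2 * p * j ^ 2 : ℤ) = 0 ∧
      (q * ((1 + L) * (2 * j) + (2 * l - 1) * M) - p * (4 * j * l - 2 * j) : ℤ) = 0 ∧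
      (q * (1 + L) * (2 * l - 1) - p * (2 * l ^ 2 - 2 * l + 1) : ℤ) = 0
  · obtain ⟨z1, z2, z3⟩ := hz
    have a1 : M * q = p * j := by
      have : (2 * j) * (M * q) = (2 * j) * (p * j) := by linarith
      exact mul_left_cancel₀ (by omega) this
    have a2 : 2 * q * (1 + L) = p * (2 * l - 1) := by
      have : j * (2 * q * (1 + L)) = j * (p * (2 * l - 1)) := by
        linear_combination z2 - (2 * l - 1) * a1
      exact mul_left_cancel₀ hj this
    have a3 : p = 0 := by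
      linear_combination (2 * l - 1) * a2 - 2 * z3
    rw [a3] at e1
    simp only [Int.cast_zero, zero_mul] at e1
    have a4 : 2 * D - 1 = 0 := by
      rcases mul_eq_zero.1 e1 with h | h
      · exact absurd h hqR
      · rcases mul_eq_zero.1 h with h | h
        · exact absurd h hθ1
        · exact h
    apply hγ
    have hjR : (j : ℝ) ≠ 0 := by exact_mod_cast hj
    refine ⟨(1 / 2 - l : ℚ) / j, ?_⟩
    push_cast
    rw [div_eq_iff hjR]
    linarith
  · exact hbad (quad_bad hγ hz e2)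

lemma TT_lip {D D' θ θ' : ℝ} (h0 : 0 < D) (h1 : D < 1) (h0' : 0 < D') (h1' : D' < 1)
    (hθ : |θ| ≤ 1) (hθ' : |θ'| ≤ 1) :
    |TT D' θ' - TT D θ| ≤ 32 * |D' - D| + 4 * |θ' - θ| := by
  have hk2 := kap_sq D
  have hk2' := kap_sq D'
  unfold TT
  rw [hk2, hk2']
  set Q := (1 - D) ^ 2 + D ^ 2 with hQ
  set Q' := (1 - D') ^ 2 + D' ^ 2 with hQ'
  have hQ1 : 1 / 2 ≤ Q := by rw [hQ]; nlinarith [sq_nonneg (2 * D - 1)]
  have hQ1' : 1 / 2 ≤ Q' := by rw [hQ']; nlinarith [sq_nonneg (2 * D' - 1)]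
  have hQ2 : Q ≤ 1 := by rw [hQ]; nlinarith
  have hN : |(1 + θ) * (2 * D - 1)| ≤ 2 := by
    rw [abs_mul]
    have a1 : |1 + θ| ≤ 2 := (abs_add_le _ _).trans (by rw [abs_one]; linarith)
    have a2 : |2 * D - 1| ≤ 1 := by rw [abs_le]; constructor <;> linarith
    nlinarith [abs_nonneg (1 + θ), abs_nonneg (2 * D - 1)]
  have hdN : |(1 + θ') * (2 * D' - 1) - (1 + θ) * (2 * D - 1)| ≤ 4 * |D' - D| + |θ' - θ| := by
    have e : (1 + θ') * (2 * D' - 1) - (1 + θ) * (2 * D - 1) =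
        (1 + θ') * (2 * (D' - D)) + (θ' - θ) * (2 * D - 1) := by ring
    rw [e]
    refine (abs_add_le _ _).trans ?_
    rw [abs_mul, abs_mul, abs_mul]
    have a1 : |1 + θ'| ≤ 2 := (abs_add_le _ _).trans (by rw [abs_one]; linarith)
    have a2 : |2 * D - 1| ≤ 1 := by rw [abs_le]; constructor <;> linarith
    have a3 : |(2 : ℝ)| = 2 := abs_of_pos two_pos
    rw [a3]
    have b1 : |1 + θ'| * (2 * |D' - D|) ≤ 2 * (2 * |D' - D|) :=
      mul_le_mul_of_nonneg_right a1 (by positivity)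
    have b2 : |θ' - θ| * |2 * D - 1| ≤ |θ' - θ| * 1 :=
      mul_le_mul_of_nonneg_left a2 (abs_nonneg _)
    linarith
  have hdQ : |Q' - Q| ≤ 2 * |D' - D| := by
    have e : Q' - Q = (2 * (D' + D - 1)) * (D' - D) := by rw [hQ, hQ']; ring
    rw [e, abs_mul]
    apply mul_le_mul_of_nonneg_right _ (abs_nonneg _)
    rw [abs_le]; constructor <;> linarith
  have hQ0 : Q ≠ 0 := by linarith
  have hQ0' : Q' ≠ 0 := by linarith
  have e1 : (1 + θ') * (2 * D' - 1) / Q' - (1 + θ) * (2 * D - 1) / Q =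
      (((1 + θ') * (2 * D' - 1) - (1 + θ) * (2 * D - 1)) * Q - ((1 + θ) * (2 * D - 1)) * (Q' - Q)) / (Q * Q') := by
    field_simp; ring
  rw [e1, abs_div, abs_of_pos (by positivity : 0 < Q * Q'), div_le_iff₀ (by positivity)]
  refine (abs_sub _ _).trans ?_
  rw [abs_mul, abs_mul, abs_of_pos (by linarith : 0 < Q)]
  have c1 : |(1 + θ') * (2 * D' - 1) - (1 + θ) * (2 * D - 1)| * Q ≤ (4 * |D' - D| + |θ' - θ|) * 1 :=
    mul_le_mul hdN hQ2 (by linarith) (by positivity)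
  have c2 : |(1 + θ) * (2 * D - 1)| * |Q' - Q| ≤ 2 * (2 * |D' - D|) :=
    mul_le_mul hN hdQ (abs_nonneg _) (by norm_num)
  have c3 : 1 / 4 ≤ Q * Q' := by nlinarith
  have c4 : 0 ≤ 32 * |D' - D| + 4 * |θ' - θ| := by positivity
  nlinarith [abs_nonneg (D' - D), abs_nonneg (θ' - θ)]

end Pool.Agent.KS6_58.KD
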