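import Mathlib
import Pool.Agent.KS6_58.KD.B4

set_option autoImplicit false

open MeasureTheory Filter Topology Set
open scoped ComplexConjugate Real

namespace Pool.Agent.KS6_58.KD

open Pool.Agent.H382R3.KD

/-- states of the construction -/
structure St (γ u v : ℝ) where
  j : ℤ
  l : ℤ
  M : ℤ
  L : ℤ
  hj : j ≠ 0
  hD : (j : ℝ) * γ + l ∈ Ioo u v
  hθ : |(M : ℝ) * γ + L| < 1

namespace St

variable {γ u v : ℝ}

/-- arc length -/
def D (σ : St γ u v) : ℝ := (σ.j : ℝ) * γ + σ.l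
/-- drift -/
def θ (σ : St γ u v) : ℝ := (σ.M : ℝ) * γ + σ.L
/-- jump -/
noncomputable def τ (σ : St γ u v) : ℝ := TT σ.D σ.θ
/-- transfer function -/
noncomputable def F (σ : St γ u v) : Circ → ℂ := Fz γ σ.τ σ.j σ.M

lemma norm_F (σ : St γ u v) (x : Circ) : ‖σ.F x‖ = 1 := norm_Fz _ _ _ _ _
lemma measurable_F (σ : St γ u v) : Measurable σ.F := measurable_Fz _ _ _ _

theorem step (hγ : Irrational γ) (hbad : ¬ BadlyApprox γ) (hu : 0 ≤ u) (hv : v ≤ 1) (σ : St γ u v)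
    {ε : ℝ} (hε : 0 < ε) (z : ℝ) :
    ∃ σ' : St γ u v, |σ'.D - σ.D| ≤ ε ∧ |σ'.θ - σ.θ| ≤ ε ∧ σ'.D ≠ z ∧
      ∃ c : ℂ, ‖c‖ = 1 ∧ ∫ x : Circ, ‖σ'.F x - c * σ.F x‖ ≤ ε := by
  have hpi := Real.pi_pos
  have hDu : u < σ.D := σ.hD.1
  have hDv : σ.D < v := σ.hD.2
  have hθ : |σ.θ| < 1 := σ.hθ
  -- choice of b, m
  obtain ⟨n, hn⟩ := exists_nat_gt (12 * π / ε)
  obtain ⟨m, b', hb0, hbn, hm⟩ := Real.exists_int_int_abs_mul_sub_le σ.τ (n := n + 1) (Nat.succ_pos n)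
  obtain ⟨b, rfl⟩ := Int.eq_ofNat_of_zero_le hb0.le
  simp only [Int.cast_natCast] at hm
  have hb1 : 1 ≤ b := by omega
  have hbR : (1 : ℝ) ≤ b := by exact_mod_cast hb1
  have hm2 : |σ.τ * b - m| ≤ ε / (12 * π) := by
    rw [mul_comm]
    refine hm.trans ?_
    push_cast
    rw [div_lt_iff₀ hε] at hn
    rw [div_le_div_iff₀ (by positivity) (by positivity)]
    nlinarith
  -- constants
  set A : ℝ := (32 * b + 4 * |(m : ℝ)|) * (|(σ.j : ℝ)| + b) + |σ.τ| * (b ^ 2 * 2) with hA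
  have hA0 : 0 ≤ A := by positivity
  set κ0 : ℝ := b + |(m : ℝ)| + 1 with hκ0
  have hκ1 : 0 < κ0 := by positivity
  obtain ⟨rz, hrz, hrz2⟩ : ∃ rz : ℝ, 0 < rz ∧ (σ.D ≠ z → rz ≤ |σ.D - z|) := by
    by_cases h : σ.D = z
    · exact ⟨1, one_pos, fun h2 => absurd h h2⟩
    · exact ⟨|σ.D - z|, abs_pos.2 (sub_ne_zero.2 h), fun _ => le_rfl⟩
  obtain ⟨ρ, hρ, hρ1, hρ2, hρ3, hρ4, hρ5⟩ : ∃ ρ : ℝ, 0 < ρ ∧ ρ ≤ σ.D - u ∧ ρ ≤ v - σ.D ∧ ρ ≤ 1 - |σ.θ| ∧
      ρ ≤ rz ∧ ρ ≤ ε := by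
    refine ⟨min (min (σ.D - u) (v - σ.D)) (min (1 - |σ.θ|) (min rz ε)), ?_, ?_, ?_, ?_, ?_, ?_⟩
    · apply lt_min (lt_min (by linarith) (by linarith)) (lt_min (by linarith) (lt_min hrz hε))
    · exact (min_le_left _ _).trans (min_le_left _ _)
    · exact (min_le_left _ _).trans (min_le_right _ _)
    · exact (min_le_right _ _).trans (min_le_left _ _)
    · exact (min_le_right _ _).trans ((min_le_right _ _).trans (min_le_left _ _))
    · exact (min_le_right _ _).trans ((min_le_right _ _).trans (min_le_right _ _))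
  obtain ⟨η, hη, hη1, hη2, hη3⟩ : ∃ η : ℝ, 0 < η ∧ η ≤ 1 / 4 ∧ 2 * π * (A * η) ≤ ε / 2 ∧ κ0 * η ≤ ρ := by
    refine ⟨min (1 / 4) (min (ε / (4 * π * (A + 1))) (ρ / κ0)), ?_, ?_, ?_, ?_⟩
    · apply lt_min (by norm_num) (lt_min (by positivity) (by positivity))
    · exact min_le_left _ _
    · have h1 : min (1 / 4) (min (ε / (4 * π * (A + 1))) (ρ / κ0)) ≤ ε / (4 * π * (A + 1)) :=
        (min_le_right _ _).trans (min_le_left _ _)
      calc 2 * π * (A * min (1 / 4) (min (ε / (4 * π * (A + 1))) (ρ / κ0)))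
          ≤ 2 * π * (A * (ε / (4 * π * (A + 1)))) := by gcongr
        _ = ε / 2 * (A / (A + 1)) := by field_simp; ring
        _ ≤ ε / 2 * 1 := by
            apply mul_le_mul_of_nonneg_left _ (by positivity)
            rw [div_le_one (by positivity)]; linarith
        _ = ε / 2 := mul_one _
    · have h1 : min (1 / 4) (min (ε / (4 * π * (A + 1))) (ρ / κ0)) ≤ ρ / κ0 :=
        (min_le_right _ _).trans (min_le_right _ _)
      rw [le_div_iff₀ hκ1] at h1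
      linarith
  obtain ⟨J, hJ, P, hcop, hJd, hd0⟩ := exists_good hγ hbad hη (σ.j.natAbs + 2)
  set d : ℝ := (J : ℝ) * γ + P with hd
  have hJ2 : 2 ≤ J := by omega
  have hJR : (1 : ℝ) ≤ J := by exact_mod_cast (by omega : 1 ≤ J)
  have hdJ : |d| ≤ J * |d| := by
    have := abs_nonneg d
    nlinarith
  have hdη : |d| < η := lt_of_le_of_lt hdJ hJd
  have hdpos : 0 < |d| := abs_pos.2 hd0
  have hκd : κ0 * |d| < ρ := lt_of_lt_of_le (mul_lt_mul_of_pos_left hdη hκ1) hη3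
  have hbd : (b : ℝ) * |d| < ρ := by
    refine lt_of_le_of_lt ?_ hκd
    apply mul_le_mul_of_nonneg_right _ (abs_nonneg _)
    rw [hκ0]; have := abs_nonneg (m : ℝ); linarith
  have hmd : |(m : ℝ)| * |d| < ρ := by
    refine lt_of_le_of_lt ?_ hκd
    apply mul_le_mul_of_nonneg_right _ (abs_nonneg _)
    rw [hκ0]; linarith
  have hD' : ((σ.j + b * J : ℤ) : ℝ) * γ + ((σ.l + b * P : ℤ) : ℝ) = σ.D + b * d := by
    rw [hd]; unfold D; push_cast; ring
  have hθ' : ((σ.M + m * J : ℤ) : ℝ) * γ + ((σ.L + m * P : ℤ) : ℝ) = σ.θ + m * d := by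
    rw [hd]; unfold θ; push_cast; ring
  have habsb : |(b : ℝ) * d| = b * |d| := by rw [abs_mul, Nat.abs_cast]
  have habsm : |(m : ℝ) * d| = |(m : ℝ)| * |d| := abs_mul _ _
  have hb1' := abs_lt.1 (lt_of_eq_of_lt habsb hbd)
  have hmθ : |σ.θ + m * d| < 1 := by
    refine lt_of_le_of_lt (abs_add_le _ _) ?_
    rw [habsm]; linarith
  let σ' : St γ u v :=
    { j := σ.j + b * J
      l := σ.l + b * P
      M := σ.M + m * J
      L := σ.L + m * P
      hj := by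
        intro h0
        have h1 : (J : ℤ) ≤ b * J := by nlinarith [(by omega : (1:ℤ) ≤ b), (by omega : (0:ℤ) ≤ J)]
        omega
      hD := by
        rw [hD']
        constructor <;> linarith [hb1'.1, hb1'.2]
      hθ := by
        rw [hθ']; exact hmθ }
  have eD : σ'.D = σ.D + b * d := hD'
  have eθ : σ'.θ = σ.θ + m * d := hθ'
  refine ⟨σ', ?_, ?_, ?_, ?_⟩
  · rw [eD, add_sub_cancel_left, habsb]; linarith
  · rw [eθ, add_sub_cancel_left, habsm]; linarith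
  · rw [eD]
    intro hz
    by_cases h : σ.D = z
    · have : (b : ℝ) * d = 0 := by linarith
      rcases mul_eq_zero.1 this with h2 | h2
      · linarith
      · exact hd0 h2
    · have h1 := hrz2 h
      have h2 : |σ.D - z| = b * |d| := by
        rw [← habsb, ← hz, sub_add_cancel_left, abs_neg]
      linarith
  · obtain ⟨c, hc, hest⟩ := step_est hJ2 hcop hd (by linarith) b σ.j σ.M m σ.τ σ'.τ
    refine ⟨c, hc, ?_⟩
    have e1 : ∫ x : Circ, ‖σ'.F x - c * σ.F x‖ =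
        ∫ x : Circ, ‖Fz γ σ'.τ (σ.j + b * J) (σ.M + m * J) x - c * Fz γ σ.τ σ.j σ.M x‖ := rfl
    rw [e1]
    refine hest.trans ?_
    have hτ : |σ'.τ - σ.τ| ≤ (32 * b + 4 * |(m : ℝ)|) * |d| := by
      have h1 := TT_lip (D := σ.D) (D' := σ'.D) (θ := σ.θ) (θ' := σ'.θ) (by linarith) (by linarith)
        (by have := σ'.hD.1; unfold D; linarith) (by have := σ'.hD.2; unfold D; linarith)
        hθ.le (by have := σ'.hθ; unfold θ; exact this.le)
      rw [eD, eθ, add_sub_cancel_left, add_sub_cancel_left, habsb, habsm] at h1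
      have e2 : σ'.τ - σ.τ = TT (σ.D + b * d) (σ.θ + m * d) - TT σ.D σ.θ := by
        unfold τ; rw [eD, eθ]
      rw [e2]
      refine h1.trans (le_of_eq ?_)
      ring
    have hj1 : |(σ.j : ℝ)| + b * J ≤ (|(σ.j : ℝ)| + b) * J := by
      have := abs_nonneg (σ.j : ℝ)
      nlinarith
    have h3 : |σ'.τ - σ.τ| * (|(σ.j : ℝ)| + b * J) ≤
        ((32 * b + 4 * |(m : ℝ)|) * (|(σ.j : ℝ)| + b)) * (J * |d|) := by
      calc |σ'.τ - σ.τ| * (|(σ.j : ℝ)| + b * J)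
          ≤ ((32 * b + 4 * |(m : ℝ)|) * |d|) * ((|(σ.j : ℝ)| + b) * J) :=
            mul_le_mul hτ hj1 (by positivity) (by positivity)
        _ = _ := by ring
    have h4 : |σ'.τ - σ.τ| * (|(σ.j : ℝ)| + b * J) + |σ.τ| * (b ^ 2 * (J * (2 * |d|))) ≤ A * η := by
      have : A * (J * |d|) ≤ A * η := mul_le_mul_of_nonneg_left hJd.le hA0
      refine le_trans ?_ this
      rw [hA]
      have e3 : ((32 * b + 4 * |(m : ℝ)|) * (|(σ.j : ℝ)| + b) + |σ.τ| * (b ^ 2 * 2)) * (J * |d|) =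
        ((32 * b + 4 * |(m : ℝ)|) * (|(σ.j : ℝ)| + b)) * (J * |d|) + |σ.τ| * (b ^ 2 * (J * (2 * |d|))) := by
        ring
      rw [e3]
      linarith
    have h5 : 2 * π * (|σ.τ * b - m| * 3) ≤ ε / 2 := by
      calc 2 * π * (|σ.τ * b - m| * 3) ≤ 2 * π * (ε / (12 * π) * 3) := by gcongr
        _ = ε / 2 := by field_simp; ring
    calc 2 * π * (|σ'.τ - σ.τ| * (|(σ.j : ℝ)| + b * J) + |σ.τ| * (b ^ 2 * (J * (2 * |d|))) + |σ.τ * b - m| * 3)
        ≤ 2 * π * (A * η + |σ.τ * b - m| * 3) := by gcongr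
      _ = 2 * π * (A * η) + 2 * π * (|σ.τ * b - m| * 3) := by ring
      _ ≤ ε := by linarith

end St

end Pool.Agent.KS6_58.KD
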