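import Mathlib
import Pool.Agent.KS6_58.KD.B5

set_option autoImplicit false

open MeasureTheory Filter Topology Set
open scoped ComplexConjugate Real

namespace Pool.Agent.KS6_58.KD

open Pool.Agent.H382R3.KD

/-- simultaneous recurrence -/
lemma recur {ι : Type*} (I : Finset ι) {z : ι → ℂ} (hz : ∀ i, ‖z i‖ = 1) (N0 : ℕ) {ε : ℝ} (hε : 0 < ε) :
    ∃ N : ℕ, N0 ≤ N ∧ 0 < N ∧ ∀ i ∈ I, ‖z i ^ N - 1‖ < ε := by
  let x : ℕ → (I → ℂ) := fun k i => z i ^ k
  have hx : ∀ k, x k ∈ Metric.closedBall (0 : I → ℂ) 1 := by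
    intro k
    rw [mem_closedBall_zero_iff, pi_norm_le_iff_of_nonneg zero_le_one]
    intro i
    simp only [x]
    rw [norm_pow, hz, one_pow]
  obtain ⟨a, -, φ, hφ, hlim⟩ := (isCompact_closedBall (0 : I → ℂ) 1).tendsto_subseq hx
  obtain ⟨K, hK⟩ := Metric.cauchySeq_iff.1 hlim.cauchySeq ε hε
  have hgap : ∀ m : ℕ, φ K + m ≤ φ (K + m) := by
    intro m
    induction m with
    | zero => simp
    | succ m ih =>
      have := hφ (show K + m < K + (m + 1) by omega)
      omega
  have h1 := hgap (N0 + 1)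
  refine ⟨φ (K + (N0 + 1)) - φ K, by omega, by omega, fun i hi => ?_⟩
  have h2 := hK (K + (N0 + 1)) (by omega) K le_rfl
  have h3 := (dist_le_pi_dist ((x ∘ φ) (K + (N0 + 1))) ((x ∘ φ) K) ⟨i, hi⟩).trans_lt h2
  simp only [Function.comp, x] at h3
  rw [dist_eq_norm] at h3
  have e : z i ^ φ (K + (N0 + 1)) - z i ^ φ K = z i ^ φ K * (z i ^ (φ (K + (N0 + 1)) - φ K) - 1) := by
    rw [mul_sub, mul_one, ← pow_add]
    congr 2
    omega
  rw [e, norm_mul, norm_pow, hz, one_pow, one_mul] at h3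
  exact h3

/-- sums of fractional parts over a finite set -/
noncomputable def SI (I : Finset ℤ) (a : Circ) (x : Circ) : ℝ := ∑ i ∈ I, fr (x + i • a)

/-- counting function -/
noncomputable def KI (I : Finset ℤ) (a : Circ) (h : ℝ) (x : Circ) : ℝ := ∑ i ∈ I, ind h (x + i • a)

lemma measurable_SI (I : Finset ℤ) (a : Circ) : Measurable (SI I a) := by
  unfold SI
  exact Finset.measurable_fun_sum _ (fun i _ => measurable_fr.comp (measurable_add_const _))

lemma measurable_KI (I : Finset ℤ) (a : Circ) (h : ℝ) : Measurable (KI I a h) := by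
  unfold KI
  exact Finset.measurable_fun_sum _ (fun i _ => (measurable_ind h).comp (measurable_add_const _))

lemma fr_sub_small {h : ℝ} (h0 : 0 < h) (h1 : h < 1) (y : Circ) :
    fr (y - (h : Circ)) = fr y - h + ind h y := by
  have := fr_sub y h0 h1
  unfold ind; linarith

lemma SI_shift (I : Finset ℤ) (a : Circ) {h : ℝ} (h0 : 0 < h) (h1 : h < 1) (x : Circ) :
    SI I a (x - (h : Circ)) = SI I a x - I.card * h + KI I a h x := by
  unfold SI KI
  have : ∀ i ∈ I, fr (x - (h : Circ) + i • a) = (fr (x + i • a) - h) + ind h (x + i • a) := by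
    intro i _
    rw [show x - (h : Circ) + i • a = x + i • a - (h : Circ) by abel, fr_sub_small h0 h1]
  rw [Finset.sum_congr rfl this, Finset.sum_add_distrib, Finset.sum_sub_distrib]
  simp

lemma fr_add_small {y : Circ} {t : ℝ} (ht : 0 ≤ t) (h : fr y + t < 1) : fr (y + (t : Circ)) = fr y + t := by
  have e : y + (t : Circ) = ((fr y + t : ℝ) : Circ) := by rw [AddCircle.coe_add, coe_fr]
  rw [e, fr_coe, Int.fract_eq_iff]
  exact ⟨by linarith [fr_nonneg y], h, 0, by simp⟩

lemma fr_pos_of_ne {γ : ℝ} (hγ : Irrational γ) {k : ℤ} (hk : k ≠ 0) : 0 < fr (k • (γ : Circ)) := by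
  apply lt_of_le_of_ne (fr_nonneg _)
  intro h
  have h1 : k • (γ : Circ) = 0 := by
    rw [← coe_fr (k • (γ : Circ)), ← h]; simp
  have h2 := addOrderOf_irr hγ
  rw [addOrderOf_eq_zero_iff, isOfFinAddOrder_iff_zsmul_eq_zero] at h2
  exact h2 ⟨k, hk, h1⟩

/-- the powers of the model transfer functions have non zero mean infinitely often -/
theorem lemmaP' {γ τ : ℝ} (hγ : Irrational γ) (hτ : Irrational τ) {I : Finset ℤ} (hI : I.Nonempty) (M : ℤ)
    (N0 : ℕ) : ∃ N : ℕ, N0 ≤ N ∧ ∫ x : Circ, (ex (τ * SI I (γ : Circ) x + M * fr x)) ^ N ≠ 0 := by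
  classical
  have hpi := Real.pi_pos
  set a : Circ := (γ : Circ) with ha
  set g : Circ → ℂ := fun x => ex (τ * SI I a x + M * fr x) with hg
  have hg1 : ∀ x, ‖g x‖ = 1 := fun x => norm_ex _
  obtain ⟨N, hN0, hNpos, hN⟩ := recur I (z := fun i : ℤ => g (-(i • a))) (fun i => hg1 _) N0
    (show (0 : ℝ) < 1 / 4 by norm_num)
  refine ⟨N, hN0, fun hzero => ?_⟩
  have hNR : (0 : ℝ) < N := by exact_mod_cast hNpos
  have hpow : ∀ (n : ℕ) (t : ℝ), ex t ^ n = ex (n * t) := by
    intro n t
    induction n with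
    | zero => simp [ex_zero]
    | succ n ih =>
      rw [pow_succ, ih, ← ex_add]
      congr 1
      push_cast; ring
  have hcard : 0 < I.card := hI.card_pos
  have hcR : (0 : ℝ) < I.card := by exact_mod_cast hcard
  -- the small parameter
  obtain ⟨ρ, hρ0, hρ1, hρ⟩ : ∃ ρ : ℝ, 0 < ρ ∧ ρ < 1 ∧ ∀ i ∈ I, ∀ i' ∈ I,
      (ρ < 1 - fr ((i' - i) • a)) ∧ (i ≠ i' → ρ < fr ((i' - i) • a)) := by
    have hev : ∀ᶠ n : ℕ in atTop, (1 / ((n : ℝ) + 1) < 1) ∧ ∀ p ∈ I ×ˢ I,
        (1 / ((n : ℝ) + 1) < 1 - fr ((p.2 - p.1) • a)) ∧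
        (p.1 ≠ p.2 → 1 / ((n : ℝ) + 1) < fr ((p.2 - p.1) • a)) := by
      have ht := tendsto_one_div_add_atTop_nhds_zero_nat (𝕜 := ℝ)
      refine (ht.eventually_lt_const one_pos).and ?_
      rw [Filter.eventually_all_finset]
      intro p _
      refine (ht.eventually_lt_const (by linarith [fr_lt_one ((p.2 - p.1) • a)])).and ?_
      by_cases hp : p.1 = p.2
      · exact Eventually.of_forall (fun n h => absurd hp h)
      · have := fr_pos_of_ne hγ (k := p.2 - p.1) (by omega)
        filter_upwards [ht.eventually_lt_const this] with n hn _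
        exact hn
    obtain ⟨n, hn1, hn2⟩ := hev.exists
    refine ⟨1 / ((n : ℝ) + 1), by positivity, hn1, fun i hi i' hi' => ?_⟩
    exact hn2 (i, i') (Finset.mk_mem_product hi hi')
  set σ : ℝ := N * (τ * I.card + M) with hσ
  obtain ⟨h, hh0, hhρ, hhσ⟩ : ∃ h : ℝ, 0 < h ∧ h ≤ ρ ∧ 2 * π * (|σ| * h) ≤ 1 / 4 := by
    refine ⟨min ρ (1 / (8 * π * (|σ| + 1))), lt_min hρ0 (by positivity), min_le_left _ _, ?_⟩
    have h1 : min ρ (1 / (8 * π * (|σ| + 1))) ≤ 1 / (8 * π * (|σ| + 1)) := min_le_right _ _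
    calc 2 * π * (|σ| * min ρ (1 / (8 * π * (|σ| + 1)))) ≤ 2 * π * (|σ| * (1 / (8 * π * (|σ| + 1)))) := by
          gcongr
      _ = 1 / 4 * (|σ| / (|σ| + 1)) := by field_simp; ring
      _ ≤ 1 / 4 * 1 := by
          apply mul_le_mul_of_nonneg_left _ (by norm_num)
          rw [div_le_one (by positivity)]; linarith
      _ = 1 / 4 := mul_one _
  have hh1 : h < 1 := by linarith
  set G : Circ → ℂ := fun x => g x ^ N with hG
  have hGe : ∀ x, G x = ex (N * (τ * SI I a x + M * fr x)) := fun x => hpow N _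
  have hGm : Measurable G := by
    have : Measurable g := continuous_ex.measurable.comp
      (((measurable_SI I a).const_mul τ).add (measurable_fr.const_mul _))
    exact this.pow_const N
  have hG1 : ∀ x, ‖G x‖ = 1 := fun x => by
    simp only [hG]; rw [norm_pow, hg1, one_pow]
  -- structure at a point where some term is small
  have hloc : ∀ x : Circ, ∀ i ∈ I, fr (x + i • a) < h →
      KI I a h x = 1 ∧ ‖G x - 1‖ ≤ 1 / 2 := by
    intro x i hi hix
    set t : ℝ := fr (x + i • a) with ht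
    have ht0 : 0 ≤ t := fr_nonneg _
    have hx : x = -(i • a) + (t : Circ) := by rw [ht, coe_fr]; abel
    have hfr : ∀ i' ∈ I, fr (x + i' • a) = fr (-(i • a) + i' • a) + t := by
      intro i' hi'
      have e1 : x + i' • a = (-(i • a) + i' • a) + (t : Circ) := by rw [hx]; abel
      rw [e1]
      apply fr_add_small ht0
      have := (hρ i hi i' hi').1
      have e2 : (i' - i) • a = -(i • a) + i' • a := by rw [sub_smul]; abel
      rw [e2] at this
      linarith
    constructor
    · unfold KI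
      rw [Finset.sum_eq_single i]
      · unfold ind; rw [if_pos hix]
      · intro i' hi' hne
        unfold ind
        rw [if_neg]
        rw [hfr i' hi']
        have := (hρ i hi i' hi').2 (Ne.symm hne)
        have e2 : (i' - i) • a = -(i • a) + i' • a := by rw [sub_smul]; abel
        rw [e2] at this
        intro hlt
        linarith
      · intro hni; exact absurd hi hni
    · have hS : SI I a x = SI I a (-(i • a)) + I.card * t := by
        unfold SI
        rw [Finset.sum_congr rfl hfr, Finset.sum_add_distrib]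
        simp
      obtain ⟨n, hn⟩ : ∃ n : ℤ, fr x = fr (-(i • a)) + t + n := by
        have h2 : ((fr x - fr (-(i • a)) - t : ℝ) : Circ) = 0 := by
          rw [AddCircle.coe_sub, AddCircle.coe_sub, coe_fr, coe_fr]
          conv_lhs => rw [hx]
          abel
        rw [AddCircle.coe_eq_zero_iff] at h2
        obtain ⟨n, hn⟩ := h2
        simp only [zsmul_eq_mul, mul_one] at hn
        exact ⟨n, by linarith⟩
      have e1 : G x = G (-(i • a)) * ex (σ * t) := by
        rw [hGe, hGe, ← ex_add]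
        apply ex_congr
        refine ⟨N * M * n, ?_⟩
        rw [hS, hn, hσ]
        push_cast
        ring
      have e2 : G x - 1 = G (-(i • a)) * (ex (σ * t) - ex 0) + (G (-(i • a)) - 1) := by
        rw [e1, ex_zero]; ring
      rw [e2]
      refine (norm_add_le _ _).trans ?_
      rw [norm_mul, hG1, one_mul]
      have h3 := norm_ex_sub (σ * t) 0
      rw [sub_zero, abs_mul, abs_of_nonneg ht0] at h3
      have h4 : 2 * π * (|σ| * t) ≤ 2 * π * (|σ| * h) := by gcongr
      have h5 := hN i hi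
      have h6 : ‖G (-(i • a)) - 1‖ < 1 / 4 := h5
      linarith
  have hK01 : ∀ x : Circ, KI I a h x = 0 ∨ (KI I a h x = 1 ∧ ‖G x - 1‖ ≤ 1 / 2) := by
    intro x
    by_cases hex : ∃ i ∈ I, fr (x + i • a) < h
    · obtain ⟨i, hi, hix⟩ := hex
      exact Or.inr (hloc x i hi hix)
    · push Not at hex
      left
      unfold KI
      apply Finset.sum_eq_zero
      intro i hi
      unfold ind
      rw [if_neg (not_lt.2 (hex i hi))]
  -- the shift identity
  have hshift : ∀ x : Circ, G (x - (h : Circ)) = ex (-(σ * h)) * (G x + (ex (N * τ) - 1) * (KI I a h x * G x)) := by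
    intro x
    have e1 : G (x - (h : Circ)) = ex (-(σ * h)) * (G x * ex (N * τ * KI I a h x)) := by
      rw [hGe, hGe, ← ex_add, ← ex_add]
      apply ex_congr
      have h2 := fr_sub_small hh0 hh1 x
      obtain ⟨n, hn⟩ : ∃ n : ℤ, ind h x = n := by
        unfold ind
        split_ifs
        · exact ⟨1, by simp⟩
        · exact ⟨0, by simp⟩
      refine ⟨N * M * n, ?_⟩
      rw [SI_shift I a hh0 hh1, h2, hn, hσ]
      push_cast
      ring
    rw [e1]
    rcases hK01 x with h2 | ⟨h2, -⟩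
    · rw [h2]; simp [ex_zero]
    · rw [h2]; simp only [mul_one, Complex.ofReal_one, one_mul]; ring
  have hGi : Integrable G := integrable_of_bddC hGm (fun x => (hG1 x).le)
  have hKb : ∀ x : Circ, |KI I a h x| ≤ 1 := by
    intro x
    rcases hK01 x with h2 | ⟨h2, -⟩ <;> rw [h2] <;> simp
  have hKGi : Integrable (fun x : Circ => (KI I a h x : ℂ) * G x) :=
    integrable_of_bddC ((Complex.measurable_ofReal.comp (measurable_KI I a h)).mul hGm) (B := 1) (fun x => by
      rw [norm_mul, hG1, mul_one, Complex.norm_real]; exact hKb x)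
  have hint : ∫ x : Circ, G x = ex (-(σ * h)) * ((∫ x : Circ, G x) + (ex (N * τ) - 1) * ∫ x : Circ, (KI I a h x : ℂ) * G x) := by
    conv_lhs => rw [← integral_sub_right_eq_self G (h : Circ)]
    simp_rw [hshift]
    rw [integral_const_mul, integral_add hGi (hKGi.const_mul _), integral_const_mul]
  have hz : ∫ x : Circ, G x = 0 := hzero
  rw [hz, zero_add] at hint
  have hne1 : ex (-(σ * h)) ≠ 0 := ex_ne_zero _
  have hne2 : ex (N * τ) - 1 ≠ 0 := by
    intro h2
    obtain ⟨n, hn⟩ := ex_eq_one (sub_eq_zero.1 h2)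
    apply hτ
    refine ⟨(n : ℚ) / N, ?_⟩
    push_cast
    rw [div_eq_iff hNR.ne', ← hn]; ring
  have hKG : ∫ x : Circ, (KI I a h x : ℂ) * G x = 0 := by
    rcases mul_eq_zero.1 hint.symm with h2 | h2
    · exact absurd h2 hne1
    · rcases mul_eq_zero.1 h2 with h3 | h3
      · exact absurd h3 hne2
      · exact h3
  have hre : (∫ x : Circ, (KI I a h x : ℂ) * G x).re = ∫ x : Circ, ((KI I a h x : ℂ) * G x).re :=
    (integral_re hKGi).symm
  have hKint : ∫ x : Circ, KI I a h x = I.card * h := by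
    unfold KI
    rw [integral_finsetSum _ (fun i _ => (integrable_ind h).comp_add_right (i • a))]
    simp_rw [integral_ind hh0 hh1]
    simp
  have hKi : Integrable (fun x : Circ => KI I a h x) := integrable_of_bdd (measurable_KI I a h) hKb
  have hge : 1 / 2 * (I.card * h) ≤ ∫ x : Circ, ((KI I a h x : ℂ) * G x).re := by
    rw [← hKint, ← integral_const_mul]
    apply integral_mono (hKi.const_mul _) hKGi.re
    intro x
    simp only
    show 1 / 2 * KI I a h x ≤ ((KI I a h x : ℂ) * G x).re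
    rcases hK01 x with h2 | ⟨h2, h3⟩
    · rw [h2]; simp
    · rw [h2]
      simp only [Complex.ofReal_one, one_mul, mul_one]
      have h4 := (Complex.abs_re_le_norm (G x - 1)).trans h3
      rw [Complex.sub_re, Complex.one_re, abs_le] at h4
      linarith [h4.1]
  rw [← hre, hKG] at hge
  simp only [Complex.zero_re] at hge
  have : 0 < 1 / 2 * ((I.card : ℝ) * h) := mul_pos (by norm_num) (mul_pos hcR hh0)
  linarith

/-- the same for the transfer functions `Fz` -/
theorem lemmaP {γ τ : ℝ} (hγ : Irrational γ) (hτ : Irrational τ) {j : ℤ} (hj : j ≠ 0) (M : ℤ)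
    (N0 : ℕ) : ∃ N : ℕ, N0 ≤ N ∧ ∫ x : Circ, (Fz γ τ j M x) ^ N ≠ 0 := by
  rcases lt_or_gt_of_ne hj with hneg | hpos
  · have hI : (Finset.Ico (0 : ℤ) (-j)).Nonempty := ⟨0, by rw [Finset.mem_Ico]; omega⟩
    obtain ⟨N, hN, h⟩ := lemmaP' hγ hτ hI M N0
    refine ⟨N, hN, ?_⟩
    have e : ∀ x : Circ, Fz γ τ j M x = ex (τ * SI (Finset.Ico (0 : ℤ) (-j)) (γ : Circ) x + M * fr x) := by
      intro x
      unfold Fz birk SI
      rw [Finset.Ico_eq_empty_of_le (show (0 : ℤ) ≤ -j by omega)]
      simp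
    simp_rw [e]
    exact h
  · have hI : (Finset.Ico (-j) (0 : ℤ)).Nonempty := ⟨-j, by rw [Finset.mem_Ico]; omega⟩
    obtain ⟨N, hN, h⟩ := lemmaP' hγ hτ.neg hI M N0
    refine ⟨N, hN, ?_⟩
    have e : ∀ x : Circ, Fz γ τ j M x = ex (-τ * SI (Finset.Ico (-j) (0 : ℤ)) (γ : Circ) x + M * fr x) := by
      intro x
      unfold Fz birk SI
      rw [Finset.Ico_eq_empty_of_le (show -j ≤ (0 : ℤ) by omega)]
      simp
    simp_rw [e]
    exact h

end Pool.Agent.KS6_58.KD
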