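import Mathlib
import Pool.Agent.KS6_58.KD.B6

set_option autoImplicit false

open MeasureTheory Filter Topology Set
open scoped ComplexConjugate Real

namespace Pool.Agent.KS6_58.KD

open Pool.Agent.H382R3.KD

section seq

variable {e : ℕ → ℝ} (he0 : ∀ k, 0 ≤ e k) (he : ∀ k, e (k + 1) ≤ e k / 2)

include he0 he

lemma e_le (k : ℕ) : e k ≤ e 0 * (1 / 2) ^ k := by
  induction k with
  | zero => simp
  | succ k ih =>
    refine (he k).trans ?_
    rw [pow_succ]
    have := he0 0
    linarith

lemma e_tendsto : Tendsto e atTop (𝓝 0) := by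
  have h1 : Tendsto (fun k : ℕ => e 0 * (1 / 2 : ℝ) ^ k) atTop (𝓝 (e 0 * 0)) :=
    (tendsto_pow_atTop_nhds_zero_of_lt_one (by norm_num) (by norm_num)).const_mul _
  rw [mul_zero] at h1
  exact squeeze_zero he0 (e_le he0 he) h1

lemma seq_limit {f : ℕ → ℝ} (hf : ∀ k, |f (k + 1) - f k| ≤ e k / 2) :
    ∃ a : ℝ, Tendsto f atTop (𝓝 a) ∧ ∀ k, |a - f k| ≤ e k := by
  have h1 : ∀ k n : ℕ, |f (k + n) - f k| ≤ e k - e (k + n) := by
    intro k n
    induction n with
    | zero => simp
    | succ n ih =>
      have h2 := hf (k + n)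
      have h3 := he (k + n)
      have h4 : f (k + (n + 1)) - f k = (f (k + n + 1) - f (k + n)) + (f (k + n) - f k) := by
        rw [← add_assoc]; ring
      rw [h4, ← add_assoc]
      refine (abs_add_le _ _).trans ?_
      linarith
  have h2 : ∀ k n : ℕ, |f (k + n) - f k| ≤ e k := fun k n => by
    have := h1 k n; have := he0 (k + n); linarith
  have hc : CauchySeq f := by
    apply cauchySeq_of_le_tendsto_0 (fun N => 2 * e N)
    · intro n m N hn hm
      obtain ⟨a, rfl⟩ := Nat.exists_eq_add_of_le hn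
      obtain ⟨b, rfl⟩ := Nat.exists_eq_add_of_le hm
      rw [Real.dist_eq]
      have e1 : f (N + a) - f (N + b) = (f (N + a) - f N) - (f (N + b) - f N) := by ring
      rw [e1]
      refine (abs_sub _ _).trans ?_
      linarith [h2 N a, h2 N b]
    · have := (e_tendsto he0 he).const_mul 2
      rwa [mul_zero] at this
  obtain ⟨a, ha⟩ := cauchySeq_tendsto_of_complete hc
  refine ⟨a, ha, fun k => ?_⟩
  have h3 : Tendsto (fun n : ℕ => |f (k + n) - f k|) atTop (𝓝 |a - f k|) := by
    have h4 : Tendsto (fun n : ℕ => f (k + n)) atTop (𝓝 a) := by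
      have := (tendsto_add_atTop_iff_nat k).2 ha
      simp_rw [add_comm k]
      exact this
    exact (h4.sub_const _).abs
  exact le_of_tendsto' h3 (h2 k)

lemma L1lim {w : ℕ → Circ → ℂ} (hw : ∀ k, Measurable (w k)) (hw1 : ∀ k x, ‖w k x‖ = 1)
    (hd : ∀ k, ∫ x : Circ, ‖w (k + 1) x - w k x‖ ≤ e k / 2) :
    ∃ U : Circ → ℂ, Measurable U ∧ (∀ x, ‖U x‖ = 1) ∧
      (∀ᵐ x : Circ, Tendsto (fun k => w k x) atTop (𝓝 (U x))) ∧
      ∀ k, ∫ x : Circ, ‖U x - w k x‖ ≤ e k := by
  classical
  set b : ℕ → Circ → ℝ := fun k x => ‖w (k + 1) x - w k x‖ with hb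
  have hbm : ∀ k, Measurable (b k) := fun k => ((hw (k + 1)).sub (hw k)).norm
  have hdb : ∀ k m x, ‖w k x - w m x‖ ≤ 2 := fun k m x => by
    refine (norm_sub_le _ _).trans ?_
    rw [hw1, hw1]; norm_num
  have hbi : ∀ k m, Integrable (fun x => ‖w k x - w m x‖) := fun k m =>
    integrable_of_bdd (((hw k).sub (hw m)).norm) (B := 2) (fun x => by
      rw [abs_of_nonneg (norm_nonneg _)]; exact hdb k m x)
  have hsum : Summable (fun k => ∫ x : Circ, b k x) := by
    apply summable_of_sum_range_le (c := e 0) (fun k => integral_nonneg (fun _ => norm_nonneg _))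
    intro n
    have h1 : ∀ n : ℕ, ∑ k ∈ Finset.range n, ∫ x : Circ, b k x ≤ e 0 - e n := by
      intro n
      induction n with
      | zero => simp
      | succ n ih =>
        rw [Finset.sum_range_succ]
        have h2 := hd n
        have h3 := he n
        have h4 : ∫ x : Circ, b n x ≤ e n / 2 := h2
        linarith
    have := h1 n
    have := he0 n
    linarith
  have hlin : ∑' k, ∫⁻ x : Circ, ENNReal.ofReal (b k x) ≠ ⊤ := by
    have e1 : ∀ k, ∫⁻ x : Circ, ENNReal.ofReal (b k x) = ENNReal.ofReal (∫ x : Circ, b k x) := by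
      intro k
      rw [ofReal_integral_eq_lintegral_ofReal (hbi (k + 1) k) (Eventually.of_forall (fun _ => norm_nonneg _))]
    simp_rw [e1]
    exact hsum.tsum_ofReal_ne_top
  have hlin2 : ∫⁻ x : Circ, ∑' k, ENNReal.ofReal (b k x) ≠ ⊤ := by
    have hm2 : ∀ k, AEMeasurable (fun x : Circ => ENNReal.ofReal (b k x)) := fun k =>
      (ENNReal.measurable_ofReal.comp (hbm k)).aemeasurable
    rw [lintegral_tsum hm2]
    exact hlin
  have hm3 : Measurable (fun x : Circ => ∑' k, ENNReal.ofReal (b k x)) :=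
    Measurable.tsum (fun k => ENNReal.measurable_ofReal.comp (hbm k))
  have hae := ae_lt_top hm3 hlin2
  have hconv : ∀ᵐ x : Circ, ∃ l, Tendsto (fun k => w k x) atTop (𝓝 l) := by
    filter_upwards [hae] with x hx
    have hs : Summable (fun k => b k x) := by
      have h1 : ∀ k, ENNReal.ofReal (b k x) ≠ ⊤ := fun k => ENNReal.ofReal_ne_top
      have h2 := ENNReal.summable_toReal hx.ne
      refine h2.congr (fun k => ?_)
      exact ENNReal.toReal_ofReal (norm_nonneg _)
    have hc : CauchySeq (fun k => w k x) := by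
      apply cauchySeq_of_summable_dist
      refine hs.congr (fun k => ?_)
      rw [hb, dist_comm, dist_eq_norm]
    exact cauchySeq_tendsto_of_complete hc
  obtain ⟨U0, hU0m, hU0⟩ := measurable_limit_of_tendsto_metrizable_ae
    (fun k => (hw k).aemeasurable) hconv
  set U : Circ → ℂ := fun x => if ‖U0 x‖ = 1 then U0 x else 1 with hU
  have hUm : Measurable U := Measurable.ite (hU0m.norm (measurableSet_singleton 1)) hU0m measurable_const
  have hU1 : ∀ x, ‖U x‖ = 1 := by
    intro x
    rw [hU]
    simp only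
    split_ifs with h
    · exact h
    · simp
  have hUt : ∀ᵐ x : Circ, Tendsto (fun k => w k x) atTop (𝓝 (U x)) := by
    filter_upwards [hU0] with x hx
    have h1 : ‖U0 x‖ = 1 := by
      have h2 := hx.norm
      simp_rw [hw1] at h2
      exact (tendsto_nhds_unique h2 tendsto_const_nhds)
    rw [hU]
    simp only
    rw [if_pos h1]
    exact hx
  refine ⟨U, hUm, hU1, hUt, fun k => ?_⟩
  have hfin : ∀ n : ℕ, ∫ x : Circ, ‖w (k + n) x - w k x‖ ≤ e k - e (k + n) := by
    intro n
    induction n with
    | zero => simp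
    | succ n ih =>
      have h2 := hd (k + n)
      have h3 := he (k + n)
      have h4 : ∫ x : Circ, ‖w (k + (n + 1)) x - w k x‖ ≤
          (∫ x : Circ, ‖w (k + n + 1) x - w (k + n) x‖) + ∫ x : Circ, ‖w (k + n) x - w k x‖ := by
        rw [← integral_add (hbi _ _) (hbi _ _)]
        apply integral_mono_of_nonneg
        · exact Eventually.of_forall (fun _ => norm_nonneg _)
        · exact (hbi _ _).add (hbi _ _)
        · refine Eventually.of_forall (fun x => ?_)
          simp only
          have e1 : w (k + (n + 1)) x - w k x = (w (k + n + 1) x - w (k + n) x) + (w (k + n) x - w k x) := by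
            rw [← add_assoc]; ring
          rw [e1]
          exact norm_add_le _ _
      rw [← add_assoc]
      rw [← add_assoc] at h4
      linarith
  have hlim : Tendsto (fun n : ℕ => ∫ x : Circ, ‖w (k + n) x - w k x‖) atTop
      (𝓝 (∫ x : Circ, ‖U x - w k x‖)) := by
    apply tendsto_integral_of_dominated_convergence (fun _ => (2 : ℝ))
    · intro n
      exact (((hw (k + n)).sub (hw k)).norm).aestronglyMeasurable
    · exact integrable_const _
    · intro n
      refine Eventually.of_forall (fun x => ?_)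
      rw [norm_norm]; exact hdb _ _ x
    · filter_upwards [hUt] with x hx
      have h4 : Tendsto (fun n : ℕ => w (k + n) x) atTop (𝓝 (U x)) := by
        have := (tendsto_add_atTop_iff_nat k).2 hx
        simp_rw [add_comm k]
        exact this
      exact (h4.sub_const _).norm
  refine le_of_tendsto' hlim (fun n => ?_)
  have := hfin n
  have := he0 (k + n)
  linarith

end seq

lemma pow_sub_le {z w : ℂ} (hz : ‖z‖ = 1) (hw : ‖w‖ = 1) (N : ℕ) : ‖z ^ N - w ^ N‖ ≤ N * ‖z - w‖ := by
  induction N with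
  | zero => simp
  | succ N ih =>
    have e1 : z ^ (N + 1) - w ^ (N + 1) = z ^ N * (z - w) + (z ^ N - w ^ N) * w := by ring
    rw [e1]
    refine (norm_add_le _ _).trans ?_
    rw [norm_mul, norm_mul, norm_pow, hz, hw, one_pow, one_mul, mul_one]
    push_cast
    linarith

lemma int_pow_sub {U w : Circ → ℂ} (hU : Measurable U) (hw : Measurable w) (hU1 : ∀ x, ‖U x‖ = 1)
    (hw1 : ∀ x, ‖w x‖ = 1) (N : ℕ) :
    ‖(∫ x : Circ, U x ^ N) - ∫ x : Circ, w x ^ N‖ ≤ N * ∫ x : Circ, ‖U x - w x‖ := by
  have hi1 : Integrable (fun x => U x ^ N) := integrable_of_bddC (hU.pow_const N) (B := 1) (fun x => by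
    rw [norm_pow, hU1, one_pow])
  have hi2 : Integrable (fun x => w x ^ N) := integrable_of_bddC (hw.pow_const N) (B := 1) (fun x => by
    rw [norm_pow, hw1, one_pow])
  have hi3 : Integrable (fun x => ‖U x - w x‖) := integrable_of_bdd ((hU.sub hw).norm) (B := 2) (fun x => by
    rw [abs_of_nonneg (norm_nonneg _)]
    refine (norm_sub_le _ _).trans ?_
    rw [hU1, hw1]; norm_num)
  rw [← integral_sub hi1 hi2, ← integral_const_mul]
  apply norm_integral_le_of_norm_le (hi3.const_mul _)
  exact Eventually.of_forall (fun x => pow_sub_le (hU1 x) (hw1 x) N)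

end Pool.Agent.KS6_58.KD
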