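import Mathlib
import Pool.Agent.KS6_58.KD.B7

set_option autoImplicit false

open MeasureTheory Filter Topology Set
open scoped ComplexConjugate Real

namespace Pool.Agent.KS6_58.KD

open Pool.Agent.H382R3.KD

variable {γ u v : ℝ}

/-- one step of the construction -/
def Rel (z : ℝ) (p q : St γ u v × ℝ × ℕ) : Prop :=
  0 < q.2.1 ∧ q.2.1 ≤ p.2.1 / 2 ∧ |q.1.D - p.1.D| ≤ p.2.1 / 2 ∧ |q.1.θ - p.1.θ| ≤ p.2.1 / 2 ∧
  p.2.2 < q.2.2 ∧ q.2.1 < |q.1.D - z| ∧
  (∃ c : ℂ, ‖c‖ = 1 ∧ (∫ x : Circ, ‖q.1.F x - c * p.1.F x‖ ≤ p.2.1 / 2) ∧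
    q.2.2 * ((∫ x : Circ, ‖q.1.F x - c * p.1.F x‖) + q.2.1) < ‖∫ x : Circ, p.1.F x ^ q.2.2‖)

lemma exists_rel (hγ : Irrational γ) (hbad : ¬ BadlyApprox γ) (hu : 0 ≤ u) (hv : v ≤ 1) (z : ℝ)
    (p : St γ u v × ℝ × ℕ) (hp : 0 < p.2.1) : ∃ q : St γ u v × ℝ × ℕ, Rel z p q := by
  obtain ⟨σ, e, N⟩ := p
  simp only at hp
  have hDu : u < σ.D := σ.hD.1
  have hθ : |σ.θ| < 1 := σ.hθ
  have hτ : Irrational σ.τ := by
    apply TT_irr hγ hbad (by linarith : 0 < σ.D) σ.hj rfl rfl
    have := (abs_lt.1 hθ).1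
    intro h
    have h2 : σ.θ = σ.M * γ + σ.L := rfl
    linarith
  obtain ⟨N', hN', hne⟩ := lemmaP hγ hτ σ.hj σ.M (N + 1)
  have hβ : 0 < ‖∫ x : Circ, σ.F x ^ N'‖ := norm_pos_iff.2 hne
  set β := ‖∫ x : Circ, σ.F x ^ N'‖ with hβ'
  have hN0 : (0 : ℝ) < N' := by exact_mod_cast (by omega : 0 < N')
  obtain ⟨σ', h1, h2, h3, c, hc, h4⟩ := σ.step hγ hbad hu hv (ε := min (e / 2) (β / (4 * N')))
    (lt_min (by positivity) (by positivity)) z
  refine ⟨(σ', min (min (e / 2) (β / (4 * N'))) (|σ'.D - z| / 2), N'), ?_, ?_, ?_, ?_, ?_, ?_, c, hc, ?_, ?_⟩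
  · exact lt_min (lt_min (by positivity) (by positivity)) (by
      have := abs_pos.2 (sub_ne_zero.2 h3); positivity)
  · exact (min_le_left _ _).trans (min_le_left _ _)
  · exact h1.trans (min_le_left _ _)
  · exact h2.trans (min_le_left _ _)
  · show N < N'
    omega
  · have hpos := abs_pos.2 (sub_ne_zero.2 h3)
    show min (min (e / 2) (β / (4 * N'))) (|σ'.D - z| / 2) < |σ'.D - z|
    refine lt_of_le_of_lt (min_le_right _ _) ?_
    linarith
  · exact h4.trans (min_le_left _ _)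
  · show (N' : ℝ) * ((∫ x : Circ, ‖σ'.F x - c * σ.F x‖) + min (min (e / 2) (β / (4 * N'))) (|σ'.D - z| / 2)) < β
    have a1 : ∫ x : Circ, ‖σ'.F x - c * σ.F x‖ ≤ β / (4 * N') := h4.trans (min_le_right _ _)
    have a2 : min (min (e / 2) (β / (4 * N'))) (|σ'.D - z| / 2) ≤ β / (4 * N') :=
      (min_le_left _ _).trans (min_le_right _ _)
    calc (N' : ℝ) * ((∫ x : Circ, ‖σ'.F x - c * σ.F x‖) + min (min (e / 2) (β / (4 * N'))) (|σ'.D - z| / 2))
        ≤ N' * (β / (4 * N') + β / (4 * N')) := by gcongr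
      _ = β / 2 := by field_simp; ring
      _ < β := by linarith

/-- initial states -/
lemma exists_init (hγ : Irrational γ) (hbad : ¬ BadlyApprox γ) (hu : 0 ≤ u) (huv : u < v) :
    Nonempty (St γ u v) := by
  obtain ⟨J, hJ, P, -, hJd, hd0⟩ := exists_good hγ hbad (sub_pos.2 huv) 1
  set d : ℝ := (J : ℝ) * γ + P with hd
  have hJR : (1 : ℝ) ≤ J := by exact_mod_cast hJ
  have hdpos : 0 < |d| := abs_pos.2 hd0
  have hdlt : |d| < v - u := by
    refine lt_of_le_of_lt ?_ hJd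
    nlinarith
  obtain ⟨s, hs, hsd⟩ : ∃ s : ℤ, s ≠ 0 ∧ |d| = s * d := by
    rcases lt_or_gt_of_ne hd0 with h | h
    · exact ⟨-1, by norm_num, by rw [abs_of_neg h]; push_cast; ring⟩
    · exact ⟨1, by norm_num, by rw [abs_of_pos h]; push_cast; ring⟩
  set n : ℤ := ⌊u / |d|⌋ + 1 with hn
  have hn0 : 0 < n := by
    have : 0 ≤ ⌊u / |d|⌋ := Int.floor_nonneg.2 (by positivity)
    omega
  have h1 : u < n * |d| := by
    have := Int.lt_floor_add_one (u / |d|)
    rw [div_lt_iff₀ hdpos] at this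
    rw [hn]; push_cast; exact this
  have h2 : n * |d| ≤ u + |d| := by
    have := Int.floor_le (u / |d|)
    rw [le_div_iff₀ hdpos] at this
    rw [hn]; push_cast; linarith
  exact ⟨{ j := n * s * J
           l := n * s * P
           M := 0
           L := 0
           hj := by
            have : (J : ℤ) ≠ 0 := by omega
            exact mul_ne_zero (mul_ne_zero hn0.ne' hs) this
           hD := by
            have e1 : ((n * s * J : ℤ) : ℝ) * γ + ((n * s * P : ℤ) : ℝ) = n * |d| := by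
              rw [hsd, hd]; push_cast; ring
            rw [e1]
            constructor
            · exact h1
            · linarith
           hθ := by simp }⟩

lemma continuous_kap : Continuous kap := by
  unfold kap
  fun_prop

/-- the main construction -/
theorem exists_D (hγ : Irrational γ) (hbad : ¬ BadlyApprox γ) (hu : 0 ≤ u) (huv : u < v) (hv : v ≤ 1)
    (zs : ℕ → ℝ) :
    ∃ D ∈ Ioo u v, (∀ k, D ≠ zs k) ∧ ∃ (s : ℝ) (U : Circ → ℂ), 0 < s ∧ Measurable U ∧ (∀ x, ‖U x‖ = 1) ∧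
      (∀ᵐ x : Circ, ex (s * rr D x) = U (x + (γ : Circ)) * conj (U x)) ∧
      {N : ℕ | ∫ x : Circ, U x ^ N ≠ 0}.Infinite := by
  obtain ⟨σ0⟩ := exists_init hγ hbad hu huv
  have hD0u : u < σ0.D := σ0.hD.1
  have hD0v : σ0.D < v := σ0.hD.2
  have hθ0 : |σ0.θ| < 1 := σ0.hθ
  set e0 : ℝ := min (min (σ0.D - u) (v - σ0.D)) (1 - |σ0.θ|) / 2 with he0
  have he0pos : 0 < e0 := by
    have : 0 < min (min (σ0.D - u) (v - σ0.D)) (1 - |σ0.θ|) :=
      lt_min (lt_min (by linarith) (by linarith)) (by linarith)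
    positivity
  have he01 : 2 * e0 ≤ σ0.D - u := by
    have : min (min (σ0.D - u) (v - σ0.D)) (1 - |σ0.θ|) ≤ σ0.D - u := (min_le_left _ _).trans (min_le_left _ _)
    rw [he0]; linarith
  have he02 : 2 * e0 ≤ v - σ0.D := by
    have : min (min (σ0.D - u) (v - σ0.D)) (1 - |σ0.θ|) ≤ v - σ0.D := (min_le_left _ _).trans (min_le_right _ _)
    rw [he0]; linarith
  have he03 : 2 * e0 ≤ 1 - |σ0.θ| := by
    have : min (min (σ0.D - u) (v - σ0.D)) (1 - |σ0.θ|) ≤ 1 - |σ0.θ| := min_le_right _ _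
    rw [he0]; linarith
  -- the sequence
  choose! nxt hnxt using fun (z : ℝ) => exists_rel (γ := γ) (u := u) (v := v) hγ hbad hu hv z
  obtain ⟨P, hP0, hpos, hrel⟩ : ∃ P : ℕ → St γ u v × ℝ × ℕ, P 0 = (σ0, e0, 0) ∧
      (∀ k, 0 < (P k).2.1) ∧ ∀ k, Rel (zs k) (P k) (P (k + 1)) := by
    let P : ℕ → St γ u v × ℝ × ℕ := fun k => Nat.rec (σ0, e0, 0) (fun k p => nxt (zs k) p) k
    have hPs : ∀ k, P (k + 1) = nxt (zs k) (P k) := fun k => rfl
    have hpos : ∀ k, 0 < (P k).2.1 := by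
      intro k
      induction k with
      | zero => exact he0pos
      | succ k ih =>
        rw [hPs]
        exact (hnxt (zs k) (P k) ih).1
    exact ⟨P, rfl, hpos, fun k => by rw [hPs]; exact hnxt (zs k) (P k) (hpos k)⟩
  set e : ℕ → ℝ := fun k => (P k).2.1 with he
  have hen : ∀ k, 0 ≤ e k := fun k => (hpos k).le
  have hes : ∀ k, e (k + 1) ≤ e k / 2 := fun k => (hrel k).2.1
  obtain ⟨D, hDt, hDe⟩ := seq_limit hen hes (f := fun k => (P k).1.D) (fun k => (hrel k).2.2.1)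
  obtain ⟨θ, hθt, hθe⟩ := seq_limit hen hes (f := fun k => (P k).1.θ) (fun k => (hrel k).2.2.2.1)
  have hD0 := hDe 0
  have hθ0' := hθe 0
  simp only [hP0, he] at hD0 hθ0'
  rw [abs_le] at hD0
  have hDuv : D ∈ Ioo u v := ⟨by linarith [hD0.1], by linarith [hD0.2]⟩
  have h0 : 0 < D := lt_of_le_of_lt hu hDuv.1
  have h1 : D < 1 := lt_of_lt_of_le hDuv.2 hv
  have hθ1 : 0 < 1 + θ := by
    rw [abs_le] at hθ0'
    have := neg_abs_le σ0.θ
    linarith [hθ0'.1]
  refine ⟨D, hDuv, ?_, ?_⟩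
  · intro k hk
    have a1 := (hrel k).2.2.2.2.2.1
    have a2 := hDe (k + 1)
    rw [hk, abs_sub_comm] at a2
    have a3 : |(P (k + 1)).1.D - zs k| ≤ (P (k + 1)).2.1 := a2
    linarith
  -- transfer functions
  choose c hc1 hc2 hc3 using fun k => (hrel k).2.2.2.2.2.2
  obtain ⟨C, hC0, hCs⟩ : ∃ C : ℕ → ℂ, C 0 = 1 ∧ ∀ k, C (k + 1) = C k * conj (c k) :=
    ⟨fun k => Nat.rec 1 (fun k z => z * conj (c k)) k, rfl, fun k => rfl⟩
  have hC1 : ∀ k, ‖C k‖ = 1 := by
    intro k
    induction k with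
    | zero => rw [hC0]; simp
    | succ k ih => rw [hCs, norm_mul, ih, Complex.norm_conj, hc1, mul_one]
  set w : ℕ → Circ → ℂ := fun k x => C k * (P k).1.F x with hw
  have hwm : ∀ k, Measurable (w k) := fun k => (P k).1.measurable_F.const_mul _
  have hw1 : ∀ k x, ‖w k x‖ = 1 := fun k x => by
    rw [hw]; simp only; rw [norm_mul, hC1, St.norm_F, mul_one]
  have hwd : ∀ k, ∫ x : Circ, ‖w (k + 1) x - w k x‖ = ∫ x : Circ, ‖(P (k + 1)).1.F x - c k * (P k).1.F x‖ := by
    intro k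
    congr 1
    funext x
    rw [hw]
    simp only
    rw [hCs]
    have hcc := mul_conj_one (hc1 k)
    have e1 : C k * conj (c k) * (P (k + 1)).1.F x - C k * (P k).1.F x =
        (C k * conj (c k)) * ((P (k + 1)).1.F x - c k * (P k).1.F x) := by
      linear_combination (C k * (P k).1.F x) * hcc
    rw [e1, norm_mul, norm_mul, hC1, Complex.norm_conj, hc1, one_mul, one_mul]
  obtain ⟨U, hUm, hU1, hUt, hUe⟩ := L1lim hen hes hwm hw1 (fun k => by rw [hwd]; exact hc2 k)
  have hk := kap_pos h0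
  refine ⟨sS D θ, U, ?_, hUm, hU1, ?_, ?_⟩
  · unfold sS; positivity
  · have hs := ae_shift hUt (γ : Circ)
    have hpt : ∀ᵐ x : Circ, x ≠ (D : Circ) := by
      rw [ae_iff]
      simpa using vol_pt (D : Circ)
    filter_upwards [hUt, hs, hpt] with x e1 e2 e3
    have e4 := e2.mul ((Complex.continuous_conj.tendsto _).comp e1)
    have hfx : fr x ≠ D := fun h => e3 (by rw [← h, coe_fr])
    have hsk : Tendsto (fun k => sS (P k).1.D (P k).1.θ) atTop (𝓝 (sS D θ)) := by
      unfold sS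
      exact (tendsto_const_nhds.add hθt).div ((continuous_kap.tendsto D).comp hDt) hk.ne'
    have hrk : Tendsto (fun k => rr (P k).1.D x) atTop (𝓝 (rr D x)) := by
      unfold rr
      apply Tendsto.div _ ((continuous_kap.tendsto D).comp hDt) hk.ne'
      rcases lt_or_gt_of_ne hfx with h | h
      · rw [if_pos h]
        refine hDt.congr' ?_
        filter_upwards [hDt.eventually_const_lt h] with k hk2
        rw [if_pos hk2]
      · rw [if_neg (not_lt.2 h.le)]
        refine (hDt.const_sub 1).congr' ?_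
        filter_upwards [hDt.eventually_lt_const h] with k hk2
        rw [if_neg (not_lt.2 hk2.le)]
    have e5 : Tendsto (fun k => ex (sS (P k).1.D (P k).1.θ * rr (P k).1.D x)) atTop (𝓝 (ex (sS D θ * rr D x))) :=
      (continuous_ex.tendsto _).comp (hsk.mul hrk)
    have e6 : (fun k => ex (sS (P k).1.D (P k).1.θ * rr (P k).1.D x)) =
        fun k => w k (x + (γ : Circ)) * conj (w k x) := by
      funext k
      have hDk : 0 < (P k).1.D := lt_of_le_of_lt hu (P k).1.hD.1
      have hDk1 : (P k).1.D < 1 := lt_of_lt_of_le (P k).1.hD.2 hv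
      have hcob := cob_Fz (D := (P k).1.D) (θ := (P k).1.θ) hDk hDk1 (j := (P k).1.j) (l := (P k).1.l)
        (M := (P k).1.M) (L := (P k).1.L) rfl rfl x
      rw [hcob]
      rw [hw]
      simp only
      rw [map_mul]
      have hcc := mul_conj_one (hC1 k)
      show (P k).1.F (x + (γ : Circ)) * conj ((P k).1.F x) = _
      linear_combination (-((P k).1.F (x + (γ : Circ)) * conj ((P k).1.F x))) * hcc
    rw [e6] at e5
    exact tendsto_nhds_unique e5 e4
  · have hmono : StrictMono (fun k => (P k).2.2) := strictMono_nat_of_lt_succ (fun k => (hrel k).2.2.2.2.1)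
    have hinj : Function.Injective (fun k => (P (k + 1)).2.2) := fun a b hab => by
      have h3 := hmono.injective (show (fun k => (P k).2.2) (a + 1) = (fun k => (P k).2.2) (b + 1) from hab)
      omega
    refine (infinite_range_of_injective hinj).mono ?_
    rintro _ ⟨k, rfl⟩
    show ∫ x : Circ, U x ^ (P (k + 1)).2.2 ≠ 0
    set N := (P (k + 1)).2.2 with hN
    intro hz
    have a1 := int_pow_sub hUm (hwm k) hU1 (hw1 k) N
    rw [hz, zero_sub, norm_neg] at a1
    have a2 : ‖∫ x : Circ, w k x ^ N‖ = ‖∫ x : Circ, (P k).1.F x ^ N‖ := by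
      rw [hw]
      simp only
      simp_rw [mul_pow]
      rw [integral_const_mul, norm_mul, norm_pow, hC1, one_pow, one_mul]
    have hi1 : Integrable (fun x : Circ => ‖U x - w (k + 1) x‖) :=
      integrable_of_bdd ((hUm.sub (hwm _)).norm) (B := 2) (fun x => by
        rw [abs_of_nonneg (norm_nonneg _)]
        refine (norm_sub_le _ _).trans ?_
        rw [hU1, hw1]; norm_num)
    have hi2 : Integrable (fun x : Circ => ‖w (k + 1) x - w k x‖) :=
      integrable_of_bdd (((hwm _).sub (hwm _)).norm) (B := 2) (fun x => by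
        rw [abs_of_nonneg (norm_nonneg _)]
        refine (norm_sub_le _ _).trans ?_
        rw [hw1, hw1]; norm_num)
    have a3 : ∫ x : Circ, ‖U x - w k x‖ ≤ (∫ x : Circ, ‖U x - w (k + 1) x‖) +
        ∫ x : Circ, ‖w (k + 1) x - w k x‖ := by
      rw [← integral_add hi1 hi2]
      apply integral_mono_of_nonneg
      · exact Eventually.of_forall (fun _ => norm_nonneg _)
      · exact hi1.add hi2
      · refine Eventually.of_forall (fun x => ?_)
        simp only
        have e1 : U x - w k x = (U x - w (k + 1) x) + (w (k + 1) x - w k x) := by ring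
        rw [e1]
        exact norm_add_le _ _
    have a4 := hUe (k + 1)
    rw [hwd] at a3
    have a5 := hc3 k
    have hNn : (0 : ℝ) ≤ N := Nat.cast_nonneg _
    have a6 : (N : ℝ) * ∫ x : Circ, ‖U x - w k x‖ ≤
        N * ((∫ x : Circ, ‖(P (k + 1)).1.F x - c k * (P k).1.F x‖) + (P (k + 1)).2.1) := by
      apply mul_le_mul_of_nonneg_left _ hNn
      have : ∫ x : Circ, ‖U x - w (k + 1) x‖ ≤ (P (k + 1)).2.1 := a4
      linarith
    rw [a2] at a1
    linarith

end Pool.Agent.KS6_58.KD
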