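import Mathlib
import Pool.Agent.KS6_58.KD.E1

set_option autoImplicit false

open MeasureTheory Filter Topology Set
open scoped ComplexConjugate Real

namespace Pool.Agent.KS6_58.KD

open Pool.Agent.H382R3.KD

/-- distance to the nearest integer -/
noncomputable def dz (t : ℝ) : ℝ := |t - round t|

lemma dz_le (t : ℝ) (p : ℤ) : dz t ≤ |t - p| := round_le t p

lemma dz_pos {γ : ℝ} (hγ : Irrational γ) {k : ℕ} (hk : 0 < k) : 0 < dz (k * γ) := by
  unfold dz
  rw [abs_pos]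
  intro h0
  apply hγ
  have hk0 : (k : ℝ) ≠ 0 := by positivity
  refine ⟨(round ((k : ℝ) * γ) : ℚ) / k, ?_⟩
  push_cast
  rw [div_eq_iff hk0]
  linarith

/-- best approximations -/
lemma best {γ : ℝ} (hγ : Irrational γ) {Q : ℕ} (hQ : 2 ≤ Q) :
    ∃ (q : ℕ) (δ : ℝ) (j : ℤ), Q ≤ q ∧ 0 < δ ∧ (∀ k p : ℤ, k ≠ 0 → |k| < (q : ℤ) → δ ≤ |k * γ - p|) ∧
      1 / 2 < q * δ ∧ q * δ ≤ 1 ∧ |q * γ - j| < δ := by
  classical
  obtain ⟨k0, hk0, hmin⟩ := Finset.exists_min_image (Finset.Icc 1 (Q - 1)) (fun k : ℕ => dz (k * γ))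
    ⟨1, by rw [Finset.mem_Icc]; omega⟩
  rw [Finset.mem_Icc] at hk0
  set δ : ℝ := dz (k0 * γ) with hδ
  have hδ0 : 0 < δ := dz_pos hγ (by omega)
  have hex : ∃ n : ℕ, 0 < n ∧ dz (n * γ) < δ := by
    obtain ⟨m, hm⟩ := exists_nat_gt (1 / δ)
    have hm0 : (0 : ℝ) < m := lt_trans (by positivity) hm
    have hmpos : 0 < m := by exact_mod_cast hm0
    obtain ⟨k, hk1, -, hk3⟩ := Real.exists_nat_abs_mul_sub_round_le γ hmpos
    refine ⟨k, hk1, lt_of_le_of_lt hk3 ?_⟩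
    rw [div_lt_iff₀ hδ0] at hm
    rw [div_lt_iff₀ (by positivity)]
    nlinarith
  set q := Nat.find hex with hq
  obtain ⟨hq0, hqδ⟩ : 0 < q ∧ dz (q * γ) < δ := Nat.find_spec hex
  have hqmin : ∀ k : ℕ, 0 < k → k < q → δ ≤ dz (k * γ) := by
    intro k hk hkq
    have := Nat.find_min hex hkq
    push Not at this
    exact this hk
  have hQq : Q ≤ q := by
    by_contra hlt
    push Not at hlt
    have := hmin q (by rw [Finset.mem_Icc]; omega)
    linarith
  have hqR : (0 : ℝ) < q := by exact_mod_cast hq0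
  refine ⟨q, δ, round ((q : ℝ) * γ), hQq, hδ0, ?_, ?_, ?_, hqδ⟩
  · intro k p hk hkq
    have hkq' := abs_lt.1 hkq
    have h1 := hqmin k.natAbs (by omega) (by omega)
    rcases lt_or_gt_of_ne hk with hneg | hpos
    · have e1 : ((k.natAbs : ℕ) : ℝ) = -k := by
        rw [Nat.cast_natAbs, Int.cast_abs]; exact abs_of_neg (by exact_mod_cast hneg)
      rw [e1] at h1
      have h2 := dz_le (-(k : ℝ) * γ) (-p)
      have e2 : -(k : ℝ) * γ - ((-p : ℤ) : ℝ) = -(k * γ - p) := by push_cast; ring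
      rw [e2, abs_neg] at h2
      linarith
    · have e1 : ((k.natAbs : ℕ) : ℝ) = k := by
        rw [Nat.cast_natAbs, Int.cast_abs]; exact abs_of_pos (by exact_mod_cast hpos)
      rw [e1] at h1
      exact h1.trans (dz_le _ p)
  · -- determinant argument
    set p0 : ℤ := round ((k0 : ℝ) * γ) with hp0
    set p : ℤ := round ((q : ℝ) * γ) with hp
    have ha : |(k0 : ℝ) * γ - p0| = δ := rfl
    have hb : |(q : ℝ) * γ - p| < δ := hqδ
    have hk0q : k0 < q := by omega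
    have hk0R : (k0 : ℝ) < q := by exact_mod_cast hk0q
    have hk0p : (0 : ℝ) < k0 := by exact_mod_cast (by omega : 0 < k0)
    have hz : (k0 : ℤ) * p - q * p0 ≠ 0 := by
      intro h
      have h2 : (k0 : ℝ) * p - q * p0 = 0 := by exact_mod_cast h
      have h3 : (q : ℝ) * (k0 * γ - p0) = k0 * (q * γ - p) := by linarith
      have h4 : (q : ℝ) * δ = k0 * |(q : ℝ) * γ - p| := by
        rw [← ha, ← abs_of_pos hqR, ← abs_mul, abs_of_pos hqR, h3, abs_mul, abs_of_pos hk0p]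
      nlinarith
    have hz1 : (1 : ℝ) ≤ |((k0 : ℝ) * p - q * p0)| := by
      have : (1 : ℤ) ≤ |(k0 : ℤ) * p - q * p0| := Int.one_le_abs hz
      exact_mod_cast this
    have h5 : (k0 : ℝ) * p - q * p0 = q * (k0 * γ - p0) - k0 * (q * γ - p) := by ring
    rw [h5] at hz1
    have h6 : |(q : ℝ) * (k0 * γ - p0) - k0 * (q * γ - p)| ≤ q * δ + k0 * |(q : ℝ) * γ - p| := by
      refine (abs_sub _ _).trans ?_
      rw [abs_mul, abs_mul, ha, abs_of_pos hqR, abs_of_pos hk0p]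
    nlinarith
  · have hq1 : 0 < q - 1 := by omega
    obtain ⟨k, hk1, hk2, hk3⟩ := Real.exists_nat_abs_mul_sub_round_le γ hq1
    have h1 := hqmin k hk1 (by omega)
    have h2 : δ ≤ 1 / (((q - 1 : ℕ) : ℝ) + 1) := h1.trans hk3
    have h3 : (((q - 1 : ℕ) : ℝ) + 1) = q := by
      have : 1 ≤ q := hq0
      push_cast [this]; ring
    rw [h3, le_div_iff₀ hqR] at h2
    linarith

lemma circ_diff {γ D : ℝ} {x : Circ} {i i' : ℕ} {h : ℝ} (h1 : fr (x + i • (γ : Circ)) < h)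
    (h2 : fr (x + i' • (γ : Circ) - (D : Circ)) < h) :
    ∃ n : ℤ, |D - (((i' : ℤ) - i : ℤ) : ℝ) * γ - n| < h := by
  set y := x + i • (γ : Circ) with hy
  set z := x + i' • (γ : Circ) - (D : Circ) with hz
  have e1 : ((fr y - fr z - (((i : ℝ) - i') * γ + D) : ℝ) : Circ) = 0 := by
    have e2 : ((((i : ℝ) - i') * γ : ℝ) : Circ) = ((i : ℤ) - i') • (γ : Circ) := by
      have : ((i : ℝ) - i') * γ = ((i : ℤ) - i') • γ := by
        rw [zsmul_eq_mul]; push_cast; ring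
      rw [this, AddCircle.coe_zsmul]
    rw [AddCircle.coe_sub, AddCircle.coe_sub, coe_fr, coe_fr, AddCircle.coe_add, e2, hy, hz,
      sub_smul, natCast_zsmul, natCast_zsmul]
    abel
  rw [AddCircle.coe_eq_zero_iff] at e1
  obtain ⟨n, hn⟩ := e1
  simp only [zsmul_eq_mul, mul_one] at hn
  have h3 : |fr y - fr z| < h := by
    rw [abs_lt]
    have a1 := fr_nonneg y; have a2 := fr_nonneg z
    constructor <;> linarith
  refine ⟨-n, ?_⟩
  have h5 : D - (((i' : ℤ) - i : ℤ) : ℝ) * γ - ((-n : ℤ) : ℝ) = fr y - fr z := by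
    push_cast; linarith
  rw [h5]; exact h3

/-- the covering sets -/
def cov (γ : ℝ) (q : ℕ) (h : ℝ) : Set ℝ :=
  ⋃ k ∈ Finset.Ioo (-(q : ℤ)) q, ⋃ n ∈ Finset.Icc (-1 : ℤ) 1, Metric.ball (Int.fract ((k : ℝ) * γ) + n) h

lemma mem_cov {γ D : ℝ} (h0 : 0 < D) (h1 : D < 1) {q : ℕ} {h : ℝ} (hh : h ≤ 1) {k n : ℤ}
    (hk : |k| < (q : ℤ)) (hD : |D - k * γ - n| < h) : D ∈ cov γ q h := by
  unfold cov
  simp only [mem_iUnion]
  rw [abs_lt] at hk
  refine ⟨k, Finset.mem_Ioo.2 hk, n + ⌊(k : ℝ) * γ⌋, ?_, ?_⟩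
  · have hf0 := Int.fract_nonneg ((k : ℝ) * γ)
    have hf1 := Int.fract_lt_one ((k : ℝ) * γ)
    have e : D - k * γ - n = D - Int.fract ((k : ℝ) * γ) - ((n + ⌊(k : ℝ) * γ⌋ : ℤ) : ℝ) := by
      push_cast
      have := Int.floor_add_fract ((k : ℝ) * γ)
      linarith
    rw [e, abs_lt] at hD
    have a1 : ((-2 : ℤ) : ℝ) < ((n + ⌊(k : ℝ) * γ⌋ : ℤ) : ℝ) := by push_cast at hD ⊢; linarith [hD.2]
    have a2 : ((n + ⌊(k : ℝ) * γ⌋ : ℤ) : ℝ) < ((2 : ℤ) : ℝ) := by push_cast at hD ⊢; linarith [hD.1]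
    have b1 : -2 < n + ⌊(k : ℝ) * γ⌋ := by exact_mod_cast a1
    have b2 : n + ⌊(k : ℝ) * γ⌋ < 2 := by exact_mod_cast a2
    rw [Finset.mem_Icc]; omega
  · rw [Metric.mem_ball, Real.dist_eq]
    have e : D - (Int.fract ((k : ℝ) * γ) + ((n + ⌊(k : ℝ) * γ⌋ : ℤ) : ℝ)) = D - k * γ - n := by
      push_cast
      have := Int.floor_add_fract ((k : ℝ) * γ)
      linarith
    rw [e]; exact hD

lemma cov_measure (γ : ℝ) {q : ℕ} (hq : 0 < q) {h : ℝ} (hh : 0 ≤ h) :
    volume (cov γ q h) ≤ ENNReal.ofReal (12 * (q * h)) := by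
  unfold cov
  refine (measure_biUnion_finset_le _ _).trans ?_
  have h1 : ∀ k ∈ Finset.Ioo (-(q : ℤ)) q,
      volume (⋃ n ∈ Finset.Icc (-1 : ℤ) 1, Metric.ball (Int.fract ((k : ℝ) * γ) + n) h) ≤
      ENNReal.ofReal (6 * h) := by
    intro k _
    refine (measure_biUnion_finset_le _ _).trans ?_
    have : ∀ n ∈ Finset.Icc (-1 : ℤ) 1, volume (Metric.ball (Int.fract ((k : ℝ) * γ) + n) h) ≤
        ENNReal.ofReal (2 * h) := fun n _ => by rw [Real.volume_ball]
    refine (Finset.sum_le_card_nsmul _ _ _ this).trans ?_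
    have hc : (Finset.Icc (-1 : ℤ) 1).card = 3 := rfl
    rw [hc, nsmul_eq_mul, ← ENNReal.ofReal_natCast, ← ENNReal.ofReal_mul (by positivity)]
    apply ENNReal.ofReal_le_ofReal
    push_cast; linarith
  refine (Finset.sum_le_card_nsmul _ _ _ h1).trans ?_
  rw [nsmul_eq_mul, ← ENNReal.ofReal_natCast, ← ENNReal.ofReal_mul (by positivity)]
  apply ENNReal.ofReal_le_ofReal
  have hc : ((Finset.Ioo (-(q : ℤ)) q).card : ℝ) ≤ 2 * q := by
    have : (Finset.Ioo (-(q : ℤ)) q).card ≤ 2 * q := by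
      rw [Int.card_Ioo]; omega
    exact_mod_cast this
  calc ((Finset.Ioo (-(q : ℤ)) q).card : ℝ) * (6 * h) ≤ (2 * q) * (6 * h) := by gcongr
    _ = 12 * (q * h) := by ring

/-- for almost every arc length the step function cocycle is not a coboundary -/
theorem ae_NC {γ : ℝ} (hγ : Irrational γ) : ∀ᵐ D : ℝ, 0 < D → D < 1 → NC D γ := by
  choose q δ j hQq hδ0 hsep hlow hup hj using fun Q : ℕ => best hγ (Q := Q + 2) (by omega)
  have hq0 : ∀ Q, 0 < q Q := fun Q => by have := hQq Q; omega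
  have hδ1 : ∀ Q, δ Q ≤ 1 / 2 := fun Q => by
    have h1 := hup Q
    have h2 : (2 : ℝ) ≤ q Q := by exact_mod_cast (by have := hQq Q; omega : 2 ≤ q Q)
    nlinarith [hδ0 Q]
  have hδQ : ∀ Q, δ Q ≤ 1 / ((Q : ℝ) + 1) := fun Q => by
    have h1 := hup Q
    have h2 : ((Q : ℝ) + 1) ≤ q Q := by exact_mod_cast (by have := hQq Q; omega : Q + 1 ≤ q Q)
    rw [le_div_iff₀ (by positivity)]
    nlinarith [hδ0 Q]
  set E : Set ℝ := {D : ℝ | ¬ (0 < D → D < 1 → NC D γ)} with hE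
  have hmain : ∀ η : ℝ, 0 < η → η ≤ 1 / 2 → E ⊆ ⋃ Q0 : ℕ, ⋂ Q : {Q : ℕ // Q0 ≤ Q}, cov γ (q Q) (η * δ Q) := by
    intro η hη hη1 D hD
    have hD' : ¬ (0 < D → D < 1 → NC D γ) := hD
    push Not at hD'
    obtain ⟨h0, h1, hNC⟩ := hD'
    unfold NC at hNC
    push Not at hNC
    obtain ⟨τ, lam, u, hlam, hu, hu1, hco, hτ⟩ := hNC
    have hpos : 0 < ‖ex τ - 1‖ := norm_pos_iff.2 (sub_ne_zero.2 hτ)
    have ht := trn_tendsto hu (fun x => (hu1 x).le)
    have hev : ∀ᶠ y : Circ in 𝓝 0, 2 * trn u y < ‖ex τ - 1‖ * (η / 2) := by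
      have h2 := ht.const_mul 2
      rw [mul_zero] at h2
      exact h2.eventually_lt_const (by positivity)
    obtain ⟨ρ, hρ, hball⟩ := Metric.eventually_nhds_iff.1 hev
    obtain ⟨Q0, hQ0⟩ := exists_nat_gt (1 / ρ)
    rw [mem_iUnion]
    refine ⟨Q0, ?_⟩
    rw [mem_iInter]
    rintro ⟨Q, hQ⟩
    simp only
    by_contra hno
    set h : ℝ := η * δ Q with hh
    have hh0 : 0 < h := mul_pos hη (hδ0 Q)
    have hhδ : h < δ Q := by
      rw [hh]; nlinarith [hδ0 Q]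
    have hh1 : h < 1 := by linarith [hδ1 Q]
    have hdist : dist (q Q • (γ : Circ)) 0 < ρ := by
      rw [dist_zero_right]
      have e1 : q Q • (γ : Circ) = (((q Q : ℝ) * γ - j Q : ℝ) : Circ) := by
        rw [AddCircle.coe_sub]
        have : ((j Q : ℝ) : Circ) = 0 := by
          rw [AddCircle.coe_eq_zero_iff]; exact ⟨j Q, by simp⟩
        rw [this, sub_zero, ← nsmul_eq_mul]
        simp
      rw [e1]
      have e2 : ‖(((q Q : ℝ) * γ - j Q : ℝ) : Circ)‖ ≤ |(q Q : ℝ) * γ - j Q| :=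
        QuotientAddGroup.norm_mk_le_norm (S := AddSubgroup.zmultiples (1 : ℝ)) (m := (q Q : ℝ) * γ - j Q)
      have e3 := hj Q
      have e4 := hδQ Q
      have e5 : 1 / ((Q : ℝ) + 1) < ρ := by
        rw [div_lt_iff₀ hρ] at hQ0
        rw [div_lt_iff₀ (by positivity)]
        have : (Q0 : ℝ) ≤ Q := by exact_mod_cast hQ
        nlinarith
      linarith
    have htr := hball hdist
    have hA : ∀ (x : Circ) (i i' : ℕ), i < q Q → i' < q Q → fr (x + i • (γ : Circ)) < h →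
        fr (x + i' • (γ : Circ)) < h → i = i' := by
      intro x i i' hi hi' a1 a2
      by_contra hne
      obtain ⟨n, hn⟩ := circ_diff (D := 0) (γ := γ) (x := x) (i := i) (i' := i') a1 (by simpa using a2)
      have h3 := hsep Q ((i' : ℤ) - i) (-n) (by omega) (by rw [abs_lt]; omega)
      have h4 : |0 - (((i' : ℤ) - i : ℤ) : ℝ) * γ - (n : ℝ)| = |(((i' : ℤ) - i : ℤ) : ℝ) * γ - ((-n : ℤ) : ℝ)| := by
        rw [← abs_neg]; congr 1; push_cast; ring
      rw [h4] at hn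
      linarith
    have hB : ∀ (x : Circ) (i i' : ℕ), i < q Q → i' < q Q →
        ¬ (fr (x + i • (γ : Circ)) < h ∧ fr (x + i' • (γ : Circ) - (D : Circ)) < h) := by
      rintro x i i' hi hi' ⟨a1, a2⟩
      obtain ⟨n, hn⟩ := circ_diff a1 a2
      exact hno (mem_cov h0 h1 hh1.le (by rw [abs_lt]; omega) hn)
    have hV := V1 hu hu1 hlam hco hh0 hh1 hA hB
    have hqh : η / 2 ≤ q Q * h := by
      have := hlow Q
      rw [hh]
      nlinarith
    have := mul_le_mul_of_nonneg_left hqh hpos.le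
    linarith
  have hbound : ∀ η : ℝ, 0 < η → η ≤ 1 / 2 → volume E ≤ ENNReal.ofReal (12 * η) := by
    intro η hη hη1
    refine (measure_mono (hmain η hη hη1)).trans ?_
    have hmono : Monotone (fun Q0 : ℕ => ⋂ Q : {Q : ℕ // Q0 ≤ Q}, cov γ (q Q) (η * δ Q)) := by
      intro a b hab
      apply subset_iInter
      rintro ⟨Q, hQ⟩
      exact iInter_subset_of_subset ⟨Q, hab.trans hQ⟩ (Subset.refl _)
    rw [hmono.measure_iUnion]
    apply iSup_le
    intro Q0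
    refine (measure_mono (iInter_subset_of_subset ⟨Q0, le_rfl⟩ (Subset.refl _))).trans ?_
    refine (cov_measure γ (hq0 Q0) (by have := hδ0 Q0; positivity)).trans ?_
    apply ENNReal.ofReal_le_ofReal
    have := hup Q0
    simp only
    nlinarith
  rw [ae_iff]
  show volume E = 0
  by_contra hne
  have hEfin : volume E ≠ ⊤ := ne_top_of_le_ne_top ENNReal.ofReal_ne_top (hbound (1 / 2) (by norm_num) le_rfl)
  have hpos : 0 < (volume E).toReal := ENNReal.toReal_pos hne hEfin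
  set m := (volume E).toReal with hm
  have h1 := hbound (min (1 / 2) (m / 24)) (lt_min (by norm_num) (by positivity)) (min_le_left _ _)
  have h2 : m ≤ 12 * min (1 / 2) (m / 24) := by
    have := ENNReal.toReal_mono ENNReal.ofReal_ne_top h1
    rwa [ENNReal.toReal_ofReal (by positivity)] at this
  have h3 : min (1 / 2) (m / 24) ≤ m / 24 := min_le_right _ _
  linarith

end Pool.Agent.KS6_58.KD
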