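import Mathlib
import Pool.Agent.KS6_58.KD.B8
import Pool.Agent.KS6_58.KD.C1

set_option autoImplicit false

open MeasureTheory Filter Topology Set
open scoped ComplexConjugate Real

namespace Pool.Agent.KS6_58.KD

open Pool.Agent.H382R3.KD

lemma diffraction_of_transfer {D γ x₀ s : ℝ} (h0 : 0 < D) (h1 : D < 1) (hγ : Irrational γ) (hs : 0 < s)
    {U : Circ → ℂ} (hU : Measurable U) (hU1 : ∀ x, ‖U x‖ = 1)
    (hco : ∀ᵐ x : Circ, ex (s * rr D x) = U (x + (γ : Circ)) * conj (U x))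
    (hinf : {N : ℕ | ∫ x : Circ, U x ^ N ≠ 0}.Infinite) {p : ℤ → ℤ × ℤ} (hp : IsStaircase D γ x₀ p) :
    DiffractionCondition (proj D '' range p) := by
  rw [image_eq hp]
  have hau := isAutocorr h0 h1 (addOrderOf_irr hγ) (x₀ : Circ)
  obtain ⟨μ, hft, hμ⟩ := exists_diffraction h0 h1 (γ : Circ)
  refine ⟨eta D γ, μ, hau, hft, ?_, countable_atoms hft.1⟩
  have hinj : Function.Injective (fun N : ℕ => (N : ℝ) * s) := by
    intro a b hab
    have := mul_right_cancel₀ hs.ne' hab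
    exact_mod_cast this
  refine (hinf.image hinj.injOn).mono ?_
  rintro _ ⟨N, hN, rfl⟩
  apply hμ _ (fun x => U x ^ N) (hU.pow_const N) (fun x => by rw [norm_pow, hU1, one_pow]) ?_ hN
  filter_upwards [hco] with x hx
  have hpow : ∀ (n : ℕ) (t : ℝ), ex t ^ n = ex (n * t) := by
    intro n t
    induction n with
    | zero => simp [ex_zero]
    | succ n ih =>
      rw [pow_succ, ih, ← ex_add]
      congr 1
      push_cast; ring
  rw [mul_assoc, ← hpow, hx, mul_pow, map_pow]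

/-- exceptional arc lengths are uncountable in every interval -/
theorem uncountable {γ u v : ℝ} (hγ : Irrational γ) (hbad : ¬ BadlyApprox γ) (hu : 0 ≤ u) (huv : u < v)
    (hv : v ≤ 1) :
    ¬ {D : ℝ | u < D ∧ D < v ∧ (∀ q r : ℚ, D ≠ q * γ + r) ∧
      ∀ (x₀ : ℝ) (p : ℤ → ℤ × ℤ), IsStaircase D γ x₀ p → DiffractionCondition (proj D '' range p)}.Countable := by
  intro hc
  set S := {D : ℝ | u < D ∧ D < v ∧ (∀ q r : ℚ, D ≠ q * γ + r) ∧
      ∀ (x₀ : ℝ) (p : ℤ → ℤ × ℤ), IsStaircase D γ x₀ p → DiffractionCondition (proj D '' range p)} with hS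
  have hc2 : (range (fun t : ℚ × ℚ => (t.1 : ℝ) * γ + t.2)).Countable := countable_range _
  have hc3 := hc.union hc2
  obtain ⟨zs, hzs⟩ := hc3.exists_eq_range ⟨_, Or.inr ⟨(0, 0), rfl⟩⟩
  obtain ⟨D, hD, hDz, s, U, hs, hU, hU1, hco, hinf⟩ := exists_D hγ hbad hu huv hv zs
  have hnot : D ∉ S ∪ range (fun t : ℚ × ℚ => (t.1 : ℝ) * γ + t.2) := by
    rw [hzs]
    rintro ⟨k, hk⟩
    exact hDz k hk.symm
  apply hnot
  left
  refine ⟨hD.1, hD.2, ?_, ?_⟩
  · intro q r h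
    exact hnot (Or.inr ⟨(q, r), h.symm⟩)
  · intro x₀ p hp
    exact diffraction_of_transfer (lt_of_le_of_lt hu hD.1) (lt_of_lt_of_le hD.2 hv) hγ hs hU hU1 hco hinf hp

/-- the diffraction measure of `Λ` exists, and no diffraction measure of `Λ` has an atom outside
the origin -/
def OnlyTrivialPeak (Λ : Set ℝ) : Prop :=
  (∃ η μ : Measure ℝ, IsAutocorrelation Λ η ∧ IsFourierTransformOf η μ) ∧
    ∀ η μ : Measure ℝ, IsAutocorrelation Λ η → IsFourierTransformOf η μ → ∀ s : ℝ, s ≠ 0 → μ {s} = 0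

lemma OnlyTrivialPeak.not_diffraction {Λ : Set ℝ} (h : OnlyTrivialPeak Λ) : ¬ DiffractionCondition Λ := by
  rintro ⟨η, μ, hau, hft, hinf, -⟩
  apply hinf
  apply (Set.finite_singleton (0 : ℝ)).subset
  intro s hs
  by_contra hs0
  exact hs (h.2 η μ hau hft s hs0)

lemma onlyTrivial {D γ x₀ : ℝ} (h0 : 0 < D) (h1 : D < 1) (hγ : Irrational γ) (hNC : NC D γ)
    (hD : Irrational D) {p : ℤ → ℤ × ℤ} (hp : IsStaircase D γ x₀ p) : OnlyTrivialPeak (proj D '' range p) :=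
  ⟨exists_autocorr_diffraction h0 h1 hγ hp,
    fun _ _ hau hft _ hs => no_atom' h0 h1 hγ hNC hD hp hau hft hs⟩

lemma ae_irrational : ∀ᵐ D : ℝ, Irrational D := by
  rw [ae_iff]
  have : {D : ℝ | ¬ Irrational D} = range (fun q : ℚ => (q : ℝ)) := by
    ext D
    unfold Irrational
    simp
  rw [this]
  exact (countable_range _).measure_zero _

end Pool.Agent.KS6_58.KD
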